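import Pool.Agent.TH56.CT.Def

/-!
# Graceful supertrees, depth first version: definitions and the statements of the parts

`Enum`, `Good`, `SupStm` (proved by helper56) are in `Pool.Agent.TH56.CT.Def`.
-/

set_option autoImplicit false

namespace Pool.Agent.TH368.GD

open Pool.Agent.TH56.CT (Enum Good)

/-- the vertex `a` has a child -/
def NL (m : ℕ) (p : ℕ → ℕ) (a : ℕ) : Prop := ∃ j, 1 ≤ j ∧ j ≤ m ∧ p j = a

/-- enumerations in which the jumps are nested; `g` bounds the number of vertices `u` before the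
parent of a jump `k` such that there is a jump from `u` after `k` -/
structure Enum2 (m : ℕ) (p : ℕ → ℕ) (Js : Finset ℕ) (g : ℕ) : Prop where
  enum : Enum m p Js
  nxt : ∀ k ∈ Js, k + 1 ≤ m ∧ k + 1 ∉ Js
  lifo : ∀ k ∈ Js, ∀ l ∈ Js, p l < k → k < l → p l ≤ p k
  gap : ∀ k ∈ Js, ∀ l ∈ Js, ∀ l' ∈ Js, p l = p l' → p l < p k → k < l → l < l' →
    ∃ j ∈ Js, l < j ∧ j < l'
  wid : ∀ k ∈ Js, ((Js.filter (fun l => p l < p k ∧ k < l)).image p).card ≤ g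

/-- Part I: the steps exist -/
def Wrd2Stm : Prop := ∀ (m : ℕ) (p : ℕ → ℕ) (Js : Finset ℕ) (g : ℕ), 1 ≤ m → Enum2 m p Js g →
  ∃ (M : ℕ) (c : ℕ → Bool) (s : ℕ → ℕ), Good m p Js M c s ∧ M ≤ m + 2 * (g + 1) * Js.card

/-- the conditions on a function `h` on the vertices `0, …, m` -/
structure Cert (m : ℕ) (p : ℕ → ℕ) (Js : Finset ℕ) (h : ℕ → ℕ) (H : ℕ) : Prop where
  sib : ∀ a b, 1 ≤ a → a < b → b ≤ m → p a = p b → NL m p a → NL m p b → h a < h (p a)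
  par : ∀ a, 1 ≤ a → a ≤ m → NL m p a → h a ≤ h (p a)
  pos : ∀ a, 1 ≤ a → a ≤ m → 1 ≤ h a → ∃ j ∈ Js, a < j ∧ ∀ x, a < x → x ≤ j → a ≤ p x
  max : ∀ a, 1 ≤ a → a ≤ m → h a ≤ H

/-- Part B: from depth first enumerations to `Enum2` -/
def NumStm : Prop := ∀ (m : ℕ) (p : ℕ → ℕ) (Js : Finset ℕ) (h : ℕ → ℕ) (H : ℕ), Enum m p Js →
  (∀ i j, 1 ≤ i → i < j → j ≤ m → p j < i → p j ≤ p i) →
  (∀ k, k ∈ Js ↔ 1 ≤ k ∧ k ≤ m ∧ NL m p k ∧ ∃ a, 1 ≤ a ∧ a < k ∧ p a = p k ∧ NL m p a) →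
  (∀ k ∈ Js, 1 ≤ p k) →
  (∀ a b, 1 ≤ a → a < b → b ≤ m → p a = p b → NL m p a → NL m p b → h a ≤ h b) →
  Cert m p Js h H → ∃ g, Enum2 m p Js g ∧ (Js.Nonempty → g + 1 ≤ H)

/-- the leaves of the tree obtained by deleting all leaves -/
def DL {V : Type} (T : SimpleGraph V) : Set V :=
  {x : V | 2 ≤ (T.neighborSet x).ncard ∧
    {y : V | T.Adj x y ∧ 2 ≤ (T.neighborSet y).ncard}.ncard ≤ 1}

/-- depth first enumerations of the tree `T` with root `r`; the children of a vertex which have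
children themselves are visited after the others and in the order of their `key` -/
structure Dfs {V : Type} (T : SimpleGraph V) (r : V) (key : V → ℕ) (m : ℕ) (v : ℕ → V)
    (p : ℕ → ℕ) (Js : Finset ℕ) : Prop where
  enum : Enum m p Js
  zero : v 0 = r
  inj : ∀ i j, i ≤ m → j ≤ m → v i = v j → i = j
  surj : ∀ x : V, ∃ i ≤ m, v i = x
  adj : ∀ x y : V, T.Adj x y ↔ ∃ i, 1 ≤ i ∧ i ≤ m ∧
    ((v i = x ∧ v (p i) = y) ∨ (v i = y ∧ v (p i) = x))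
  dfs : ∀ i j, 1 ≤ i → i < j → j ≤ m → p j < i → p j ≤ p i
  jmp : ∀ k, k ∈ Js ↔ 1 ≤ k ∧ k ≤ m ∧ NL m p k ∧ ∃ a, 1 ≤ a ∧ a < k ∧ p a = p k ∧ NL m p a
  srt : ∀ a b, 1 ≤ a → a < b → b ≤ m → p a = p b → NL m p a → NL m p b → key (v a) ≤ key (v b)

/-- Part A: depth first enumerations exist, and have few jumps -/
def DfsStm : Prop := ∀ (V : Type) [Fintype V] (T : SimpleGraph V) (r : V) (key : V → ℕ),
  T.IsTree → r ∈ DL T →
  ∃ (v : ℕ → V) (p : ℕ → ℕ) (Js : Finset ℕ), Dfs T r key T.edgeSet.ncard v p Js ∧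
    (∀ k ∈ Js, 1 ≤ p k) ∧ (Js.card = 0 ∨ Js.card + 2 ≤ (DL T).ncard)

/-- Part K: the logarithm of the number of leaves of the derived tree below a vertex is a
certificate -/
def LogStm : Prop := ∀ (V : Type) [Fintype V] (T : SimpleGraph V) (r : V), T.IsTree → r ∈ DL T →
  ∃ key : V → ℕ, ∀ (v : ℕ → V) (p : ℕ → ℕ) (Js : Finset ℕ), Dfs T r key T.edgeSet.ncard v p Js →
    Cert T.edgeSet.ncard p Js (fun a => key (v a)) (Nat.log 2 ((DL T).ncard - 1))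

end Pool.Agent.TH368.GD
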