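import Pool.Agent.TH56.CT.Wrd
import Pool.Agent.TH368.GD.Defs

/-!
# Part I with levels: the steps exist
-/

set_option autoImplicit false

namespace Pool.Agent.TH368.GD.W3

open Finset
open Pool.Agent.TH56.CT (Enum Good cn sg cn_succ cn_zero cn_congr cn_mono cn_add cn_lt cn_const
  cn_const' exists_class)

/-- the conditions on the widths `wd` and the allowed special numbers `A` -/
structure Lv3 (m : ℕ) (p : ℕ → ℕ) (Js : Finset ℕ) (wd : ℕ → ℕ) (A : ℕ → ℕ → Prop) : Prop where
  enum : Enum m p Js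
  nxt : ∀ k ∈ Js, k + 1 ≤ m ∧ k + 1 ∉ Js
  lifo : ∀ k ∈ Js, ∀ l ∈ Js, p l < k → k < l → p l ≤ p k
  gap : ∀ k ∈ Js, ∀ N, ∃ t, N ≤ t ∧ t ≤ N + wd k ∧ A k t
  dis : ∀ k ∈ Js, ∀ l ∈ Js, p l < p k → p k < l → ∀ t, A k t → ¬ A l t

section st

variable (m : ℕ) (p : ℕ → ℕ) (Js : Finset ℕ) (κ : ℕ → Bool) (w : ℕ → ℕ) (A : ℕ → ℕ → Prop)

/-- the jumps from `i` on and before `l` -/
def Sb (i l : ℕ) : Finset ℕ := Js.filter (fun k => i ≤ k ∧ k < l)

/-- the sum of the budgets of the jumps before `k` -/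
def Wt (k : ℕ) : ℕ := ∑ l ∈ Js.filter (fun l => l < k), (w l + 1)

/-- the jumps which are pending at `l` and whose special number is less than `t` -/
def pd (T : ℕ → ℕ) (l t : ℕ) : Finset ℕ := Js.filter (fun k => p k < l ∧ l < k ∧ T k < t)

/-- the map whose least fixed point is the planned excess at `l` -/
def ph (T : ℕ → ℕ) (l x : ℕ) : ℕ :=
  Wt Js w l + (w l + 1) + (pd p Js T l (l + 1 + 2 * x - w l)).card

/-- `x` is the least fixed point -/
def IsF (T : ℕ → ℕ) (l x : ℕ) : Prop := ph p Js w T l x = x ∧ ∀ y, ph p Js w T l y ≤ y → x ≤ y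

variable {p Js w}

theorem ph_mono {T : ℕ → ℕ} {l x y : ℕ} (h : x ≤ y) : ph p Js w T l x ≤ ph p Js w T l y := by
  unfold ph
  apply Nat.add_le_add_left
  apply card_le_card
  intro k hk
  unfold pd at hk ⊢
  rw [mem_filter] at hk ⊢
  exact ⟨hk.1, hk.2.1, hk.2.2.1, by omega⟩

theorem exists_F (T : ℕ → ℕ) (l : ℕ) : ∃ x, IsF p Js w T l x := by
  classical
  have hex : ∃ y, ph p Js w T l y ≤ y := by
    refine ⟨Wt Js w l + (w l + 1) + Js.card, ?_⟩
    unfold ph
    apply Nat.add_le_add_left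
    unfold pd
    exact card_filter_le _ _
  refine ⟨Nat.find hex, ?_, fun y hy => Nat.find_min' hex hy⟩
  have h1 := Nat.find_spec hex
  by_contra hne
  have h2 : ph p Js w T l (Nat.find hex) < Nat.find hex := lt_of_le_of_ne h1 hne
  have h3 : ph p Js w T l (Nat.find hex - 1) ≤ Nat.find hex - 1 := by
    have h4 := ph_mono (p := p) (Js := Js) (w := w) (T := T) (l := l)
      (show Nat.find hex - 1 ≤ Nat.find hex by omega)
    omega
  exact Nat.find_min hex (by omega) h3

theorem IsF.ge {T : ℕ → ℕ} {l x : ℕ} (h : IsF p Js w T l x) : w l + 1 ≤ x := by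
  have h1 := h.1
  unfold ph at h1
  omega

theorem Wt_between {i l : ℕ} (h : i ≤ l) :
    Wt Js w l = Wt Js w i + ∑ k ∈ Sb Js i l, w k + (Sb Js i l).card := by
  unfold Wt
  have h1 : Js.filter (fun k => k < l) = Js.filter (fun k => k < i) ∪ Sb Js i l := by
    ext x
    unfold Sb
    rw [mem_union, mem_filter, mem_filter, mem_filter]
    constructor
    · rintro ⟨h1, h2⟩
      by_cases h3 : i ≤ x
      · exact Or.inr ⟨h1, h3, h2⟩
      · exact Or.inl ⟨h1, by omega⟩
    · rintro (⟨h1, h2⟩ | ⟨h1, h2, h3⟩)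
      · exact ⟨h1, by omega⟩
      · exact ⟨h1, h3⟩
  have h2 : Disjoint (Js.filter (fun k => k < i)) (Sb Js i l) := by
    rw [disjoint_left]
    intro x hx hy
    unfold Sb at hy
    rw [mem_filter] at hx hy
    omega
  rw [h1, sum_union h2, sum_add_distrib (s := Sb Js i l), sum_const, smul_eq_mul, Nat.mul_one]
  omega

theorem Wt_succ {l : ℕ} (hl : l ∈ Js) : Wt Js w (l + 1) = Wt Js w l + (w l + 1) := by
  have h1 := Wt_between (Js := Js) (w := w) (show l ≤ l + 1 by omega)
  have h2 : Sb Js l (l + 1) = {l} := by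
    ext x
    unfold Sb
    rw [mem_filter, mem_singleton]
    constructor
    · rintro ⟨_, h3⟩
      omega
    · rintro rfl
      exact ⟨hl, by omega⟩
  rw [h2, sum_singleton, card_singleton] at h1
  omega

theorem Wt_succ' {l : ℕ} (hl : l ∉ Js) : Wt Js w (l + 1) = Wt Js w l := by
  have h1 := Wt_between (Js := Js) (w := w) (show l ≤ l + 1 by omega)
  have h2 : Sb Js l (l + 1) = ∅ := by
    rw [eq_empty_iff_forall_notMem]
    intro x hx
    unfold Sb at hx
    rw [mem_filter] at hx
    exact hl (by rw [show l = x by omega]; exact hx.1)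
  rw [h2, sum_empty, card_empty] at h1
  omega

theorem Wt_le {i l : ℕ} (h : i ≤ l) : Wt Js w i ≤ Wt Js w l := by
  have := Wt_between (Js := Js) (w := w) h
  omega

/-- the sum of the widths contains the last one -/
theorem w_le_sum {i l : ℕ} (hl : l ∈ Js) (h : i ≤ l) : w l ≤ ∑ k ∈ Sb Js i (l + 1), w k := by
  refine single_le_sum (f := w) (fun _ _ => Nat.zero_le _) ?_
  unfold Sb
  rw [mem_filter]
  exact ⟨hl, h, by omega⟩

/-- the planned excesses grow -/
theorem F_mono {T : ℕ → ℕ} {z k x y : ℕ} (hz : z ∈ Js) (hk : k ∈ Js) (hzk : z < k)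
    (hx : IsF p Js w T z x) (hy : IsF p Js w T k y) : x + w k ≤ y := by
  have hs := w_le_sum (w := w) hk (show z + 1 ≤ k by omega)
  obtain ⟨S, hS⟩ : ∃ S, S = ∑ l ∈ Sb Js (z + 1) (k + 1), w l := ⟨_, rfl⟩
  rw [← hS] at hs
  have h5 := Wt_between (Js := Js) (w := w) (show z + 1 ≤ k + 1 by omega)
  rw [← hS, Wt_succ hz, Wt_succ hk] at h5
  have hy1 := hy.1
  unfold ph at hy1
  have h1 : x ≤ y - S := by
    apply hx.2
    unfold ph
    have hsub : pd p Js T z (z + 1 + 2 * (y - S) - w z) ⊆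
        pd p Js T k (k + 1 + 2 * y - w k) ∪ Sb Js (z + 1) (k + 1) := by
      intro l hl
      unfold pd at hl
      rw [mem_filter] at hl
      unfold pd Sb
      rw [mem_union, mem_filter, mem_filter]
      by_cases h2 : l < k + 1
      · exact Or.inr ⟨hl.1, by omega, h2⟩
      · exact Or.inl ⟨hl.1, by omega, by omega, by omega⟩
    have h2 := card_le_card hsub
    have h3 := card_union_le (pd p Js T k (k + 1 + 2 * y - w k)) (Sb Js (z + 1) (k + 1))
    omega
  omega

variable (p Js w)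

/-- the planned jumps -/
def P (i z : ℕ) : Finset ℕ := Js.filter (fun k => p k < i ∨ (p k = i ∧ z ≤ k))

/-- the end of the part with known counts -/
def no (i N : ℕ) (F : ℕ → ℕ) : ℕ := if i ∈ Js then i + 1 + 2 * F i - w i else N

/-- the planned jumps after `i` with special number less than `t` -/
def qc (i z : ℕ) (T : ℕ → ℕ) (t : ℕ) : Finset ℕ :=
  (P p Js i z).filter (fun k => i < k ∧ T k < t)

/-- the states: the vertices `≤ i` are placed at steps `< N` -/
structure Core (i z N : ℕ) (c : ℕ → Bool) (s T F e : ℕ → ℕ) : Prop where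
  hN : N = s i + 1
  c0 : c 0 = false
  c1 : 2 ≤ N → c 1 = true
  s0 : s 0 = 0
  mono : ∀ j l, j < l → l ≤ i → s j < s l
  cls : ∀ j ≤ i, c (s j) = κ j
  reg : ∀ j, 1 ≤ j → j ≤ i → j ∉ Js → ∀ t, s (p j) < t → t < s j → c t = κ j
  plan : ∀ k ∈ Js, k ≤ i → cn c (κ k) (s k) = cn κ (κ k) k + e k
  fp : ∀ k ∈ P p Js i z, IsF p Js w T k (F k)
  al : ∀ k ∈ P p Js i z, A k (T k)
  eb : ∀ k ∈ P p Js i z, F k ≤ e k + w k ∧ e k ≤ F k
  tq : ∀ k ∈ P p Js i z, T k = cn κ (κ k) k + e k + cn c (κ (p k)) (s (p k)) + 1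
  inj : ∀ k ∈ P p Js i z, ∀ l ∈ P p Js i z, T k = T l → k = l
  hole : ∀ k ∈ P p Js i z, T k < N → (∃ l ∈ Js, l ≤ i ∧ T k = s l) ∨
    ((∀ j ≤ i, s j ≠ T k) ∧ c (T k + 1) = c (T k) ∧ T k + 1 < N)

/-- the bounds of the states -/
structure Inv (i z N : ℕ) (c : ℕ → Bool) (T F : ℕ → ℕ) : Prop where
  le : N ≤ no Js w i N F
  X : ∀ b, cn c b N ≤ cn κ b (i + 1) + Wt Js w (i + 1) +
    (qc p Js i z T (no Js w i N F)).card
  B : ∀ t ≤ no Js w i N F, t ≤ (i + 1) + 2 * (Wt Js w (i + 1) + (qc p Js i z T t).card)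

variable {p Js κ w A}

theorem Inv.key {i z N : ℕ} {c : ℕ → Bool} {T F : ℕ → ℕ} (h : Inv p Js κ w i z N c T F) {l x : ℕ}
    (hl : l ∈ Js) (hil : i < l) (hx : IsF p Js w T l x) : no Js w i N F ≤ l + 1 + 2 * x - w l := by
  by_contra hcon
  push Not at hcon
  have hB := h.B _ hcon.le
  have hge := hx.ge
  have hx1 := hx.1
  unfold ph at hx1
  have hsub : qc p Js i z T (l + 1 + 2 * x - w l) ⊆ pd p Js T l (l + 1 + 2 * x - w l) ∪
      Sb Js (i + 1) (l + 1) := by
    intro k hk
    unfold qc P at hk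
    rw [mem_filter, mem_filter] at hk
    obtain ⟨⟨h1, h2⟩, h3, h4⟩ := hk
    unfold pd Sb
    rw [mem_union, mem_filter, mem_filter]
    by_cases h5 : k < l + 1
    · exact Or.inr ⟨h1, by omega, h5⟩
    · exact Or.inl ⟨h1, by omega, by omega, h4⟩
  have h2 := card_le_card hsub
  have h3 := card_union_le (pd p Js T l (l + 1 + 2 * x - w l)) (Sb Js (i + 1) (l + 1))
  have h4 := Wt_between (Js := Js) (w := w) (show i + 1 ≤ l + 1 by omega)
  have h5 := Wt_succ (w := w) hl
  have h6 := w_le_sum (w := w) hl (show i + 1 ≤ l by omega)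
  omega

theorem Core.slt {i z N : ℕ} {c : ℕ → Bool} {s T F e : ℕ → ℕ} (h : Core p Js κ w A i z N c s T F e)
    {j : ℕ} (hj : j ≤ i) : s j < N := by
  have h1 := h.hN
  rcases hj.lt_or_eq with h2 | h2
  · have := h.mono j i h2 le_rfl
    omega
  · subst h2
    omega

theorem Core.ext {m : ℕ} (hE : Enum m p Js) (hκ0 : κ 0 = false)
    (hκ : ∀ i, 1 ≤ i → i ≤ m → κ i = !κ (p i)) {i N : ℕ} {c : ℕ → Bool} {s T F e : ℕ → ℕ}
    (h : Core p Js κ w A i 0 N c s T F e) (him : i + 1 ≤ m) (L : ℕ)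
    (hL1 : i + 1 ∉ Js → ∀ k ∈ P p Js i 0, T k ≠ N + L)
    (hL2 : i + 1 ∈ Js → cn c (κ (i + 1)) N + L = cn κ (κ (i + 1)) (i + 1) + e (i + 1)) :
    Core p Js κ w A (i + 1) (m + 1) (N + L + 1) (fun t => if t < N then c t else κ (i + 1))
      (Function.update s (i + 1) (N + L)) T F e := by
  obtain ⟨c', hc'⟩ : ∃ c' : ℕ → Bool, c' = (fun t => if t < N then c t else κ (i + 1)) := ⟨_, rfl⟩
  obtain ⟨s', hs'⟩ : ∃ s' : ℕ → ℕ, s' = Function.update s (i + 1) (N + L) := ⟨_, rfl⟩
  rw [← hc', ← hs']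
  have c1 : ∀ t, t < N → c' t = c t := fun t ht => by rw [hc']; simp [ht]
  have c2 : ∀ t, N ≤ t → c' t = κ (i + 1) := fun t ht => by
    rw [hc']; simp [Nat.not_lt.2 ht]
  have s1 : ∀ j, j ≤ i → s' j = s j := fun j hj => by
    rw [hs']
    exact Function.update_of_ne (by omega) _ _
  have s2 : s' (i + 1) = N + L := by rw [hs']; exact Function.update_self _ _ _
  have hcn : ∀ b t, t ≤ N → cn c' b t = cn c b t := fun b t ht =>
    cn_congr (fun u hu => c1 u (by omega)) b
  have hcn2 : ∀ x, cn c' (κ (i + 1)) (N + x) = cn c (κ (i + 1)) N + x := fun x => by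
    rw [cn_const x (fun u h1 _ => c2 u h1), hcn _ N le_rfl]
  have hN1 : 1 ≤ N := by have := h.hN; omega
  have hP : ∀ k ∈ P p Js (i + 1) (m + 1), k ∈ P p Js i 0 := by
    intro k hk
    unfold P at hk ⊢
    rw [mem_filter] at hk ⊢
    refine ⟨hk.1, ?_⟩
    have := (hE.sub k hk.1).2
    omega
  have hPp : ∀ k ∈ P p Js i 0, p k ≤ i := by
    intro k hk
    unfold P at hk
    rw [mem_filter] at hk
    omega
  have hpi : p (i + 1) < i + 1 := hE.lt (i + 1) (by omega) him
  refine ⟨by rw [s2], ?_, ?_, ?_, ?_, ?_, ?_, ?_, fun k hk => h.fp k (hP k hk),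
    fun k hk => h.al k (hP k hk), fun k hk => h.eb k (hP k hk), ?_, fun k hk l hl => h.inj k (hP k hk) l (hP l hl), ?_⟩
  · rw [c1 0 hN1, h.c0]
  · intro _
    rcases Nat.lt_or_ge 1 N with h2 | h2
    · rw [c1 1 h2, h.c1 h2]
    · have hi0 : i = 0 := by
        by_contra hne
        have h3 := h.mono 0 i (by omega) le_rfl
        have h4 := h.hN
        omega
      rw [c2 1 h2]
      subst hi0
      rw [hκ 1 le_rfl him]
      have : p 1 = 0 := by
        have : p (0 + 1) < 0 + 1 := hpi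
        simpa using this
      rw [this, hκ0]
      rfl
  · rw [s1 0 (by omega), h.s0]
  · intro j l hjl hl
    rcases hl.lt_or_eq with h2 | h2
    · rw [s1 j (by omega), s1 l (by omega)]
      exact h.mono j l hjl (by omega)
    · rw [h2, s2, s1 j (by omega)]
      have := h.slt (j := j) (by omega)
      omega
  · intro j hj
    rcases hj.lt_or_eq with h2 | h2
    · rw [s1 j (by omega), c1 _ (h.slt (by omega)), h.cls j (by omega)]
    · rw [h2, s2, c2 _ (by omega)]
  · intro j hj1 hj hjJ t ht1 ht2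
    rcases hj.lt_or_eq with h2 | h2
    · have hpj := hE.lt j hj1 (by omega)
      rw [s1 _ (by omega)] at ht1
      rw [s1 _ (by omega)] at ht2
      have h3 := h.slt (j := j) (by omega)
      rw [c1 _ (by omega)]
      exact h.reg j hj1 (by omega) hjJ t ht1 ht2
    · subst h2
      rw [s1 _ (by omega)] at ht1
      rcases Nat.lt_or_ge t N with h3 | h3
      · rw [c1 t h3]
        rcases hE.reg (i + 1) (by omega) him hjJ with h4 | ⟨h4, h5, h6⟩
        · have h7 : p (i + 1) = i := by omega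
          rw [h7] at ht1
          have := h.hN
          omega
        · rw [Nat.add_sub_cancel] at h5 h6
          rw [h6] at ht1
          have h8 : κ (i + 1) = κ i := by
            rw [hκ (i + 1) (by omega) him, hκ i (by omega) (by omega), h6]
          rw [h8]
          rcases Nat.lt_or_ge t (s i) with h9 | h9
          · exact h.reg i (by omega) le_rfl h5 t ht1 h9
          · have h10 : t = s i := by have := h.hN; omega
            rw [h10, h.cls i le_rfl]
      · exact c2 t h3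
  · intro k hk hki
    rcases hki.lt_or_eq with h2 | h2
    · rw [s1 k (by omega), hcn _ _ (h.slt (by omega)).le]
      exact h.plan k hk (by omega)
    · subst h2
      rw [s2, hcn2, hL2 hk]
  · intro k hk
    have h1 := hPp k (hP k hk)
    rw [s1 _ h1, hcn _ _ (h.slt h1).le]
    exact h.tq k (hP k hk)
  · intro k hk hlt
    have hk' := hP k hk
    rcases Nat.lt_or_ge (T k) N with h3 | h3
    · rcases h.hole k hk' h3 with ⟨l, h4, h5, h6⟩ | ⟨h4, h5, h6⟩
      · exact Or.inl ⟨l, h4, by omega, by rw [s1 l h5, h6]⟩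
      · refine Or.inr ⟨?_, ?_, by omega⟩
        · intro j hj
          rcases hj.lt_or_eq with h7 | h7
          · rw [s1 j (by omega)]
            exact h4 j (by omega)
          · rw [h7, s2]
            omega
        · rw [c1 _ h6, c1 _ (by omega), h5]
    · rcases Nat.lt_or_ge (T k) (N + L) with h4 | h4
      · refine Or.inr ⟨?_, ?_, by omega⟩
        · intro j hj
          rcases hj.lt_or_eq with h7 | h7
          · rw [s1 j (by omega)]
            have := h.slt (j := j) (by omega)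
            omega
          · rw [h7, s2]
            omega
        · rw [c2 _ h3, c2 _ (by omega)]
      · by_cases hJ : i + 1 ∈ Js
        · exact Or.inl ⟨i + 1, hJ, le_rfl, by rw [s2]; omega⟩
        · exact absurd (by omega) (hL1 hJ k hk')

theorem Core.exe {m : ℕ} (hE : Enum m p Js) (hκ : ∀ i, 1 ≤ i → i ≤ m → κ i = !κ (p i))
    {i z N : ℕ} {c : ℕ → Bool} {s T F e : ℕ → ℕ} (h : Core p Js κ w A i z N c s T F e) {k : ℕ}
    (hk : k ∈ P p Js i z) (hki : k ≤ i) : T k ≤ s k := by
  have hk1 : k ∈ Js := by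
    unfold P at hk
    exact (mem_filter.1 hk).1
  have h0 := hE.sub k hk1
  have h1 := hE.lt k h0.1 h0.2
  have h2 := cn_add c (κ k) (s k)
  have h3 : (!κ k) = κ (p k) := by rw [hκ k h0.1 h0.2]; simp
  rw [h3, h.plan k hk1 hki] at h2
  have h4 := cn_lt (h.mono (p k) k h1 hki) (h.cls (p k) (by omega))
  have h5 := h.tq k hk
  omega

theorem Core.cnN {m : ℕ} (hE : Enum m p Js) {i z N : ℕ} {c : ℕ → Bool} {s T F e : ℕ → ℕ}
    (h : Core p Js κ w A i z N c s T F e) (hi : i ∈ Js) :
    cn c (κ i) N = cn κ (κ i) (i + 1) + e i := by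
  have h1 := hE.sub i hi
  rw [h.hN, cn_succ, cn_succ, h.plan i hi le_rfl, h.cls i le_rfl]
  simp
  omega

theorem Core.memP {m : ℕ} (hE : Enum m p Js) {i z : ℕ} (hi : i ∈ Js) : i ∈ P p Js i z := by
  have h1 := hE.sub i hi
  have h2 := hE.lt i h1.1 h1.2
  unfold P
  exact mem_filter.2 ⟨hi, Or.inl h2⟩

theorem Core.Fle {m : ℕ} (hE : Enum m p Js) {i z N : ℕ} {c : ℕ → Bool} {s T F e : ℕ → ℕ}
    (h : Core p Js κ w A i z N c s T F e) (hi : i ∈ Js) :
    F i ≤ Wt Js w (i + 1) + (qc p Js i z T (no Js w i N F)).card := by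
  have h1 := (h.fp i (Core.memP hE hi)).1
  have h2 := Wt_succ (w := w) hi
  unfold ph at h1
  rw [h2]
  have h3 : no Js w i N F = i + 1 + 2 * F i - w i := by unfold no; rw [if_pos hi]
  rw [h3]
  have h4 : (pd p Js T i (i + 1 + 2 * F i - w i)).card ≤
      (qc p Js i z T (i + 1 + 2 * F i - w i)).card := by
    apply card_le_card
    intro k hk
    unfold pd at hk
    rw [mem_filter] at hk
    unfold qc P
    rw [mem_filter, mem_filter]
    exact ⟨⟨hk.1, Or.inl hk.2.1⟩, hk.2.2.1, hk.2.2.2⟩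
  omega

theorem Inv.room {m : ℕ} (hE : Enum m p Js) {i N : ℕ} {c : ℕ → Bool}
    {s T F e : ℕ → ℕ} (hc : Core p Js κ w A i 0 N c s T F e) (h : Inv p Js κ w i 0 N c T F)
    (hJ : i + 1 ∈ Js) (hi : i ∉ Js) (b : Bool) :
    cn c b N + w (i + 1) ≤ cn κ b (i + 1) + F (i + 1) := by
  have h0 := hE.sub _ hJ
  have h1 := hE.lt _ h0.1 h0.2
  have hno : no Js w i N F = N := by unfold no; rw [if_neg hi]
  have hmem : i + 1 ∈ P p Js i 0 := by
    unfold P
    exact mem_filter.2 ⟨hJ, by omega⟩
  have hfp := hc.fp _ hmem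
  have hkey := h.key hJ (by omega) hfp
  have hX := h.X b
  rw [hno] at hkey hX
  have hsub : qc p Js i 0 T N ⊆
      insert (i + 1) (pd p Js T (i + 1) (i + 1 + 1 + 2 * F (i + 1) - w (i + 1))) := by
    intro k hk
    unfold qc P at hk
    rw [mem_filter, mem_filter] at hk
    obtain ⟨⟨h2, h3⟩, h4, h5⟩ := hk
    unfold pd
    rw [mem_insert, mem_filter]
    by_cases h6 : k = i + 1
    · exact Or.inl h6
    · exact Or.inr ⟨h2, by omega, by omega, by omega⟩
  have h2 := card_le_card hsub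
  have h3 := card_insert_le (i + 1) (pd p Js T (i + 1) (i + 1 + 1 + 2 * F (i + 1) - w (i + 1)))
  have h4 := hfp.1
  unfold ph at h4
  omega

theorem qc_sub {m : ℕ} {i : ℕ} {T : ℕ → ℕ} {t : ℕ} (hJ : i + 1 ∉ Js) :
    qc p Js i 0 T t ⊆ qc p Js (i + 1) (m + 1) T t := by
  intro k hk
  unfold qc P at hk ⊢
  rw [mem_filter, mem_filter] at hk ⊢
  have h1 : k ≠ i + 1 := fun h => hJ (h ▸ hk.1.1)
  exact ⟨⟨hk.1.1, by omega⟩, by omega, hk.2.2⟩

theorem Inv.ext_a {m : ℕ} (hE : Enum m p Js) (hκ : ∀ i, 1 ≤ i → i ≤ m → κ i = !κ (p i))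
    {i N : ℕ} {c : ℕ → Bool}
    {s T F e : ℕ → ℕ} (hc : Core p Js κ w A i 0 N c s T F e) (h : Inv p Js κ w i 0 N c T F)
    (him : i + 1 ≤ m) (hJ : i + 1 ∉ Js) (L : ℕ)
    (hx : ∀ x < L, ∃ k ∈ P p Js i 0, T k = no Js w i N F + x) :
    Inv p Js κ w (i + 1) (m + 1) (N + (no Js w i N F - N + L) + 1)
      (fun t => if t < N then c t else κ (i + 1)) T F := by
  obtain ⟨c', hc'⟩ : ∃ c' : ℕ → Bool, c' = (fun t => if t < N then c t else κ (i + 1)) := ⟨_, rfl⟩
  rw [← hc']
  have c1 : ∀ t, t < N → c' t = c t := fun t ht => by rw [hc']; simp [ht]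
  have c2 : ∀ t, N ≤ t → c' t = κ (i + 1) := fun t ht => by
    rw [hc']; simp [Nat.not_lt.2 ht]
  have hcn : ∀ b t, t ≤ N → cn c' b t = cn c b t := fun b t ht =>
    cn_congr (fun u hu => c1 u (by omega)) b
  have hcn2 : ∀ x, cn c' (κ (i + 1)) (N + x) = cn c (κ (i + 1)) N + x := fun x => by
    rw [cn_const x (fun u h1 _ => c2 u h1), hcn _ N le_rfl]
  have hcn3 : ∀ x, cn c' (!κ (i + 1)) (N + x) = cn c (!κ (i + 1)) N := fun x => by
    rw [cn_const' x (fun u h1 _ => c2 u h1), hcn _ N le_rfl]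
  have hle := h.le
  have hsub : ∀ t, (qc p Js i 0 T t).card ≤ (qc p Js (i + 1) (m + 1) T t).card := fun t =>
    card_le_card (qc_sub hJ)
  have hcnt : ∀ y ≤ L, (qc p Js i 0 T (no Js w i N F)).card + y ≤
      (qc p Js (i + 1) (m + 1) T (no Js w i N F + y)).card := by
    intro y hy
    choose! f hf using hx
    have hinj : Set.InjOn f (range y : Set ℕ) := by
      intro a ha b hb hab
      rw [mem_coe, mem_range] at ha hb
      have h7 := (hf a (by omega)).2
      have h8 := (hf b (by omega)).2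
      rw [hab, h8] at h7
      omega
    have hdis : Disjoint (qc p Js i 0 T (no Js w i N F)) ((range y).image f) := by
      rw [disjoint_left]
      intro k hk hk2
      unfold qc at hk
      rw [mem_filter] at hk
      rw [mem_image] at hk2
      obtain ⟨x, hx2, rfl⟩ := hk2
      rw [mem_range] at hx2
      have := (hf x (by omega)).2
      omega
    have hsub2 : (qc p Js i 0 T (no Js w i N F)) ∪ ((range y).image f) ⊆
        (qc p Js (i + 1) (m + 1) T (no Js w i N F + y)) := by
      apply union_subset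
      · intro k hk
        have h1 := qc_sub (m := m) hJ hk
        unfold qc at h1 ⊢
        rw [mem_filter] at h1 ⊢
        exact ⟨h1.1, h1.2.1, by omega⟩
      · intro k hk2
        rw [mem_image] at hk2
        obtain ⟨x, hx2, rfl⟩ := hk2
        rw [mem_range] at hx2
        obtain ⟨h7, h8⟩ := hf x (by omega)
        have h9 : ¬ f x ≤ i := by
          intro h10
          have h11 := hc.exe hE hκ h7 h10
          have h12 := hc.slt h10
          omega
        apply qc_sub (m := m) hJ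
        unfold qc
        rw [mem_filter]
        exact ⟨h7, by omega, by omega⟩
    have h7 := card_le_card hsub2
    rw [card_union_of_disjoint hdis, card_image_of_injOn hinj, card_range] at h7
    exact h7
  have hno' : no Js w (i + 1) (N + (no Js w i N F - N + L) + 1) F =
      no Js w i N F + L + 1 := by
    have h1 : no Js w (i + 1) (N + (no Js w i N F - N + L) + 1) F =
        N + (no Js w i N F - N + L) + 1 := by
      rw [no, if_neg hJ]
    rw [h1]
    omega
  have hck := Wt_succ' (w := w) hJ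
  have hmono : ∀ t t', t ≤ t' → (qc p Js (i + 1) (m + 1) T t).card ≤
      (qc p Js (i + 1) (m + 1) T t').card := by
    intro t t' htt
    apply card_le_card
    intro k hk
    unfold qc at hk ⊢
    rw [mem_filter] at hk ⊢
    exact ⟨hk.1, hk.2.1, by omega⟩
  have hL := hcnt L le_rfl
  have hL1 := hmono (no Js w i N F + L) (no Js w i N F + L + 1) (by omega)
  refine ⟨by rw [hno']; omega, ?_, ?_⟩
  · intro b
    rw [hno', hck]
    have hX := h.X b
    have hcn4 : cn κ b (i + 1 + 1) = cn κ b (i + 1) + if κ (i + 1) = b then 1 else 0 :=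
      cn_succ κ b (i + 1)
    by_cases hb : κ (i + 1) = b
    · rw [if_pos hb] at hcn4
      have h1 : cn c' b (N + (no Js w i N F - N + L) + 1) =
          cn c b N + (no Js w i N F - N) + L + 1 := by
        rw [← hb, Nat.add_assoc, hcn2]
        omega
      rw [h1, hcn4]
      by_cases hi : i ∈ Js
      · have h2 : p (i + 1) = i := by
          rcases hE.reg (i + 1) (by omega) him hJ with h4 | ⟨h4, h5, h6⟩
          · omega
          · rw [Nat.add_sub_cancel] at h5
            exact absurd hi h5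
        have h3 : κ (i + 1) = !κ i := by rw [hκ (i + 1) (by omega) him, h2]
        have h4 := cn_add c b N
        have h5 := cn_add κ b (i + 1)
        have h6 : (!b) = κ i := by rw [← hb, h3]; simp
        rw [h6, hc.cnN hE hi] at h4
        rw [h6] at h5
        have h7 := hc.eb i (Core.memP hE hi)
        have h8 := hc.Fle hE hi
        have h9 : no Js w i N F = i + 1 + 2 * F i - w i := by unfold no; rw [if_pos hi]
        have h10 := (hc.fp i (Core.memP hE hi)).ge
        omega
      · have h9 : no Js w i N F = N := by unfold no; rw [if_neg hi]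
        omega
    · rw [if_neg hb, Nat.add_zero] at hcn4
      have hb' : b = !κ (i + 1) := by
        cases hh : κ (i + 1) <;> cases b <;> simp_all
      have h1 : cn c' b (N + (no Js w i N F - N + L) + 1) = cn c b N := by
        rw [hb', Nat.add_assoc, hcn3]
      rw [h1, hcn4]
      omega
  · intro t ht
    rw [hno'] at ht
    rw [hck]
    rcases Nat.lt_or_ge (no Js w i N F) t with h1 | h1
    · obtain ⟨y, hy⟩ : ∃ y, t = no Js w i N F + y := ⟨t - no Js w i N F, by omega⟩
      have h2 := h.B _ le_rfl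
      rcases Nat.lt_or_ge L y with h3 | h3
      · have h4 : t = no Js w i N F + L + 1 := by omega
        rw [h4]
        omega
      · have h4 := hcnt y h3
        rw [← hy] at h4
        omega
    · have h2 := h.B t h1
      have h3 := hsub t
      omega

theorem Inv.ext_b {m : ℕ} (hE : Enum m p Js)
    {i N : ℕ} {c : ℕ → Bool}
    {s T F e : ℕ → ℕ} (hc : Core p Js κ w A i 0 N c s T F e) (h : Inv p Js κ w i 0 N c T F)
    (hJ : i + 1 ∈ Js) (hi : i ∉ Js) (L : ℕ)
    (hL : cn c (κ (i + 1)) N + L = cn κ (κ (i + 1)) (i + 1) + e (i + 1)) :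
    Inv p Js κ w (i + 1) (m + 1) (N + L + 1)
      (fun t => if t < N then c t else κ (i + 1)) T F := by
  obtain ⟨c', hc'⟩ : ∃ c' : ℕ → Bool, c' = (fun t => if t < N then c t else κ (i + 1)) := ⟨_, rfl⟩
  rw [← hc']
  have c1 : ∀ t, t < N → c' t = c t := fun t ht => by rw [hc']; simp [ht]
  have c2 : ∀ t, N ≤ t → c' t = κ (i + 1) := fun t ht => by
    rw [hc']; simp [Nat.not_lt.2 ht]
  have hcn : ∀ b t, t ≤ N → cn c' b t = cn c b t := fun b t ht =>
    cn_congr (fun u hu => c1 u (by omega)) b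
  have hcn2 : ∀ x, cn c' (κ (i + 1)) (N + x) = cn c (κ (i + 1)) N + x := fun x => by
    rw [cn_const x (fun u h1 _ => c2 u h1), hcn _ N le_rfl]
  have hcn3 : ∀ x, cn c' (!κ (i + 1)) (N + x) = cn c (!κ (i + 1)) N := fun x => by
    rw [cn_const' x (fun u h1 _ => c2 u h1), hcn _ N le_rfl]
  have h0 := hE.sub _ hJ
  have h1 := hE.lt _ h0.1 h0.2
  have hmem : i + 1 ∈ P p Js i 0 := by
    unfold P
    exact mem_filter.2 ⟨hJ, by omega⟩
  have hfp := hc.fp _ hmem
  have heb := hc.eb _ hmem
  have hge := hfp.ge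
  have hno' : no Js w (i + 1) (N + L + 1) F = i + 1 + 1 + 2 * F (i + 1) - w (i + 1) := by
    rw [no, if_pos hJ]
  have hpq : ∀ t, (pd p Js T (i + 1) t).card ≤ (qc p Js (i + 1) (m + 1) T t).card := by
    intro t
    apply card_le_card
    intro k hk
    unfold pd at hk
    rw [mem_filter] at hk
    unfold qc P
    rw [mem_filter, mem_filter]
    exact ⟨⟨hk.1, Or.inl hk.2.1⟩, hk.2.2.1, hk.2.2.2⟩
  have hck := Wt_succ (w := w) hJ
  have hF := hfp.1
  unfold ph at hF
  have hb1 := h.room hE hc hJ hi (κ (i + 1))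
  have hb2 := h.room hE hc hJ hi (!κ (i + 1))
  have h2 : cn c' (κ (i + 1)) (N + L + 1) = cn κ (κ (i + 1)) (i + 1) + e (i + 1) + 1 := by
    rw [Nat.add_assoc, hcn2]
    omega
  have h3 : cn c' (!κ (i + 1)) (N + L + 1) = cn c (!κ (i + 1)) N := by
    rw [Nat.add_assoc, hcn3]
  have h4 := cn_add c' (κ (i + 1)) (N + L + 1)
  have h5 := cn_add κ (κ (i + 1)) (i + 1)
  have h6 : cn κ (κ (i + 1)) (i + 1 + 1) = cn κ (κ (i + 1)) (i + 1) + 1 := by
    rw [cn_succ]; simp
  have h7 : cn κ (!κ (i + 1)) (i + 1 + 1) = cn κ (!κ (i + 1)) (i + 1) := by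
    rw [cn_succ]; simp
  have hpq1 := hpq (i + 1 + 1 + 2 * F (i + 1) - w (i + 1))
  refine ⟨by rw [hno']; omega, ?_, ?_⟩
  · intro b
    rw [hno', hck]
    have hb : b = κ (i + 1) ∨ b = !κ (i + 1) := by
      cases hh : κ (i + 1) <;> cases b <;> simp_all
    rcases hb with rfl | rfl
    · rw [h2, h6]
      omega
    · rw [h3, h7]
      omega
  · intro t ht
    rw [hno'] at ht
    rw [hck]
    have h8 := hpq t
    by_contra hcon
    push Not at hcon
    obtain ⟨G, hG⟩ : ∃ G, G = Wt Js w (i + 1) + (w (i + 1) + 1) + (pd p Js T (i + 1) t).card :=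
      ⟨_, rfl⟩
    have h12 : i + 1 + 1 + 2 * G - w (i + 1) ≤ t := by omega
    have h9 : ph p Js w T (i + 1) G ≤ G := by
      have h11 : (pd p Js T (i + 1) (i + 1 + 1 + 2 * G - w (i + 1))).card ≤
          (pd p Js T (i + 1) t).card := by
        apply card_le_card
        intro k hk
        unfold pd at hk ⊢
        rw [mem_filter] at hk ⊢
        exact ⟨hk.1, hk.2.1, hk.2.2.1, by omega⟩
      unfold ph
      omega
    have h10 := hfp.2 _ h9
    omega

theorem IsF.congr {T T' : ℕ → ℕ} {k x : ℕ} (h : IsF p Js w T k x)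
    (hT : ∀ l ∈ Js, p l < k → k < l → T' l = T l) : IsF p Js w T' k x := by
  have h1 : ∀ y, ph p Js w T' k y = ph p Js w T k y := by
    intro y
    unfold ph
    congr 2
    unfold pd
    apply filter_congr
    intro l hl
    constructor
    · rintro ⟨h1, h2, h3⟩
      rw [hT l hl h1 h2] at h3
      exact ⟨h1, h2, h3⟩
    · rintro ⟨h1, h2, h3⟩
      rw [hT l hl h1 h2]
      exact ⟨h1, h2, h3⟩
  refine ⟨by rw [h1, h.1], fun y hy => h.2 y (by rw [← h1]; exact hy)⟩

theorem plan_one {m : ℕ} (hE2 : Lv3 m p Js w A)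
    (hκ : ∀ i, 1 ≤ i → i ≤ m → κ i = !κ (p i)) {i z N : ℕ} {c : ℕ → Bool} {s T F e : ℕ → ℕ}
    (hc : Core p Js κ w A i (z + 1) N c s T F e) (h : Inv p Js κ w i (z + 1) N c T F) :
    ∃ T' F' e', Core p Js κ w A i z N c s T' F' e' ∧ Inv p Js κ w i z N c T' F' := by
  classical
  have hE := hE2.enum
  by_cases hzz : z ∈ Js ∧ p z = i
  · obtain ⟨hz, hpz⟩ := hzz
    have hz0 := hE.sub z hz
    have hiz : i < z := by rw [← hpz]; exact hE.lt z hz0.1 hz0.2
    obtain ⟨x, hx⟩ := exists_F (p := p) (Js := Js) (w := w) T z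
    have hxge := hx.ge
    have hmemP : ∀ k, k ∈ P p Js i (z + 1) ↔ k ∈ Js ∧ (p k < i ∨ (p k = i ∧ z + 1 ≤ k)) := by
      intro k
      unfold P
      rw [mem_filter]
    have f1 : ∀ k ∈ P p Js i (z + 1), i < k → z < k := by
      intro k hk hik
      rw [hmemP] at hk
      rcases hk.2 with h1 | h1
      · by_contra hcon
        rcases Nat.lt_or_ge k z with h2 | h2
        · have := hE2.lifo k hk.1 z hz (by omega) h2
          omega
        · have h3 : k = z := by omega
          rw [h3] at h1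
          omega
      · omega
    have f2 := h.key hz hiz hx
    have hκz : (!κ z) = κ i := by rw [hκ z hz0.1 hz0.2, hpz]; simp
    have hcni : cn c (κ i) N = cn c (κ i) (s i) + 1 := by
      rw [hc.hN, cn_succ, hc.cls i le_rfl]; simp
    obtain ⟨a, hA⟩ : ∃ a, a = cn c (κ i) (s i) := ⟨_, rfl⟩
    obtain ⟨base, hbase⟩ : ∃ base, base = cn κ (κ z) z + (x - w z) + a + 1 := ⟨_, rfl⟩
    have f3 : N + 1 ≤ base := by
      have h1 := h.X (κ z)
      have h2 : cn κ (κ z) (i + 1) ≤ cn κ (κ z) z := cn_mono _ _ hiz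
      have h3 : (qc p Js i (z + 1) T (no Js w i N F)).card ≤
          (pd p Js T z (z + 1 + 2 * x - w z)).card := by
        apply card_le_card
        intro k hk
        unfold qc at hk
        rw [mem_filter] at hk
        have h4 := f1 k hk.1 hk.2.1
        have h5 := (hmemP k).1 hk.1
        unfold pd
        rw [mem_filter]
        exact ⟨h5.1, by omega, h4, by omega⟩
      have h4 := hx.1
      unfold ph at h4
      have h5 := Wt_le (Js := Js) (w := w) (show i + 1 ≤ z by omega)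
      have h6 := cn_add c (κ z) N
      rw [hκz, hcni] at h6
      omega
    have f5 : ∀ k ∈ P p Js i (z + 1), k ≤ i → T k < N := by
      intro k hk hki
      have h1 := hc.exe hE hκ hk hki
      have h2 := hc.slt hki
      omega
    have f4 : ∀ k ∈ Js, p k = i → z < k → base + w z < T k := by
      intro k hk hpk hzk
      have hk0 := hE.sub k hk
      have hkP : k ∈ P p Js i (z + 1) := (hmemP k).2 ⟨hk, Or.inr ⟨hpk, hzk⟩⟩
      have h1 := hc.tq k hkP
      rw [hpk, ← hA] at h1
      have h2 : κ k = κ z := by rw [hκ k hk0.1 hk0.2, hκ z hz0.1 hz0.2, hpk, hpz]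
      have h3 := cn_lt (c := κ) hzk rfl
      rw [h2] at h1
      have h4 := (hc.eb k hkP).1
      have h5 := F_mono hz hk hzk hx (hc.fp k hkP)
      omega
    obtain ⟨t0, ht1, ht2, ht3⟩ := hE2.gap z hz base
    obtain ⟨δ, hδt⟩ : ∃ δ, t0 = base + δ := ⟨t0 - base, by omega⟩
    have hδ : δ ≤ w z := by omega
    rw [hδt] at ht3
    obtain ⟨T', hT'⟩ : ∃ T', T' = Function.update T z (base + δ) := ⟨_, rfl⟩
    obtain ⟨F', hF'⟩ : ∃ F', F' = Function.update F z x := ⟨_, rfl⟩
    obtain ⟨e', he'⟩ : ∃ e', e' = Function.update e z (x - w z + δ) := ⟨_, rfl⟩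
    have t1 : T' z = base + δ := by rw [hT']; exact Function.update_self _ _ _
    have t2 : ∀ k, k ≠ z → T' k = T k := fun k hk => by rw [hT']; exact Function.update_of_ne hk _ _
    have g1 : F' z = x := by rw [hF']; exact Function.update_self _ _ _
    have g2 : ∀ k, k ≠ z → F' k = F k := fun k hk => by rw [hF']; exact Function.update_of_ne hk _ _
    have e1 : e' z = x - w z + δ := by rw [he']; exact Function.update_self _ _ _
    have e2 : ∀ k, k ≠ z → e' k = e k := fun k hk => by rw [he']; exact Function.update_of_ne hk _ _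
    have hcase : ∀ k ∈ P p Js i z, k = z ∨ (k ≠ z ∧ k ∈ P p Js i (z + 1)) := by
      intro k hk
      by_cases h1 : k = z
      · exact Or.inl h1
      · refine Or.inr ⟨h1, ?_⟩
        rw [hmemP]
        unfold P at hk
        rw [mem_filter] at hk
        exact ⟨hk.1, by omega⟩
    have hne : ∀ k ∈ P p Js i (z + 1), k ≠ z := by
      intro k hk h1
      rw [hmemP, h1] at hk
      omega
    have hdiff : ∀ k ∈ P p Js i (z + 1), T k ≠ base + δ := by
      intro k hk h1
      have h2 := (hmemP k).1 hk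
      rcases Nat.lt_or_ge i k with h3 | h3
      · have h4 := f1 k hk h3
        rcases h2.2 with h5 | h5
        · have h6 := hc.al k hk
          rw [h1] at h6
          exact hE2.dis z hz k h2.1 (by omega) (by omega) _ ht3 h6
        · have := f4 k h2.1 h5.1 h4
          omega
      · have := f5 k hk h3
        omega
    have hno : no Js w i N F' = no Js w i N F := by
      unfold no
      rw [g2 i (by omega)]
    have hq : ∀ t, (qc p Js i (z + 1) T t).card ≤ (qc p Js i z T' t).card := by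
      intro t
      apply card_le_card
      intro k hk
      unfold qc at hk ⊢
      rw [mem_filter] at hk ⊢
      have h1 := hne k hk.1
      rw [t2 k h1]
      refine ⟨?_, hk.2⟩
      have h2 := (hmemP k).1 hk.1
      unfold P
      rw [mem_filter]
      exact ⟨h2.1, by omega⟩
    refine ⟨T', F', e', ⟨hc.hN, hc.c0, hc.c1, hc.s0, hc.mono, hc.cls, hc.reg, ?_, ?_, ?_, ?_, ?_,
      ?_, ?_⟩, ⟨?_, ?_, ?_⟩⟩
    · intro k hk hki
      rw [e2 k (by omega)]
      exact hc.plan k hk hki
    · intro k hk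
      rcases hcase k hk with h1 | ⟨h1, h2⟩
      · rw [h1, g1]
        apply hx.congr
        intro l _ _ hl
        exact t2 l (by omega)
      · rw [g2 k h1]
        apply (hc.fp k h2).congr
        intro l hl hl1 hl2
        apply t2
        intro h3
        rw [h3] at hl1 hl2
        have h4 := (hmemP k).1 h2
        have h5 := hE2.lifo k h4.1 z hz hl1 hl2
        omega
    · intro k hk
      rcases hcase k hk with h1 | ⟨h1, h2⟩
      · rw [h1, t1]
        exact ht3
      · rw [t2 k h1]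
        exact hc.al k h2
    · intro k hk
      rcases hcase k hk with h1 | ⟨h1, h2⟩
      · rw [h1, g1, e1]
        omega
      · rw [g2 k h1, e2 k h1]
        exact hc.eb k h2
    · intro k hk
      rcases hcase k hk with h1 | ⟨h1, h2⟩
      · rw [h1, t1, e1, hpz, hbase, hA]
        omega
      · rw [t2 k h1, e2 k h1]
        exact hc.tq k h2
    · intro k hk l hl hkl
      rcases hcase k hk with h1 | ⟨h1, h2⟩ <;> rcases hcase l hl with h3 | ⟨h3, h4⟩
      · rw [h1, h3]
      · rw [h1, t1, t2 l h3] at hkl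
        exact absurd hkl.symm (hdiff l h4)
      · rw [h3, t1, t2 k h1] at hkl
        exact absurd hkl (hdiff k h2)
      · rw [t2 k h1, t2 l h3] at hkl
        exact hc.inj k h2 l h4 hkl
    · intro k hk hlt
      rcases hcase k hk with h1 | ⟨h1, h2⟩
      · rw [h1, t1] at hlt
        omega
      · rw [t2 k h1] at hlt ⊢
        exact hc.hole k h2 hlt
    · rw [hno]
      exact h.le
    · intro b
      rw [hno]
      have h1 := h.X b
      have h2 := hq (no Js w i N F)
      omega
    · intro t ht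
      rw [hno] at ht
      have h1 := h.B t ht
      have h2 := hq t
      omega
  · have hPP : P p Js i z = P p Js i (z + 1) := by
      unfold P
      apply filter_congr
      intro k hk
      by_cases h1 : k = z
      · have h2 : p k ≠ i := fun h3 => hzz ⟨h1 ▸ hk, h1 ▸ h3⟩
        omega
      · omega
    refine ⟨T, F, e, ?_, ?_⟩
    · obtain ⟨a1, a2, a3, a4, a5, a6, a7, a8, a9, a10, a11, a12, a13, a14⟩ := hc
      rw [← hPP] at a9 a10 a11 a12 a13 a14
      exact ⟨a1, a2, a3, a4, a5, a6, a7, a8, a9, a10, a11, a12, a13, a14⟩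
    · obtain ⟨a1, a2, a3⟩ := h
      unfold qc at a2 a3
      rw [← hPP] at a2 a3
      exact ⟨a1, a2, a3⟩

theorem plan_all {m : ℕ} (hE2 : Lv3 m p Js w A)
    (hκ : ∀ i, 1 ≤ i → i ≤ m → κ i = !κ (p i)) {i N : ℕ} {c : ℕ → Bool} {s : ℕ → ℕ} :
    ∀ z, (∃ T F e, Core p Js κ w A i z N c s T F e ∧ Inv p Js κ w i z N c T F) →
    ∃ T F e, Core p Js κ w A i 0 N c s T F e ∧ Inv p Js κ w i 0 N c T F := by
  intro z
  induction z with
  | zero => exact id
  | succ z ih =>
    rintro ⟨T, F, e, h1, h2⟩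
    exact ih (plan_one hE2 hκ h1 h2)

theorem all_steps {m : ℕ} (hE2 : Lv3 m p Js w A) (hκ0 : κ 0 = false)
    (hκ : ∀ i, 1 ≤ i → i ≤ m → κ i = !κ (p i)) : ∀ i ≤ m,
    ∃ N c s T F e, Core p Js κ w A i 0 N c s T F e ∧ Inv p Js κ w i 0 N c T F := by
  have hE := hE2.enum
  have h0J : (0 : ℕ) ∉ Js := fun h => by have := (hE.sub 0 h).1; omega
  intro i
  induction i with
  | zero =>
    intro _
    refine ⟨1, fun _ => false, fun _ => 0, plan_all hE2 hκ (m + 1)
      ⟨fun _ => 0, fun _ => 0, fun _ => 0, ?_, ?_⟩⟩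
    · have hP : ∀ k, k ∉ P p Js 0 (m + 1) := by
        intro k hk
        unfold P at hk
        rw [mem_filter] at hk
        have := (hE.sub k hk.1).2
        omega
      refine ⟨rfl, rfl, fun h => by omega, rfl, fun j l h1 h2 => by omega, ?_,
        fun j h1 h2 => by omega, ?_, fun k hk => absurd hk (hP k), fun k hk => absurd hk (hP k),
        fun k hk => absurd hk (hP k), fun k hk => absurd hk (hP k),
        fun k hk => absurd hk (hP k), fun k hk => absurd hk (hP k)⟩
      · intro j hj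
        have : j = 0 := by omega
        rw [this, hκ0]
      · intro k hk hk0
        have := (hE.sub k hk).1
        omega
    · have hno : no Js w 0 1 (fun _ => 0) = 1 := by unfold no; rw [if_neg h0J]
      refine ⟨by rw [hno], ?_, ?_⟩
      · intro b
        have h1 : cn (fun _ => false) b 1 = cn κ b (0 + 1) :=
          cn_congr (fun u hu => by rw [show u = 0 by omega, hκ0]) b
        rw [h1]
        omega
      · intro t ht
        rw [hno] at ht
        omega
  | succ i ih =>
    intro him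
    obtain ⟨N, c, s, T, F, e, hc, h⟩ := ih (by omega)
    by_cases hJ : i + 1 ∈ Js
    · have hi : i ∉ Js := fun h1 => (hE2.nxt i h1).2 hJ
      have h0 := hE.sub _ hJ
      have h1 := hE.lt _ h0.1 h0.2
      have hmem : i + 1 ∈ P p Js i 0 := by
        unfold P
        exact mem_filter.2 ⟨hJ, by omega⟩
      have h2 := h.room hE hc hJ hi (κ (i + 1))
      have h3 := hc.eb _ hmem
      obtain ⟨L, hL⟩ : ∃ L, cn c (κ (i + 1)) N + L =
          cn κ (κ (i + 1)) (i + 1) + e (i + 1) :=
        ⟨cn κ (κ (i + 1)) (i + 1) + e (i + 1) - cn c (κ (i + 1)) N, by omega⟩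
      exact ⟨_, _, _, plan_all hE2 hκ (m + 1) ⟨T, F, e,
        hc.ext hE hκ0 hκ him L (fun h4 => absurd hJ h4) (fun _ => hL),
        h.ext_b hE hc hJ hi L hL⟩⟩
    · have hex : ∃ L, ∀ k ∈ P p Js i 0, T k ≠ no Js w i N F + L := by
        refine ⟨((P p Js i 0).sup T) + 1, fun k hk h1 => ?_⟩
        have h2 : T k ≤ (P p Js i 0).sup T := Finset.le_sup hk
        omega
      classical
      obtain ⟨L, hLe⟩ : ∃ L, L = Nat.find hex := ⟨_, rfl⟩
      have hL1 : ∀ k ∈ P p Js i 0, T k ≠ no Js w i N F + L := by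
        rw [hLe]
        exact Nat.find_spec hex
      have hL2 : ∀ x < L, ∃ k ∈ P p Js i 0, T k = no Js w i N F + x := by
        intro x hx
        rw [hLe] at hx
        have h1 := Nat.find_min hex hx
        push Not at h1
        exact h1
      have hle := h.le
      exact ⟨_, _, _, plan_all hE2 hκ (m + 1) ⟨T, F, e,
        hc.ext hE hκ0 hκ him (no Js w i N F - N + L) (fun _ k hk h4 => hL1 k hk (by omega))
          (fun h4 => absurd h4 hJ),
        h.ext_a hE hκ hc him hJ L hL2⟩⟩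

end st

theorem wrd3 {m : ℕ} {p : ℕ → ℕ} {Js : Finset ℕ} {w : ℕ → ℕ} {A : ℕ → ℕ → Prop} (hm : 1 ≤ m)
    (hE2 : Lv3 m p Js w A) :
    ∃ (M : ℕ) (c : ℕ → Bool) (s : ℕ → ℕ), Good m p Js M c s ∧
      M ≤ m + 2 * ∑ k ∈ Js, (w k + 1) := by
  have hE := hE2.enum
  obtain ⟨κ, hκ0, hκ⟩ := exists_class hE.lt
  obtain ⟨N, c, s, T, F, e, h, hI⟩ := all_steps hE2 hκ0 hκ m le_rfl
  have hmem : ∀ k ∈ Js, k ∈ P p Js m 0 := by
    intro k hk
    have h1 := hE.sub k hk
    have h2 := hE.lt k h1.1 h1.2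
    unfold P
    exact mem_filter.2 ⟨hk, by omega⟩
  have hmJ : m ∉ Js := fun h1 => by
    have := (hE2.nxt m h1).1
    omega
  have hsm : ∀ k ∈ Js, sg c s p k = T k := by
    intro k hk
    have h1 := hE.sub k hk
    have h2 := hE.lt k h1.1 h1.2
    unfold sg
    rw [h.tq k (hmem k hk), h.cls k h1.2, h.cls (p k) (by omega), h.plan k hk h1.2]
  have hlt : ∀ k ∈ Js, T k < N := by
    intro k hk
    have h1 := hE.sub k hk
    have h2 := h.exe hE hκ (hmem k hk) h1.2
    have h3 := h.slt h1.2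
    omega
  refine ⟨s m, c, s, ⟨h.c0, ?_, h.s0, rfl, h.mono, ?_, ?_, ?_, ?_⟩, ?_⟩
  · apply h.c1
    have h1 := h.mono 0 m (by omega) le_rfl
    have h2 := h.hN
    omega
  · intro i hi1 hi2
    have h2 := hE.lt i hi1 hi2
    rw [h.cls i hi2, h.cls (p i) (by omega), hκ i hi1 hi2]
    cases κ (p i) <;> simp
  · intro i hi1 hi2 hiJ t ht1 ht2
    rw [h.cls i hi2]
    exact h.reg i hi1 hi2 hiJ t ht1 ht2
  · intro k hk l hl hkl
    rw [hsm k hk, hsm l hl] at hkl
    exact h.inj k (hmem k hk) l (hmem l hl) hkl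
  · intro k hk
    rw [hsm k hk]
    rcases h.hole k (hmem k hk) (hlt k hk) with ⟨l, h3, h4, h5⟩ | ⟨h3, h4, h5⟩
    · exact Or.inl ⟨l, h3, h5⟩
    · exact Or.inr ⟨h3, h4⟩
  · have hno : no Js w m N F = N := by unfold no; rw [if_neg hmJ]
    have b1 := hI.X false
    have b2 := hI.X true
    rw [hno] at b1 b2
    have b3 := cn_add c false N
    have b4 := cn_add κ false (m + 1)
    rw [show (!false) = true from rfl] at b3 b4
    have b5 : (qc p Js m 0 T N).card = 0 := by
      rw [card_eq_zero]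
      unfold qc
      rw [filter_eq_empty_iff]
      intro k hk h1
      have h2 : k ∈ Js := by
        unfold P at hk
        exact (mem_filter.1 hk).1
      have := (hE.sub k h2).2
      omega
    have b6 : Wt Js w (m + 1) ≤ ∑ k ∈ Js, (w k + 1) := by
      unfold Wt
      exact sum_le_sum_of_subset (filter_subset _ _)
    have b8 := h.hN
    omega

end Pool.Agent.TH368.GD.W3
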