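import Pool.Agent.TH56.CL.Cost
import Pool.Agent.TH56.CL.Enu
import Pool.Agent.TH368.GD.Wrd3

/-!
# The cost of a depth-first order, second version
-/

set_option autoImplicit false

namespace Pool.Agent.TH368.GD.C2

open Finset
open Pool.Agent.TH56.CT (Enum Good)
open Pool.Agent.TH56.CL (Ord Jmp lvl Lvl enu)
open Pool.Agent.TH56.CL.Cst (W W_succ)
open Pool.Agent.TH368.GD.W3 (Lv3)

theorem step {m : ℕ} {p w : ℕ → ℕ} (h : Ord m p w) {Φ f : ℕ → ℕ} (h0 : Φ 0 = 0)
    (hs : ∀ X Y, Φ X + Φ Y ≤ Φ (X + Y))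
    (hj : ∀ a X Y, 1 ≤ a → a ≤ X → a ≤ Y → Φ X + Φ Y + f (Nat.log 2 a) ≤ Φ (X + Y))
    (t : ℕ) (ht : t ≤ m) :
    ∑ k ∈ (Icc 1 t).filter (fun k => k ∈ Jmp m p w), f (lvl p w k) + ∑ k ∈ Icc 1 t, Φ (w k) ≤
      ∑ x ∈ range (m + 1), Φ (W p w t x) := by
  induction t with
  | zero =>
    have h0' : ∀ x, W p w 0 x = 0 := fun x => by unfold W; simp
    simp [h0', h0]
  | succ t ih =>
    have ih := ih (by omega)
    have hpt := h.lt (t + 1) (by omega) ht
    have hx0 : p (t + 1) ∈ range (m + 1) := mem_range.2 (by omega)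
    have e1 : ∑ x ∈ range (m + 1), Φ (W p w (t + 1) x) + Φ (W p w t (p (t + 1))) =
        ∑ x ∈ range (m + 1), Φ (W p w t x) + Φ (W p w t (p (t + 1)) + w (t + 1)) := by
      rw [← add_sum_erase _ _ hx0, ← add_sum_erase _ (fun x => Φ (W p w t x)) hx0]
      have e2 : ∑ x ∈ (range (m + 1)).erase (p (t + 1)), Φ (W p w (t + 1) x) =
          ∑ x ∈ (range (m + 1)).erase (p (t + 1)), Φ (W p w t x) := by
        refine sum_congr rfl fun x hx => ?_
        rw [W_succ, if_neg (Ne.symm (ne_of_mem_erase hx)), add_zero]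
      rw [e2, W_succ, if_pos rfl]
      ring
    rw [sum_Icc_succ_top (by omega), sum_filter, sum_Icc_succ_top (by omega), ← sum_filter]
    by_cases hjm : t + 1 ∈ Jmp m p w
    · rw [if_pos hjm]
      have hj' := hjm
      unfold Jmp at hj'
      rw [mem_filter] at hj'
      obtain ⟨-, -, l, hl⟩ := hj'
      rw [mem_filter] at hl
      have hlm : l ∈ (Ico 1 (t + 1)).filter (fun l => p l = p (t + 1)) :=
        mem_filter.2 ⟨hl.1, hl.2.1⟩
      have ha : 1 ≤ ((Ico 1 (t + 1)).filter (fun l => p l = p (t + 1))).sup w :=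
        hl.2.2.trans (le_sup (f := w) hlm)
      have hX : ((Ico 1 (t + 1)).filter (fun l => p l = p (t + 1))).sup w ≤
          W p w t (p (t + 1)) := by
        apply Finset.sup_le
        intro k hk
        rw [mem_filter, mem_Ico] at hk
        unfold W
        exact single_le_sum (f := w) (fun _ _ => Nat.zero_le _)
          (mem_filter.2 ⟨mem_Icc.2 ⟨hk.1.1, by omega⟩, hk.2⟩)
      have hY : ((Ico 1 (t + 1)).filter (fun l => p l = p (t + 1))).sup w ≤ w (t + 1) := by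
        apply Finset.sup_le
        intro k hk
        rw [mem_filter, mem_Ico] at hk
        exact h.srt k (t + 1) hk.1.1 hk.1.2 ht hk.2
      have hjump := hj _ _ _ ha hX hY
      change _ + f (lvl p w (t + 1)) ≤ _ at hjump
      omega
    · rw [if_neg hjm]
      have := hs (W p w t (p (t + 1))) (w (t + 1))
      omega

theorem cost2 {m : ℕ} {p w : ℕ → ℕ} (h : Ord m p w) {Φ f : ℕ → ℕ} (h0 : Φ 0 = 0)
    (h1 : Φ 1 = 0) (hs : ∀ X Y, Φ X + Φ Y ≤ Φ (X + Y))
    (hj : ∀ a X Y, 1 ≤ a → a ≤ X → a ≤ Y → Φ X + Φ Y + f (Nat.log 2 a) ≤ Φ (X + Y)) :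
    ∑ k ∈ Jmp m p w, f (lvl p w k) ≤ Φ (w 0) := by
  have h2 := step h h0 hs hj m le_rfl
  have e1 : (Icc 1 m).filter (fun k => k ∈ Jmp m p w) = Jmp m p w := by
    ext k
    rw [mem_filter]
    constructor
    · exact fun h => h.2
    · intro hk
      refine ⟨?_, hk⟩
      unfold Jmp at hk
      exact (mem_filter.1 hk).1
  rw [e1] at h2
  have h3 : ∑ x ∈ range (m + 1), Φ (W p w m x) = ∑ x ∈ range (m + 1), Φ (w x) := by
    refine sum_congr rfl fun x hx => ?_
    rw [mem_range] at hx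
    by_cases hc : ∃ k, 1 ≤ k ∧ k ≤ m ∧ p k = x
    · have h4 := h.w1 x (by omega) hc
      change w x = max 1 (W p w m x) at h4
      rcases Nat.eq_zero_or_pos (W p w m x) with h5 | h5
      · rw [h5] at h4 ⊢
        rw [h4, h0]
        simp [h1]
      · have h6 : w x = W p w m x := by omega
        rw [h6]
    · push Not at hc
      have h4 := h.w0 x (by omega) hc
      have h5 : W p w m x = 0 := by
        unfold W
        rw [filter_eq_empty_iff.2, sum_empty]
        intro k hk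
        have := mem_Icc.1 hk
        exact hc k this.1 this.2
      rw [h4, h5]
  have e2 : ∀ G : ℕ → ℕ, ∑ x ∈ range (m + 1), G x = G 0 + ∑ k ∈ Icc 1 m, G k := by
    intro G
    rw [sum_range_succ', add_comm]
    congr 1
    rw [← Finset.Ico_succ_right_eq_Icc, Finset.sum_Ico_eq_sum_range]
    refine sum_congr (by simp) fun k _ => ?_
    rw [add_comm]
  rw [h3, e2 (fun x => Φ (w x))] at h2
  omega

/-- the part of the potential for the higher levels -/
def S : ℕ → ℕ → ℕ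
  | 0, _ => 0
  | K + 1, n => 4 * (n / 4 - 1) + 2 * S K (n / 4)

theorem S_zero (K : ℕ) : S K 0 = 0 := by
  induction K with
  | zero => rfl
  | succ K ih => simp [S, ih]

theorem S_mono (K : ℕ) : ∀ x y, x ≤ y → S K x ≤ S K y := by
  induction K with
  | zero => intro x y _; exact le_rfl
  | succ K ih =>
    intro x y h
    have h1 : x / 4 ≤ y / 4 := Nat.div_le_div_right h
    have h2 := ih _ _ h1
    simp only [S]
    omega

theorem S_add (K : ℕ) : ∀ X Y, S K X + S K Y ≤ S K (X + Y) := by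
  induction K with
  | zero => intro X Y; simp [S]
  | succ K ih =>
    intro X Y
    have h1 := ih (X / 4) (Y / 4)
    have h2 := S_mono K (X / 4 + Y / 4) ((X + Y) / 4) (by omega)
    simp only [S]
    omega

theorem S_jump (K : ℕ) : ∀ ν X Y, ν ≤ K → 4 ^ ν ≤ X → 4 ^ ν ≤ Y →
    S K X + S K Y + 4 * 2 ^ ν ≤ S K (X + Y) + 4 := by
  induction K with
  | zero =>
    intro ν X Y h _ _
    have : ν = 0 := by omega
    rw [this]
    simp [S]
  | succ K ih =>
    intro ν X Y h hX hY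
    rcases Nat.eq_zero_or_pos ν with h0 | h0
    · have := S_add (K + 1) X Y
      rw [h0]
      omega
    · obtain ⟨μ, rfl⟩ : ∃ μ, ν = μ + 1 := ⟨ν - 1, by omega⟩
      rw [pow_succ] at hX hY
      have h1 : 1 ≤ 4 ^ μ := Nat.one_le_pow _ _ (by norm_num)
      have h2 := ih μ (X / 4) (Y / 4) (by omega) (by omega) (by omega)
      have h3 := S_mono K (X / 4 + Y / 4) ((X + Y) / 4) (by omega)
      have h4 : 2 ^ (μ + 1) = 2 * 2 ^ μ := by rw [pow_succ]; ring
      rw [h4]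
      simp only [S]
      omega

theorem S_le (K : ℕ) : ∀ n, S K n ≤ 2 * (n - 1) := by
  induction K with
  | zero => intro n; simp [S]
  | succ K ih =>
    intro n
    have h1 := ih (n / 4)
    simp only [S]
    omega

/-- the sum of the gaps -/
theorem cost_lin {m : ℕ} {p w : ℕ → ℕ} (h : Ord m p w) :
    ∑ k ∈ Jmp m p w, 4 * 2 ^ (lvl p w k / 2) ≤ 6 * (w 0 - 1) := by
  obtain ⟨K, hK⟩ : ∃ K, K = (Jmp m p w).sup (lvl p w) := ⟨_, rfl⟩
  have h1 : ∑ k ∈ Jmp m p w, 4 * 2 ^ (lvl p w k / 2) =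
      ∑ k ∈ Jmp m p w, (fun a => 4 * 2 ^ min (a / 2) K) (lvl p w k) := by
    refine sum_congr rfl fun k hk => ?_
    have h2 : lvl p w k ≤ K := by
      rw [hK]
      exact Finset.le_sup (f := lvl p w) hk
    have h3 : min (lvl p w k / 2) K = lvl p w k / 2 := by omega
    simp only [h3]
  rw [h1]
  refine le_trans (cost2 h (Φ := fun n => 4 * (n - 1) + S K n)
    (f := fun a => 4 * 2 ^ min (a / 2) K) ?_ ?_ ?_ ?_) ?_
  · simp [S_zero]
  · have := S_le K 1
    simp at this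
    simp [this]
  · intro X Y
    have := S_add K X Y
    show 4 * (X - 1) + S K X + (4 * (Y - 1) + S K Y) ≤ 4 * (X + Y - 1) + S K (X + Y)
    omega
  · intro a X Y ha hX hY
    have h2 : 4 ^ min (Nat.log 2 a / 2) K ≤ a := by
      have h3 : (4 : ℕ) ^ min (Nat.log 2 a / 2) K ≤ 4 ^ (Nat.log 2 a / 2) :=
        Nat.pow_le_pow_right (by norm_num) (min_le_left _ _)
      have h4 : (4 : ℕ) ^ (Nat.log 2 a / 2) = 2 ^ (2 * (Nat.log 2 a / 2)) := by
        rw [pow_mul]; norm_num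
      have h5 : (2 : ℕ) ^ (2 * (Nat.log 2 a / 2)) ≤ 2 ^ Nat.log 2 a :=
        Nat.pow_le_pow_right (by norm_num) (by omega)
      have h6 := Nat.pow_log_le_self 2 (show a ≠ 0 by omega)
      omega
    have h3 := S_jump K (min (Nat.log 2 a / 2) K) X Y (min_le_right _ _) (h2.trans hX)
      (h2.trans hY)
    show 4 * (X - 1) + S K X + (4 * (Y - 1) + S K Y) + 4 * 2 ^ min (Nat.log 2 a / 2) K ≤
      4 * (X + Y - 1) + S K (X + Y)
    omega
  · have := S_le K (w 0)
    show 4 * (w 0 - 1) + S K (w 0) ≤ 6 * (w 0 - 1)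
    omega

/-- the special numbers of level `a` -/
def R (a t : ℕ) : Prop := ∃ z, t = 2 ^ (a / 2) * (4 * z + 1 + 2 * (a % 2))

theorem pow_odd : ∀ (i j z z' : ℕ), 2 ^ i * (1 + 2 * z) = 2 ^ j * (1 + 2 * z') → i = j := by
  intro i
  induction i with
  | zero =>
    intro j z z' h
    rcases Nat.eq_zero_or_pos j with h0 | h0
    · exact h0.symm
    · obtain ⟨l, rfl⟩ : ∃ l, j = l + 1 := ⟨j - 1, by omega⟩
      rw [pow_zero, one_mul, pow_succ] at h
      have : 2 ^ l * 2 * (1 + 2 * z') = 2 * (2 ^ l * (1 + 2 * z')) := by ring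
      rw [this] at h
      omega
  | succ i ih =>
    intro j z z' h
    rcases Nat.eq_zero_or_pos j with h0 | h0
    · rw [h0, pow_zero, one_mul, pow_succ] at h
      have : 2 ^ i * 2 * (1 + 2 * z) = 2 * (2 ^ i * (1 + 2 * z)) := by ring
      rw [this] at h
      omega
    · obtain ⟨l, rfl⟩ : ∃ l, j = l + 1 := ⟨j - 1, by omega⟩
      rw [pow_succ, pow_succ] at h
      have e1 : 2 ^ i * 2 * (1 + 2 * z) = 2 * (2 ^ i * (1 + 2 * z)) := by ring
      have e2 : 2 ^ l * 2 * (1 + 2 * z') = 2 * (2 ^ l * (1 + 2 * z')) := by ring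
      rw [e1, e2] at h
      have := ih l z z' (by omega)
      omega

theorem R_disj {a b t : ℕ} (ha : R a t) (hb : R b t) : a = b := by
  obtain ⟨z, hz⟩ := ha
  obtain ⟨z', hz'⟩ := hb
  have h1 : 2 ^ (a / 2) * (1 + 2 * (2 * z + a % 2)) = 2 ^ (b / 2) * (1 + 2 * (2 * z' + b % 2)) := by
    rw [show 1 + 2 * (2 * z + a % 2) = 4 * z + 1 + 2 * (a % 2) by ring,
      show 1 + 2 * (2 * z' + b % 2) = 4 * z' + 1 + 2 * (b % 2) by ring, ← hz, ← hz']
  have h2 := pow_odd _ _ _ _ h1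
  rw [h2] at h1
  have h3 : 0 < 2 ^ (b / 2) := by positivity
  have h4 := Nat.eq_of_mul_eq_mul_left h3 h1
  omega

theorem R_gap (a N : ℕ) : ∃ t, N ≤ t ∧ t ≤ N + (4 * 2 ^ (a / 2) - 1) ∧ R a t := by
  obtain ⟨P, hP⟩ : ∃ P, P = 2 ^ (a / 2) := ⟨_, rfl⟩
  have hP1 : 1 ≤ P := by rw [hP]; exact Nat.one_le_pow _ _ (by norm_num)
  obtain ⟨c, hc⟩ : ∃ c, c = P * (1 + 2 * (a % 2)) := ⟨_, rfl⟩
  have hc3 : c ≤ 3 * P := by
    rw [hc, mul_comm 3 P]
    exact Nat.mul_le_mul_left _ (by omega)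
  obtain ⟨z, hz⟩ : ∃ z, z = (N - c + (4 * P - 1)) / (4 * P) := ⟨_, rfl⟩
  have h1 := Nat.div_add_mod (N - c + (4 * P - 1)) (4 * P)
  have h2 := Nat.mod_lt (N - c + (4 * P - 1)) (show 0 < 4 * P by omega)
  rw [← hz] at h1
  refine ⟨4 * P * z + c, by omega, ?_, z, ?_⟩
  · rw [← hP]
    rcases Nat.lt_or_ge N c with h3 | h3
    · have h4 : z = 0 := by
        rw [hz, show N - c = 0 by omega, Nat.zero_add]
        exact Nat.div_eq_of_lt (by omega)
      rw [h4]
      omega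
    · omega
  · rw [← hP, hc]
    ring

/-- the first child of a jump is not a jump -/
theorem nxt {m : ℕ} {p w : ℕ → ℕ} (h : Ord m p w) {k : ℕ} (hk : k ∈ Jmp m p w) :
    k + 1 ≤ m ∧ k + 1 ∉ Jmp m p w := by
  have hk' := hk
  unfold Jmp at hk'
  rw [mem_filter, mem_Icc] at hk'
  obtain ⟨⟨h1, h2⟩, h3, -⟩ := hk'
  obtain ⟨j, hj1, hj2, hj3⟩ : ∃ j, 1 ≤ j ∧ j ≤ m ∧ p j = k := by
    by_contra hcon
    push Not at hcon
    have := h.w0 k h2 hcon
    omega
  have hj4 := h.lt j hj1 hj2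
  have hp : p (k + 1) = k := by
    rcases Nat.lt_or_ge (k + 1) j with h4 | h4
    · have h5 := h.lam j hj1 hj2 (k + 1) (by omega) h4
      have h6 := h.lt (k + 1) (by omega) (by omega)
      omega
    · have : j = k + 1 := by omega
      rw [← this, hj3]
  refine ⟨by omega, fun hcon => ?_⟩
  unfold Jmp at hcon
  rw [mem_filter] at hcon
  obtain ⟨-, -, l, hl⟩ := hcon
  rw [mem_filter, mem_Ico, hp] at hl
  have h5 := h.lt l hl.1.1 (by omega)
  omega

theorem lv3 {m : ℕ} {p w : ℕ → ℕ} (h : Ord m p w) : Lv3 m p (Jmp m p w)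
    (fun k => 4 * 2 ^ (lvl p w k / 2) - 1) (fun k t => R (lvl p w k) t) := by
  obtain ⟨hE, hL⟩ := enu m p w h
  refine ⟨hE, fun k hk => nxt h hk, fun k hk l hl h1 h2 => hL.lam l hl k hk h1 h2,
    fun k _ N => R_gap _ N, ?_⟩
  intro k hk l hl h1 h2 t ht1 ht2
  have h3 := hL.lev l hl k hk h1 h2
  have h4 := R_disj ht1 ht2
  omega

end Pool.Agent.TH368.GD.C2
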