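import Pool.Agent.TH368.GD.Defs

/-!
# Graceful supertrees, depth first version: statements for lobsters and for trees whose branching
vertices lie on a path
-/

set_option autoImplicit false

namespace Pool.Agent.TH368.GD

open Pool.Agent.TH56.CT (Enum Good)

/-- if `a < b` are siblings with children then the children of `a` have no children -/
def Lob (m : ℕ) (p : ℕ → ℕ) : Prop :=
  ∀ a b, 1 ≤ a → a < b → b ≤ m → p a = p b → NL m p a → NL m p b →
    ∀ x, 1 ≤ x → x ≤ m → p x = a → ¬ NL m p x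

/-- the steps for lobsters: one additional vertex for every jump -/
def WrdLobStm : Prop := ∀ (m : ℕ) (p : ℕ → ℕ) (Js : Finset ℕ), 1 ≤ m → Enum m p Js →
  (∀ i j, 1 ≤ i → i < j → j ≤ m → p j < i → p j ≤ p i) →
  (∀ k, k ∈ Js ↔ 1 ≤ k ∧ k ≤ m ∧ NL m p k ∧ ∃ a, 1 ≤ a ∧ a < k ∧ p a = p k ∧ NL m p a) →
  Lob m p →
  ∃ (M : ℕ) (c : ℕ → Bool) (s : ℕ → ℕ), Good m p Js M c s ∧ M ≤ m + Js.card

/-- lobsters have depth first enumerations in which at most the last child with children has
grandchildren; a lobster is a tree with a path such that every vertex is at distance at most `2`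
from this path -/
def LobStm : Prop := ∀ (V : Type) [Fintype V] (T : SimpleGraph V), T.IsTree → (DL T).Nonempty →
  (∃ (x y : V) (q : T.Walk x y), q.IsPath ∧ ∀ z, ∃ u ∈ q.support, T.dist u z ≤ 2) →
  ∃ r ∈ DL T, ∃ key : V → ℕ, ∀ (v : ℕ → V) (p : ℕ → ℕ) (Js : Finset ℕ),
    Dfs T r key T.edgeSet.ncard v p Js → Lob T.edgeSet.ncard p

/-- the vertices with at least three neighbours which are not leaves -/
def Br {V : Type} (T : SimpleGraph V) : Set V :=
  {x : V | 3 ≤ {y : V | T.Adj x y ∧ 2 ≤ (T.neighborSet y).ncard}.ncard}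

/-- if the vertices with at least three neighbours which are not leaves lie on a path then there is
a certificate with maximum `1` -/
def PathStm : Prop := ∀ (V : Type) [Fintype V] (T : SimpleGraph V), T.IsTree → (DL T).Nonempty →
  (∃ (x y : V) (q : T.Walk x y), q.IsPath ∧ ∀ z ∈ Br T, z ∈ q.support) →
  ∃ r ∈ DL T, ∃ key : V → ℕ, ∀ (v : ℕ → V) (p : ℕ → ℕ) (Js : Finset ℕ),
    Dfs T r key T.edgeSet.ncard v p Js →
    Cert T.edgeSet.ncard p Js (fun a => key (v a)) 1

end Pool.Agent.TH368.GD
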