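import Pool.Agent.TH368.GD.Defs
import Pool.Agent.H115R2.Assemble

/-!
# Graceful supertrees: the logarithm of the number of leaves of the derived tree is a certificate
-/

set_option autoImplicit false

namespace Pool.Agent.TH368.GD

open Pool.Agent.TH56.CT (Enum Good)
open Pool.Agent.H115R2 (Root exists_root)

namespace LogK

/-- `x` is below `u` -/
inductive Bel {V : Type} (r : V) (par : V → V) (u : V) : V → Prop
  | refl : Bel r par u u
  | step (x : V) : x ≠ r → Bel r par u (par x) → Bel r par u x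

section bel

variable {V : Type} {r : V} {par : V → V}

theorem Bel.root {u : V} (h : Bel r par u r) : u = r := by
  cases h with
  | refl => rfl
  | step _ h1 _ => exact absurd rfl h1

theorem Bel.trans {u w x : V} (h1 : Bel r par u w) (h2 : Bel r par w x) : Bel r par u x := by
  induction h2 with
  | refl => exact h1
  | step x hx _ ih => exact Bel.step x hx ih

theorem Bel.chain {u w x : V} (h1 : Bel r par u x) (h2 : Bel r par w x) :
    Bel r par u w ∨ Bel r par w u := by
  induction h1 with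
  | refl => exact Or.inr h2
  | step x hx h ih =>
    cases h2 with
    | refl => exact Or.inl (Bel.step _ hx h)
    | step _ _ h3 => exact ih h3

theorem Bel.dist {T : SimpleGraph V} (hr : Root T r par) {u x : V} (h : Bel r par u x) :
    T.dist r u ≤ T.dist r x := by
  induction h with
  | refl => exact le_rfl
  | step x hx _ ih =>
    have := hr.dist x hx
    omega

/-- siblings have disjoint sets of descendants -/
theorem Bel.disj {T : SimpleGraph V} (hr : Root T r par) {u w x : V} (hu : u ≠ r) (hw : w ≠ r)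
    (hne : u ≠ w) (hp : par u = par w) (h1 : Bel r par u x) (h2 : Bel r par w x) : False := by
  have key : ∀ u w : V, u ≠ r → w ≠ r → u ≠ w → par u = par w → Bel r par u w → False := by
    intro u w hu _ hne hp h
    cases h with
    | refl => exact hne rfl
    | step _ _ h3 =>
      rw [← hp] at h3
      have h4 := h3.dist hr
      have h5 := hr.dist u hu
      omega
  rcases h1.chain h2 with h | h
  · exact key u w hu hw hne hp h
  · exact key w u hw hu (Ne.symm hne) hp.symm h

end bel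

/-- `a` is an ancestor of `x` in the enumeration -/
inductive Anc (m : ℕ) (p : ℕ → ℕ) (a : ℕ) : ℕ → Prop
  | refl : Anc m p a a
  | step (x : ℕ) : 1 ≤ x → x ≤ m → Anc m p a (p x) → Anc m p a x

section anc

variable {m : ℕ} {p : ℕ → ℕ} {Js : Finset ℕ}

theorem Anc.trans {u w x : ℕ} (h1 : Anc m p u w) (h2 : Anc m p w x) : Anc m p u x := by
  induction h2 with
  | refl => exact h1
  | step x hx hx' _ ih => exact Anc.step x hx hx' ih

theorem Anc.le (hE : Enum m p Js) {a x : ℕ} (h : Anc m p a x) : a ≤ x := by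
  induction h with
  | refl => exact le_rfl
  | step x hx hx' _ ih =>
    have := hE.lt x hx hx'
    omega

theorem Anc.up {a x : ℕ} (h : Anc m p a x) (hne : a ≠ x) :
    1 ≤ x ∧ x ≤ m ∧ Anc m p a (p x) := by
  cases h with
  | refl => exact absurd rfl hne
  | step _ h1 h2 h3 => exact ⟨h1, h2, h3⟩

/-- a proper descendant is below a child -/
theorem Anc.child {a x : ℕ} (h : Anc m p a x) :
    a = x ∨ ∃ b, 1 ≤ b ∧ b ≤ m ∧ p b = a ∧ Anc m p b x := by
  induction h with
  | refl => exact Or.inl rfl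
  | step x hx hx' h ih =>
    right
    rcases ih with h1 | ⟨b, hb1, hb2, hb3, hb4⟩
    · exact ⟨x, hx, hx', h1.symm, Anc.refl⟩
    · exact ⟨b, hb1, hb2, hb3, Anc.step x hx hx' hb4⟩

/-- an ancestor of a vertex with a child has a child -/
theorem Anc.nl {a x : ℕ} (h : Anc m p a x) (hx : NL m p x) : NL m p a := by
  rcases h.child with h1 | ⟨b, hb1, hb2, hb3, -⟩
  · rw [h1]
    exact hx
  · exact ⟨b, hb1, hb2, hb3⟩

/-- the descendants form an interval -/
theorem inter (hE : Enum m p Js)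
    (hd : ∀ i j, 1 ≤ i → i < j → j ≤ m → p j < i → p j ≤ p i) {a x : ℕ} (hx1 : 1 ≤ x)
    (hax : a < x) : ∀ y, x ≤ y → Anc m p a y → a ≤ p x := by
  intro y
  induction y using Nat.strong_induction_on with
  | _ y ih =>
    intro hxy h
    obtain ⟨h1, h2, h3⟩ := h.up (by omega)
    have h4 := h3.le hE
    have h5 := hE.lt y h1 h2
    rcases Nat.lt_or_ge (p y) x with h6 | h6
    · rcases Nat.eq_or_lt_of_le hxy with h7 | h7
      · rw [h7]
        exact h4
      · have := hd x y hx1 h7 h2 h6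
        omega
    · exact ih (p y) h5 h6 h3

/-- the indices between a parent and a child are descendants -/
theorem betw (hE : Enum m p Js)
    (hd : ∀ i j, 1 ≤ i → i < j → j ≤ m → p j < i → p j ≤ p i) {y : ℕ} (hy : y ≤ m) :
    ∀ x, p y < x → x < y → Anc m p (p y) x := by
  intro x
  induction x using Nat.strong_induction_on with
  | _ x ih =>
    intro h1 h2
    have h3 := hd x y (by omega) h2 hy h1
    have h4 := hE.lt x (by omega) (by omega)
    refine Anc.step x (by omega) (by omega) ?_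
    rcases Nat.eq_or_lt_of_le h3 with h5 | h5
    · rw [← h5]
      exact Anc.refl
    · exact ih (p x) h4 h5 (by omega)

/-- there is a jump in the subtree of `a` if there are two vertices with children but without
grandchildren in it -/
theorem jump (hE : Enum m p Js)
    (hd : ∀ i j, 1 ≤ i → i < j → j ≤ m → p j < i → p j ≤ p i)
    (hj : ∀ k, k ∈ Js ↔ 1 ≤ k ∧ k ≤ m ∧ NL m p k ∧ ∃ a, 1 ≤ a ∧ a < k ∧ p a = p k ∧ NL m p a)
    {a x1 x2 : ℕ} (hx : x1 < x2) (hx2 : x2 ≤ m)
    (h1 : Anc m p a x1) (h2 : Anc m p a x2) (hN1 : NL m p x1) (hN2 : NL m p x2)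
    (hG : ∀ j, 1 ≤ j → j ≤ m → p j = x1 → ¬ NL m p j) :
    ∃ j ∈ Js, a < j ∧ ∀ x, a < x → x ≤ j → a ≤ p x := by
  classical
  have hex : ∃ z, x1 < z ∧ z ≤ x2 ∧ NL m p z := ⟨x2, hx, le_rfl, hN2⟩
  obtain ⟨hz1, hz2, hz3⟩ := Nat.find_spec hex
  have hmin : ∀ y, y < Nat.find hex → ¬ (x1 < y ∧ y ≤ x2 ∧ NL m p y) :=
    fun y hy => Nat.find_min hex hy
  generalize Nat.find hex = z at hz1 hz2 hz3 hmin
  have ha1 := h1.le hE
  have hpz : p z < z := hE.lt z (by omega) (by omega)
  have hnpz : NL m p (p z) := ⟨z, by omega, by omega, rfl⟩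
  have hne : p z ≠ x1 := fun h => hG z (by omega) (by omega) h hz3
  have hle : p z < x1 := by
    by_contra hcon
    exact hmin (p z) hpz ⟨by omega, by omega, hnpz⟩
  have hanc := betw hE hd (y := z) (by omega) x1 hle hz1
  rcases hanc.child with h3 | ⟨b, hb1, hb2, hb3, hb4⟩
  · exact absurd h3 hne
  · have hb5 := hb4.le hE
    refine ⟨z, (hj z).2 ⟨by omega, by omega, hz3, b, hb1, by omega, hb3, hb4.nl hN1⟩, by omega, ?_⟩
    intro x hx3 hx4
    exact inter hE hd (by omega) hx3 x2 (by omega) h2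

/-- below every vertex with a child there is one without grandchildren -/
theorem bottom (hE : Enum m p Js) : ∀ (n a : ℕ), m - a ≤ n → NL m p a →
    ∃ x, Anc m p a x ∧ NL m p x ∧ ∀ j, 1 ≤ j → j ≤ m → p j = x → ¬ NL m p j := by
  intro n
  induction n with
  | zero =>
    intro a ha hN
    obtain ⟨j, hj1, hj2, hj3⟩ := hN
    have := hE.lt j hj1 hj2
    omega
  | succ n ih =>
    intro a ha hN
    by_cases h : ∀ j, 1 ≤ j → j ≤ m → p j = a → ¬ NL m p j
    · exact ⟨a, Anc.refl, hN, h⟩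
    · push Not at h
      obtain ⟨j, hj1, hj2, hj3, hj4⟩ := h
      have h5 := hE.lt j hj1 hj2
      obtain ⟨x, hx1, hx2, hx3⟩ := ih j (by omega) hj4
      refine ⟨x, Anc.trans ?_ hx1, hx2, hx3⟩
      refine Anc.step j hj1 hj2 ?_
      rw [hj3]
      exact Anc.refl

end anc

section main

variable {V : Type} [Fintype V] {T : SimpleGraph V} {r : V} {par : V → V} {key : V → ℕ} {m : ℕ}
  {v : ℕ → V} {p : ℕ → ℕ} {Js : Finset ℕ}

/-- the number of vertices of `DL T` below `u` -/
noncomputable def K (T : SimpleGraph V) (r : V) (par : V → V) (u : V) : ℕ :=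
  {x : V | x ∈ DL T ∧ Bel r par u x}.ncard

omit [Fintype V] in
theorem v_ne (D : Dfs T r key m v p Js) {i : ℕ} (h1 : 1 ≤ i) (h2 : i ≤ m) : v i ≠ r := by
  intro h
  have := D.inj i 0 h2 (by omega) (by rw [h, D.zero])
  omega

omit [Fintype V] in
theorem adj_p (D : Dfs T r key m v p Js) {i : ℕ} (h1 : 1 ≤ i) (h2 : i ≤ m) :
    T.Adj (v i) (v (p i)) := (D.adj _ _).2 ⟨i, h1, h2, Or.inl ⟨rfl, rfl⟩⟩

omit [Fintype V] in
theorem par_v (hr : Root T r par) (D : Dfs T r key m v p Js) :
    ∀ i, 1 ≤ i → i ≤ m → par (v i) = v (p i) := by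
  intro i
  induction i using Nat.strong_induction_on with
  | _ i ih =>
    intro h1 h2
    have h3 := D.enum.lt i h1 h2
    rcases hr.cov _ _ (adj_p D h1 h2) with ⟨-, h4⟩ | ⟨h4, h5⟩
    · exact h4
    · exfalso
      have h6 : 1 ≤ p i := by
        by_contra hcon
        apply h4
        rw [show p i = 0 by omega, D.zero]
      have h7 := ih (p i) h3 h6 (by omega)
      rw [h5] at h7
      have h8 := D.enum.lt (p i) h6 (by omega)
      have h9 := D.inj _ _ h2 (by omega) h7
      omega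

omit [Fintype V] in
theorem bel_of_anc (hr : Root T r par) (D : Dfs T r key m v p Js) {a x : ℕ}
    (h : Anc m p a x) : Bel r par (v a) (v x) := by
  induction h with
  | refl => exact Bel.refl
  | step x hx hx' _ ih =>
    refine Bel.step _ (v_ne D hx hx') ?_
    rw [par_v hr D x hx hx']
    exact ih

omit [Fintype V] in
theorem anc_of_bel (hr : Root T r par) (D : Dfs T r key m v p Js) {a : ℕ} (ha : a ≤ m) {y : V}
    (h : Bel r par (v a) y) : ∀ x ≤ m, v x = y → Anc m p a x := by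
  induction h with
  | refl =>
    intro x hx h
    rw [D.inj x a hx ha h]
    exact Anc.refl
  | step y hy _ ih =>
    intro x hx h
    have hx1 : 1 ≤ x := by
      by_contra hcon
      apply hy
      rw [← h, show x = 0 by omega, D.zero]
    have h2 := D.enum.lt x hx1 hx
    refine Anc.step x hx1 hx (ih (p x) (by omega) ?_)
    rw [← h, par_v hr D x hx1 hx]

theorem deg (D : Dfs T r key m v p Js) {x : ℕ} (h1 : 1 ≤ x) (h2 : x ≤ m) :
    2 ≤ (T.neighborSet (v x)).ncard ↔ NL m p x := by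
  have h3 := D.enum.lt x h1 h2
  constructor
  · intro h
    obtain ⟨y1, y2, hy1, hy2, hne⟩ := (Set.one_lt_ncard_iff (Set.toFinite _)).1 h
    rw [SimpleGraph.mem_neighborSet] at hy1 hy2
    have aux : ∀ y, T.Adj (v x) y → y = v (p x) ∨ NL m p x := by
      intro y hy
      obtain ⟨i, hi1, hi2, h4⟩ := (D.adj _ _).1 hy
      have h6 := D.enum.lt i hi1 hi2
      rcases h4 with ⟨h5, h7⟩ | ⟨h5, h7⟩
      · left
        rw [← h7, D.inj i x hi2 h2 h5]
      · right
        exact ⟨i, hi1, hi2, D.inj _ _ (by omega) h2 h7⟩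
    rcases aux y1 hy1 with h4 | h4
    · rcases aux y2 hy2 with h5 | h5
      · exact absurd (h4.trans h5.symm) hne
      · exact h5
    · exact h4
  · rintro ⟨j, hj1, hj2, hj3⟩
    have h4 := D.enum.lt j hj1 hj2
    refine (Set.one_lt_ncard_iff (Set.toFinite _)).2 ⟨v (p x), v j, ?_, ?_, ?_⟩
    · exact adj_p D h1 h2
    · have := adj_p D hj1 hj2
      rw [hj3] at this
      exact this.symm
    · intro h
      have := D.inj _ _ (by omega) hj2 h
      omega

theorem degp (hrD : r ∈ DL T) (D : Dfs T r key m v p Js) {x : ℕ} (h1 : 1 ≤ x) (h2 : x ≤ m) :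
    2 ≤ (T.neighborSet (v (p x))).ncard := by
  have h3 := D.enum.lt x h1 h2
  rcases Nat.eq_zero_or_pos (p x) with h | h
  · rw [h, D.zero]
    exact hrD.1
  · exact (deg D h (by omega)).2 ⟨x, h1, h2, rfl⟩

theorem mem_DL (hrD : r ∈ DL T) (D : Dfs T r key m v p Js) {x : ℕ} (h1 : 1 ≤ x) (h2 : x ≤ m) :
    v x ∈ DL T ↔ NL m p x ∧ ∀ j, 1 ≤ j → j ≤ m → p j = x → ¬ NL m p j := by
  have h3 := D.enum.lt x h1 h2
  constructor
  · rintro ⟨h4, h5⟩
    refine ⟨(deg D h1 h2).1 h4, ?_⟩
    intro j hj1 hj2 hj3 hj4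
    have h6 := D.enum.lt j hj1 hj2
    have h7 := (Set.ncard_le_one (Set.toFinite _)).1 h5 (v (p x)) ⟨adj_p D h1 h2, degp hrD D h1 h2⟩
      (v j) ⟨by
        have := adj_p D hj1 hj2
        rw [hj3] at this
        exact this.symm, (deg D hj1 hj2).2 hj4⟩
    have := D.inj _ _ (by omega) hj2 h7
    omega
  · rintro ⟨h4, h5⟩
    refine ⟨(deg D h1 h2).2 h4, ?_⟩
    have aux : ∀ y ∈ {y : V | T.Adj (v x) y ∧ 2 ≤ (T.neighborSet y).ncard}, y = v (p x) := by
      rintro y ⟨hy1, hy2⟩
      obtain ⟨i, hi1, hi2, h6⟩ := (D.adj _ _).1 hy1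
      have h7 := D.enum.lt i hi1 hi2
      rcases h6 with ⟨h8, h9⟩ | ⟨h8, h9⟩
      · rw [← h9, D.inj i x hi2 h2 h8]
      · exfalso
        rw [← h8] at hy2
        exact h5 i hi1 hi2 (D.inj _ _ (by omega) h2 h9) ((deg D hi1 hi2).1 hy2)
    refine (Set.ncard_le_one (Set.toFinite _)).2 ?_
    intro a ha b hb
    rw [aux a ha, aux b hb]

theorem K_ne (hr : Root T r par) (hrD : r ∈ DL T) (D : Dfs T r key m v p Js) {a : ℕ}
    (h1 : 1 ≤ a) (hN : NL m p a) : K T r par (v a) ≠ 0 := by
  obtain ⟨x, hx1, hx2, hx3⟩ := bottom D.enum _ a le_rfl hN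
  have h3 := hx1.le D.enum
  have hxm : x ≤ m := by
    obtain ⟨j, hj1, hj2, hj3⟩ := hx2
    have := D.enum.lt j hj1 hj2
    omega
  have h4 : v x ∈ {x : V | x ∈ DL T ∧ Bel r par (v a) x} :=
    ⟨(mem_DL hrD D (by omega) hxm).2 ⟨hx2, hx3⟩, bel_of_anc hr D hx1⟩
  exact Set.ncard_ne_zero_of_mem h4 (Set.toFinite _)

theorem K_mono {u w : V} (h : Bel r par w u) : K T r par u ≤ K T r par w :=
  Set.ncard_le_ncard (fun _ hx => ⟨hx.1, h.trans hx.2⟩) (Set.toFinite _)

theorem K_add (hr : Root T r par) {u w : V} (hu : u ≠ r) (hw : w ≠ r)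
    (hne : u ≠ w) (hp : par u = par w) :
    K T r par u + K T r par w ≤ K T r par (par u) := by
  unfold K
  rw [← Set.ncard_union_eq _ (Set.toFinite _) (Set.toFinite _)]
  · apply Set.ncard_le_ncard _ (Set.toFinite _)
    rintro x (⟨hx1, hx2⟩ | ⟨hx1, hx2⟩)
    · exact ⟨hx1, (Bel.step u hu Bel.refl).trans hx2⟩
    · rw [hp]
      exact ⟨hx1, (Bel.step w hw Bel.refl).trans hx2⟩
  · rw [Set.disjoint_left]
    rintro x ⟨-, hx1⟩ ⟨-, hx2⟩
    exact Bel.disj hr hu hw hne hp hx1 hx2

theorem K_le (hrD : r ∈ DL T) {u : V} (hu : u ≠ r) : K T r par u ≤ (DL T).ncard - 1 := by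
  rw [← Set.ncard_sdiff_singleton_of_mem hrD]
  apply Set.ncard_le_ncard _ (Set.toFinite _)
  rintro x ⟨hx1, hx2⟩
  refine ⟨hx1, ?_⟩
  rintro rfl
  exact hu hx2.root

theorem cert (hr : Root T r par) (hrD : r ∈ DL T)
    (D : Dfs T r (fun u => Nat.log 2 (K T r par u)) m v p Js) :
    Cert m p Js (fun a => Nat.log 2 (K T r par (v a))) (Nat.log 2 ((DL T).ncard - 1)) where
  sib := by
    intro a b ha hab hb hp hNa hNb
    have h1 : Nat.log 2 (K T r par (v a)) ≤ Nat.log 2 (K T r par (v b)) :=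
      D.srt a b ha hab hb hp hNa hNb
    have h2 := K_ne hr hrD D ha hNa
    have h3 := K_ne hr hrD D (by omega) hNb
    have h4 := K_add (T := T) hr (u := v a) (w := v b) (v_ne D ha (by omega))
      (v_ne D (by omega) hb) (fun h => by
        have := D.inj _ _ (by omega) hb h
        omega) (by rw [par_v hr D a ha (by omega), par_v hr D b (by omega) hb, hp])
    rw [par_v hr D a ha (by omega)] at h4
    have h5 := Nat.pow_log_le_self 2 h2
    have h6 := Nat.pow_log_le_self 2 h3
    have h7 : 2 ^ Nat.log 2 (K T r par (v a)) ≤ 2 ^ Nat.log 2 (K T r par (v b)) :=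
      Nat.pow_le_pow_right (by norm_num) h1
    show Nat.log 2 (K T r par (v a)) < Nat.log 2 (K T r par (v (p a)))
    have h8 : 2 ^ (Nat.log 2 (K T r par (v a)) + 1) ≤ K T r par (v (p a)) := by
      rw [pow_succ]
      omega
    exact Nat.le_log_of_pow_le (by norm_num) h8
  par := by
    intro a ha1 ha2 _
    apply Nat.log_mono_right
    apply K_mono
    rw [← par_v hr D a ha1 ha2]
    exact Bel.step _ (v_ne D ha1 ha2) Bel.refl
  pos := by
    intro a ha1 ha2 h
    have h1 : 1 < K T r par (v a) := by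
      by_contra hcon
      have h2 : Nat.log 2 (K T r par (v a)) = 0 := Nat.log_of_lt (by omega)
      have h3 : 1 ≤ Nat.log 2 (K T r par (v a)) := h
      omega
    obtain ⟨y1, y2, ⟨hy1, hy1'⟩, ⟨hy2, hy2'⟩, hne⟩ :=
      (Set.one_lt_ncard_iff (Set.toFinite _)).1 h1
    obtain ⟨x1, hx1, rfl⟩ := D.surj y1
    obtain ⟨x2, hx2, rfl⟩ := D.surj y2
    have h3 := anc_of_bel hr D ha2 hy1' x1 hx1 rfl
    have h4 := anc_of_bel hr D ha2 hy2' x2 hx2 rfl
    have h5 := h3.le D.enum
    have h6 := h4.le D.enum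
    obtain ⟨h7, h8⟩ := (mem_DL hrD D (by omega) hx1).1 hy1
    obtain ⟨h9, h10⟩ := (mem_DL hrD D (by omega) hx2).1 hy2
    rcases Nat.lt_trichotomy x1 x2 with hlt | heq | hgt
    · exact jump D.enum D.dfs D.jmp hlt hx2 h3 h4 h7 h9 h8
    · exact absurd (by rw [heq]) hne
    · exact jump D.enum D.dfs D.jmp hgt hx1 h4 h3 h9 h7 h10
  max := by
    intro a ha1 ha2
    exact Nat.log_mono_right (K_le hrD (v_ne D ha1 ha2))

end main

end LogK

theorem log_holds : LogStm := by
  intro V _ T r hT hrD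
  obtain ⟨par, hr⟩ := exists_root T hT r
  exact ⟨fun u => Nat.log 2 (LogK.K T r par u), fun v p Js D => LogK.cert hr hrD D⟩

end Pool.Agent.TH368.GD
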