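import Pool.Agent.TH368.GD.Defs2
import Pool.Agent.TH368.GD.Log

/-!
# Graceful supertrees: depth first enumerations of lobsters
-/

set_option autoImplicit false

namespace Pool.Agent.TH368.GD

open Pool.Agent.TH56.CT (Enum Good)
open Pool.Agent.H115R2 (Root exists_root)

namespace LobK

open LogK

section tree

variable {V : Type} {T : SimpleGraph V} {r : V} {par : V → V}

/-- a walk which leaves the branch of `c` passes through the parent of `c` -/
theorem mem_support (hr : Root T r par) {c : V} {u w : V} (p : T.Walk u w) :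
    Bel r par c u → ¬ Bel r par c w → par c ∈ p.support := by
  induction p with
  | nil => intro h1 h2; exact absurd h1 h2
  | @cons u u' w h p ih =>
    intro h1 h2
    rw [SimpleGraph.Walk.support_cons]
    by_cases h3 : Bel r par c u'
    · exact List.mem_cons_of_mem _ (ih h3 h2)
    · rcases hr.cov _ _ h with ⟨h4, h5⟩ | ⟨h4, h5⟩
      · cases h1 with
        | refl =>
          rw [h5]
          exact List.mem_cons_of_mem _ (SimpleGraph.Walk.start_mem_support p)
        | step _ _ h6 =>
          rw [h5] at h6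
          exact absurd h6 h3
      · exact absurd (Bel.step _ h4 (by rw [h5]; exact h1)) h3

theorem dist_add (hT : T.Connected) (hr : Root T r par) {c u w : V}
    (h1 : Bel r par c u) (h2 : ¬ Bel r par c w) :
    T.dist u w = T.dist u (par c) + T.dist (par c) w := by
  classical
  obtain ⟨p, hp⟩ := hT.exists_walk_length_eq_dist u w
  have h3 := mem_support hr p h1 h2
  have h4 := congrArg SimpleGraph.Walk.length (p.take_spec h3)
  rw [SimpleGraph.Walk.length_append] at h4
  have h5 := SimpleGraph.dist_le (p.takeUntil _ h3)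
  have h6 := SimpleGraph.dist_le (p.dropUntil _ h3)
  have h7 := hT.dist_triangle (u := u) (v := par c) (w := w)
  omega

/-- all vertices near `y` are below the grandparent of `y` -/
theorem near (hT : T.Connected) (hr : Root T r par) {y a u : V} (hy : y ≠ r) (hx : par y ≠ r)
    (ha : par (par y) = a) (haR : a ≠ r) (hu : T.dist y u ≤ 2) : Bel r par a u := by
  by_contra hcon
  have h1 : Bel r par a y := by
    refine Bel.step _ hy (Bel.step _ hx ?_)
    rw [ha]
    exact Bel.refl
  have h2 := dist_add hT hr h1 hcon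
  have h3 := hr.dist y hy
  have h4 := hr.dist _ hx
  rw [ha] at h4
  have h5 := hr.dist a haR
  have h6 := hT.dist_triangle (u := r) (v := par a) (w := y)
  rw [SimpleGraph.dist_comm (u := par a) (v := y)] at h6
  omega

/-- a proper descendant is below a child -/
theorem bel_child {s x : V} (h : Bel r par s x) :
    s = x ∨ ∃ b, b ≠ r ∧ par b = s ∧ Bel r par b x := by
  induction h with
  | refl => exact Or.inl rfl
  | step x hx h ih =>
    right
    rcases ih with h1 | ⟨b, hb1, hb2, hb3⟩
    · exact ⟨x, hx, h1.symm, Bel.refl⟩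
    · exact ⟨b, hb1, hb2, Bel.step x hx hb3⟩

theorem bel_up {s x : V} (h : Bel r par s x) (hne : s ≠ x) : x ≠ r ∧ Bel r par s (par x) := by
  cases h with
  | refl => exact absurd rfl hne
  | step _ h1 h2 => exact ⟨h1, h2⟩

theorem len_path (hT : T.IsTree) {a b : V} (p : T.Walk a b) (hp : p.IsPath) :
    p.length = T.dist a b := by
  classical
  obtain ⟨w, hw⟩ := hT.connected.exists_walk_length_eq_dist a b
  have h1 : w.bypass.length ≤ w.length := w.length_bypass_le_length
  have h2 := SimpleGraph.dist_le w.bypass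
  have h3 := hT.isAcyclic.path_unique ⟨p, hp⟩ ⟨w.bypass, w.bypass_isPath⟩
  have h4 : p = w.bypass := congrArg Subtype.val h3
  rw [h4]
  omega

theorem path_add (hT : T.IsTree) {a b u : V} (p : T.Walk a b) (hp : p.IsPath)
    (hu : u ∈ p.support) : T.dist a u + T.dist u b = T.dist a b := by
  classical
  have h1 := len_path hT _ (hp.takeUntil hu)
  have h2 := len_path hT _ (hp.dropUntil hu)
  have h3 := len_path hT p hp
  have h4 := congrArg SimpleGraph.Walk.length (p.take_spec hu)
  rw [SimpleGraph.Walk.length_append] at h4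
  omega

theorem btw (hT : T.IsTree) {a b u w : V} (p : T.Walk a b) (hp : p.IsPath)
    (hu : u ∈ p.support) (hw : w ∈ p.support) :
    T.dist a u + T.dist u w = T.dist a w ∨ T.dist a w + T.dist u w = T.dist a u := by
  classical
  have h1 := path_add hT p hp hu
  have h2 := path_add hT p hp hw
  have h3 : w ∈ ((p.takeUntil u hu).append (p.dropUntil u hu)).support := by
    rw [p.take_spec hu]
    exact hw
  rw [SimpleGraph.Walk.mem_support_append_iff] at h3
  rcases h3 with h3 | h3
  · right
    have h4 := path_add hT _ (hp.takeUntil hu) h3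
    rw [SimpleGraph.dist_comm (u := u) (v := w)]
    exact h4
  · left
    have h4 := path_add hT _ (hp.dropUntil hu) h3
    omega

end tree

section main

variable {V : Type} [Fintype V] {T : SimpleGraph V} {r : V} {par : V → V} {key : V → ℕ} {m : ℕ}
  {v : ℕ → V} {p : ℕ → ℕ} {Js : Finset ℕ}

/-- the root has a neighbour which is a leaf -/
theorem leaf_root (hr : Root T r par) (hrD : r ∈ DL T) :
    ∃ α, α ≠ r ∧ par α = r ∧ ∀ x, x ≠ r → par x ≠ α := by
  classical
  obtain ⟨h1, h2⟩ := hrD
  have h3 : ∃ α ∈ T.neighborSet r, α ∉ {y : V | T.Adj r y ∧ 2 ≤ (T.neighborSet y).ncard} := by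
    by_contra hcon
    push Not at hcon
    have := Set.ncard_le_ncard (s := T.neighborSet r)
      (t := {y : V | T.Adj r y ∧ 2 ≤ (T.neighborSet y).ncard}) (fun y hy => hcon y hy)
      (Set.toFinite _)
    omega
  obtain ⟨α, hα1, hα2⟩ := h3
  rw [SimpleGraph.mem_neighborSet] at hα1
  have hα3 : ¬ 2 ≤ (T.neighborSet α).ncard := fun h => hα2 ⟨hα1, h⟩
  have hne : α ≠ r := hα1.ne'
  have hpα : par α = r := by
    rcases hr.cov _ _ hα1 with ⟨h4, -⟩ | ⟨-, h4⟩
    · exact absurd rfl h4
    · exact h4
  refine ⟨α, hne, hpα, ?_⟩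
  intro x hx hpx
  apply hα3
  refine (Set.one_lt_ncard_iff (Set.toFinite _)).2 ⟨r, x, hα1.symm, ?_, Ne.symm hx⟩
  have := hr.adj x hx
  rw [hpx] at this
  exact this

/-- a vertex of `DL T` different from the root has a child -/
theorem child_of_DL (hr : Root T r par) {x : V} (hxD : x ∈ DL T) :
    ∃ α, α ≠ r ∧ par α = x := by
  obtain ⟨y1, y2, hy1, hy2, hne⟩ := (Set.one_lt_ncard_iff (Set.toFinite _)).1 hxD.1
  rw [SimpleGraph.mem_neighborSet] at hy1 hy2
  rcases hr.cov _ _ hy1 with ⟨h4, h5⟩ | ⟨h4, h5⟩
  · rcases hr.cov _ _ hy2 with ⟨h6, h7⟩ | ⟨h6, h7⟩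
    · exact absurd (h5.symm.trans h7) hne
    · exact ⟨y2, h6, h7⟩
  · exact ⟨y1, h4, h5⟩

theorem no_far (hT : T.IsTree) (hr : Root T r par) (hrD : r ∈ DL T) {r' : V} (hrD' : r' ∈ DL T)
    (hmax : ∀ a ∈ DL T, ∀ b ∈ DL T, T.dist a b ≤ T.dist r r') (D : Dfs T r key m v p Js)
    {x0 y0 : V} (q : T.Walk x0 y0) (hq : q.IsPath) (hq2 : ∀ z, ∃ u ∈ q.support, T.dist u z ≤ 2)
    {y : V} (hy : y ≠ r) (hy1 : par y ≠ r) (hy2 : par (par y) ≠ r)
    (hy3 : ¬ Bel r par (par (par y)) r') (hy4 : Bel r par (par (par (par y))) r') : False := by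
  have hC := hT.connected
  obtain ⟨x, hx⟩ : ∃ x, x = par y := ⟨_, rfl⟩
  obtain ⟨a, ha⟩ : ∃ a, a = par x := ⟨_, rfl⟩
  obtain ⟨s, hs⟩ : ∃ s, s = par a := ⟨_, rfl⟩
  rw [← hx, ← ha] at hy2 hy3 hy4
  rw [← hs] at hy4
  rw [← hx] at hy1
  -- a vertex of `DL T` below `x`
  obtain ⟨i, hi, hvi⟩ := D.surj x
  obtain ⟨j, hj, hvj⟩ := D.surj y
  have hi1 : 1 ≤ i := by
    by_contra hcon
    apply hy1
    rw [← hvi, show i = 0 by omega, D.zero]
  have hj1 : 1 ≤ j := by
    by_contra hcon
    apply hy
    rw [← hvj, show j = 0 by omega, D.zero]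
  have hpj : p j = i := by
    have h1 := par_v hr D j hj1 hj
    rw [hvj, ← hx, ← hvi] at h1
    have h2 := D.enum.lt j hj1 hj
    exact (D.inj _ _ (by omega) hi h1.symm)
  have hNi : NL m p i := ⟨j, hj1, hj, hpj⟩
  obtain ⟨t, ht1, ht2, ht3⟩ := bottom D.enum _ i le_rfl hNi
  have ht4 := ht1.le D.enum
  have htm : t ≤ m := by
    obtain ⟨j', hj1', hj2', hj3'⟩ := ht2
    have := D.enum.lt j' hj1' hj2'
    omega
  have hdD : v t ∈ DL T := (mem_DL hrD D (by omega) htm).2 ⟨ht2, ht3⟩
  have hxd : Bel r par x (v t) := by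
    have := bel_of_anc hr D ht1
    rw [hvi] at this
    exact this
  obtain ⟨d, hd⟩ : ∃ d, d = v t := ⟨_, rfl⟩
  rw [← hd] at hdD hxd
  have had : Bel r par a d := by
    refine Bel.trans (Bel.step x hy1 ?_) hxd
    rw [← ha]
    exact Bel.refl
  -- distances
  have e1 := hr.dist a hy2
  rw [← hs] at e1
  have e2 := hr.dist x hy1
  rw [← ha] at e2
  have e3 := hxd.dist hr
  have e4 := dist_add hC hr had hy3
  rw [← hs] at e4
  have e5 := hC.dist_triangle (u := r) (v := s) (w := d)
  have e6 := hC.dist_triangle (u := r) (v := s) (w := r')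
  have e7 := hmax d hdD r' hrD'
  have e8 := hmax r hrD d hdD
  rw [SimpleGraph.dist_comm (u := s) (v := d)] at e5
  have hK : 2 ≤ T.dist r s := by omega
  have hD0 : T.dist r s + 2 ≤ T.dist r r' := by omega
  -- the far vertex next to the root
  obtain ⟨α1, hα1, hα1p, hα1c⟩ := leaf_root hr hrD
  obtain ⟨u1, hu1, hu1d⟩ := hq2 α1
  have f1 : T.dist r u1 ≤ 1 := by
    by_cases h : Bel r par α1 u1
    · rcases bel_child h with h1 | ⟨b, hb1, hb2, -⟩
      · rw [← h1]
        have := hr.dist α1 hα1
        rw [hα1p, SimpleGraph.dist_self] at this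
        omega
      · exact absurd hb2 (hα1c b hb1)
    · have h1 := dist_add hC hr (Bel.refl (r := r) (par := par) (u := α1)) h
      rw [hα1p] at h1
      have h2 := hr.dist α1 hα1
      rw [hα1p, SimpleGraph.dist_self] at h2
      rw [SimpleGraph.dist_comm] at hu1d
      rw [SimpleGraph.dist_comm (u := α1) (v := r)] at h1
      omega
  have g1 : ¬ Bel r par s u1 := by
    intro h
    have := h.dist hr
    omega
  -- the far vertex below `r'`
  have hr'r : r' ≠ r := by
    intro h
    rw [h, SimpleGraph.dist_self] at hD0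
    omega
  have e9 := hr.dist r' hr'r
  have hpr' : par r' ≠ r := by
    intro h
    rw [h, SimpleGraph.dist_self] at e9
    omega
  obtain ⟨α2, hα2, hα2p⟩ := child_of_DL hr hrD'
  obtain ⟨u2, hu2, hu2d⟩ := hq2 α2
  rw [SimpleGraph.dist_comm] at hu2d
  have g2 : Bel r par (par r') u2 :=
    near hC hr hα2 (by rw [hα2p]; exact hr'r) (by rw [hα2p]) hpr' hu2d
  have hsr' : s ≠ r' := by
    intro h
    rw [h] at hD0
    omega
  obtain ⟨-, h10⟩ := bel_up hy4 hsr'
  have hspr' : s ≠ par r' := by
    intro h
    rw [← h] at e9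
    omega
  rcases bel_child h10 with h11 | ⟨c, hc1, hc2, hc3⟩
  · exact hspr' h11
  have hca : c ≠ a := by
    intro h
    apply hy3
    rw [← h]
    exact Bel.step _ hr'r hc3
  have g2' : Bel r par c u2 := hc3.trans g2
  -- the far vertex `y`
  obtain ⟨u3, hu3, hu3d⟩ := hq2 y
  rw [SimpleGraph.dist_comm] at hu3d
  have g3 : Bel r par a u3 :=
    near hC hr hy (by rw [← hx]; exact hy1) (by rw [← hx, ← ha]) hy2 hu3d
  -- the three distances
  have k1 : ¬ Bel r par c u3 := fun h =>
    Bel.disj hr hc1 hy2 hca (by rw [hc2, hs]) h g3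
  have k2 : ¬ Bel r par c u1 := fun h => g1 (Bel.trans (Bel.step c hc1 (by
    rw [hc2]; exact Bel.refl)) h)
  have k3 : ¬ Bel r par a u1 := fun h => g1 (Bel.trans (Bel.step a hy2 (by
    rw [← hs]; exact Bel.refl)) h)
  have l1 := dist_add hC hr g2' k1
  have l2 := dist_add hC hr g2' k2
  have l3 := dist_add hC hr g3 k3
  rw [hc2] at l1 l2
  rw [← hs] at l3
  have n1 : 0 < T.dist s u1 := hC.pos_dist_of_ne (fun h => g1 (by rw [← h]; exact Bel.refl))
  have n2 : 0 < T.dist u2 s := hC.pos_dist_of_ne (fun h => by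
    have h1 := g2'.dist hr
    rw [h] at h1
    have h2 := hr.dist c hc1
    rw [hc2] at h2
    omega)
  have n3 : 0 < T.dist u3 s := hC.pos_dist_of_ne (fun h => by
    have h1 := g3.dist hr
    rw [h] at h1
    omega)
  have b1 := btw hT q hq hu1 hu2
  have b2 := btw hT q hq hu1 hu3
  have b3 := btw hT q hq hu2 hu3
  rw [SimpleGraph.dist_comm (u := u1) (v := u2)] at b1
  rw [SimpleGraph.dist_comm (u := u1) (v := u3)] at b2
  rw [SimpleGraph.dist_comm (u := s) (v := u3)] at l1
  omega

end main

end LobK

open LogK LobK in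
theorem lob_holds : LobStm := by
  intro V _ T hT hne hlob
  classical
  obtain ⟨x0, y0, q, hq, hq2⟩ := hlob
  -- a pair of vertices of `DL T` of maximal distance
  obtain ⟨⟨r, r'⟩, ⟨hrD, hrD'⟩, hmax0⟩ := Set.Finite.exists_maximalFor
    (fun z : V × V => T.dist z.1 z.2) ((DL T) ×ˢ (DL T)) (Set.toFinite _) (hne.prod hne)
  have hmax : ∀ a ∈ DL T, ∀ b ∈ DL T, T.dist a b ≤ T.dist r r' := by
    intro a ha b hb
    by_contra hcon
    push Not at hcon
    have h1 := hmax0 (j := (a, b)) ⟨ha, hb⟩ hcon.le
    exact absurd h1 (not_le.2 hcon)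
  dsimp only at hrD hrD'
  obtain ⟨par, hr⟩ := exists_root T hT r
  refine ⟨r, hrD, fun x => if Bel r par x r' then 1 else 0, fun v p Js D => ?_⟩
  intro a b ha hab hb hp hNa hNb x hx1 hx2 hpx hNx
  have hav := v_ne D ha (by omega)
  have hbv := v_ne D (by omega : 1 ≤ b) hb
  have hpa := par_v hr D a ha (by omega)
  have hpb := par_v hr D b (by omega) hb
  by_cases hA : Bel r par (v a) r'
  · -- both siblings are above `r'`
    have h1 := D.srt a b ha hab hb hp hNa hNb
    by_cases hB : Bel r par (v b) r'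
    · refine Bel.disj hr hav hbv ?_ ?_ hA hB
      · intro h
        have := D.inj _ _ (by omega) hb h
        omega
      · rw [hpa, hpb, hp]
    · simp only [if_pos hA, if_neg hB] at h1
      omega
  · -- `v a` is not above `r'`
    obtain ⟨y, hy1, hy2, hpy⟩ := hNx
    have hxv := v_ne D hx1 hx2
    have hyv := v_ne D hy1 hy2
    have hpx' := par_v hr D x hx1 hx2
    have hpy' := par_v hr D y hy1 hy2
    rw [hpx] at hpx'
    rw [hpy] at hpy'
    -- a vertex at distance three from the path from `r` to `r'`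
    have hfar : ∃ z, z ≠ r ∧ par z ≠ r ∧ par (par z) ≠ r ∧ ¬ Bel r par (par (par z)) r' ∧
        Bel r par (par (par (par z))) r' := by
      have hup : ∀ n : ℕ, ∀ z : V, T.dist r z ≤ n → z ≠ r → par z ≠ r → par (par z) ≠ r →
          ¬ Bel r par (par (par z)) r' → ∃ z, z ≠ r ∧ par z ≠ r ∧ par (par z) ≠ r ∧
          ¬ Bel r par (par (par z)) r' ∧ Bel r par (par (par (par z))) r' := by
        intro n
        induction n with
        | zero =>
          intro z hz h1
          have := hr.dist z h1
          omega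
        | succ n ih =>
          intro z hz h1 h2 h3 h4
          by_cases h5 : Bel r par (par (par (par z))) r'
          · exact ⟨z, h1, h2, h3, h4, h5⟩
          · have h6 : par (par (par z)) ≠ r := by
              intro h7
              apply h5
              rw [h7]
              have hroot : ∀ k : ℕ, ∀ w : V, T.dist r w ≤ k → Bel r par r w := by
                intro k
                induction k with
                | zero =>
                  intro w hw
                  by_cases h8 : w = r
                  · rw [h8]; exact Bel.refl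
                  · have := hr.dist w h8
                    omega
                | succ k ihk =>
                  intro w hw
                  by_cases h8 : w = r
                  · rw [h8]; exact Bel.refl
                  · have h9 := hr.dist w h8
                    exact Bel.step w h8 (ihk (par w) (by omega))
              exact hroot _ r' le_rfl
            have h8 := hr.dist z h1
            exact ih (par z) (by omega) h2 h3 h6 h5
      refine hup _ (v y) le_rfl hyv (by rw [hpy']; exact hxv) (by rw [hpy', hpx']; exact hav) ?_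
      rw [hpy', hpx']
      exact hA
    obtain ⟨z, h1, h2, h3, h4, h5⟩ := hfar
    exact no_far hT hr hrD hrD' hmax D q hq hq2 h1 h2 h3 h4 h5

end Pool.Agent.TH368.GD
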