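import Pool.Agent.TH368.GD.Defs

/-!
# Part B: from depth first enumerations to `Enum2`
-/

set_option autoImplicit false

namespace Pool.Agent.TH368.GD

open Finset
open Pool.Agent.TH56.CT (Enum Good)

namespace Num

/-- key fact: the child `y` of `p l` above `i` -/
lemma fact {m : ℕ} {p : ℕ → ℕ} {Js : Finset ℕ} {h : ℕ → ℕ} {H : ℕ}
    (hlt : ∀ i, 1 ≤ i → i ≤ m → p i < i)
    (dfs : ∀ i j, 1 ≤ i → i < j → j ≤ m → p j < i → p j ≤ p i)
    (hc : Cert m p Js h H) {l i : ℕ} (hlm : l ≤ m) (hlN : NL m p l)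
    (h1 : p l < i) (h2 : i < l) (hi : NL m p i) :
    ∃ y, 1 ≤ y ∧ y ≤ i ∧ p y = p l ∧ NL m p y ∧ h i ≤ h y ∧ h y < h (p l) := by
  have e1 : p (p l + 1) = p l := by
    have a1 := hlt (p l + 1) (by omega) (by omega)
    have a2 := dfs (p l + 1) l (by omega) (by omega) hlm (by omega)
    omega
  obtain ⟨y, hy, hmax⟩ := Finset.exists_max_image
    ((Finset.Icc 1 i).filter (fun y => p y = p l)) (fun y => y)
    ⟨p l + 1, by rw [mem_filter, mem_Icc]; exact ⟨⟨by omega, by omega⟩, e1⟩⟩
  rw [mem_filter, mem_Icc] at hy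
  obtain ⟨⟨hy1, hyi⟩, hyp⟩ := hy
  have hyv : p l + 1 ≤ y := hmax (p l + 1) (by
    rw [mem_filter, mem_Icc]
    exact ⟨⟨by omega, by omega⟩, e1⟩)
  have key : ∀ x, y < x → x ≤ i → y ≤ p x := by
    intro x hx1 hx2
    have a1 := dfs x l (by omega) (by omega) hlm (by omega)
    have a2 : p x ≠ p l := by
      intro e
      have := hmax x (by
        rw [mem_filter, mem_Icc]
        exact ⟨⟨by omega, hx2⟩, e⟩)
      omega
    by_contra hcon
    have a3 := dfs y x hy1 hx1 (by omega) (by omega)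
    omega
  have ind : ∀ x, y ≤ x → x ≤ i → NL m p x → NL m p y ∧ h x ≤ h y := by
    intro x
    induction x using Nat.strong_induction_on with
    | _ x ih =>
      intro hx1 hx2 hxN
      rcases Nat.eq_or_lt_of_le hx1 with e | hlt'
      · subst e
        exact ⟨hxN, le_rfl⟩
      · have a1 := key x hlt' hx2
        have a2 := hlt x (by omega) (by omega)
        have a3 := ih (p x) a2 a1 (by omega) ⟨x, by omega, by omega, rfl⟩
        exact ⟨a3.1, (hc.par x (by omega) (by omega) hxN).trans a3.2⟩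
  obtain ⟨b1, b2⟩ := ind i hyi le_rfl hi
  refine ⟨y, hy1, hyi, hyp, b1, b2, ?_⟩
  have := hc.sib y l hy1 (by omega) hlm hyp b1 hlN
  rwa [hyp] at this

end Num

theorem num_holds : NumStm := by
  intro m p Js h H hE dfs jmp pk srt hc
  have hlt := hE.lt
  have hpos : ∀ k ∈ Js, 1 ≤ h (p k) := by
    intro k hk
    obtain ⟨k1, k2, k3, a, a1, a2, a3, a4⟩ := (jmp k).1 hk
    have := hc.sib a k a1 a2 k2 a3 a4 k3
    rw [a3] at this
    omega
  refine ⟨Js.sup (fun k => ((Js.filter (fun l => p l < p k ∧ k < l)).image p).card),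
    ⟨hE, ?_, ?_, ?_, ?_⟩, ?_⟩
  · intro k hk
    obtain ⟨k1, k2, ⟨j, j1, j2, j3⟩, -⟩ := (jmp k).1 hk
    have b1 := hlt j j1 j2
    have b2 : p (k + 1) = k := by
      rcases Nat.eq_or_lt_of_le (show k + 1 ≤ j by omega) with e | hl
      · rw [e]; exact j3
      · have b3 := dfs (k + 1) j (by omega) hl j2 (by omega)
        have b4 := hlt (k + 1) (by omega) (by omega)
        omega
    refine ⟨by omega, fun hk1 => ?_⟩
    obtain ⟨-, -, -, a, a1, a2, a3, -⟩ := (jmp (k + 1)).1 hk1
    have b3 := hlt a a1 (by omega)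
    omega
  · intro k hk l hl hlk hkl
    exact dfs k l (hE.sub k hk).1 hkl (hE.sub l hl).2 hlk
  · intro k hk l hl l' hl' e1 e2 e3 e4
    obtain ⟨k1, k2, -, -⟩ := (jmp k).1 hk
    obtain ⟨l1, l2, l3, -⟩ := (jmp l).1 hl
    have b1 := hlt k k1 k2
    have b2 := hlt l l1 l2
    obtain ⟨y, y1, y2, y3, y4, y5, -⟩ := Num.fact hlt dfs hc l2 l3 e2 (by omega)
      ⟨k, k1, k2, rfl⟩
    have b3 := srt y l y1 (by omega) l2 y3 y4 l3
    have b4 := hpos k hk
    obtain ⟨j, hj, hlj, hall⟩ := hc.pos l l1 l2 (by omega)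
    refine ⟨j, hj, hlj, ?_⟩
    by_contra hcon
    have b5 := hall l' e4 (by omega)
    omega
  · intro k hk
    exact Finset.le_sup (f := fun k => ((Js.filter (fun l => p l < p k ∧ k < l)).image p).card) hk
  · intro hne
    obtain ⟨k, hk, hsup⟩ := Finset.exists_mem_eq_sup Js hne
      (fun k => ((Js.filter (fun l => p l < p k ∧ k < l)).image p).card)
    rw [hsup]
    obtain ⟨k1, k2, -, -⟩ := (jmp k).1 hk
    have hkk := hlt k k1 k2
    set G : Finset ℕ := (Js.filter (fun l => p l < p k ∧ k < l)).image p with hG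
    have hGm : ∀ v ∈ G, ∃ l ∈ Js, p l = v ∧ v < p k ∧ k < l := by
      intro v hv
      rw [hG, mem_image] at hv
      obtain ⟨l, hl, hlv⟩ := hv
      rw [mem_filter] at hl
      exact ⟨l, hl.1, hlv, by rw [← hlv]; exact hl.2.1, hl.2.2⟩
    have hnot : p k ∉ G := by
      intro hv
      obtain ⟨l, -, -, h3, -⟩ := hGm _ hv
      omega
    have hmem : ∀ v ∈ insert (p k) G, NL m p v ∧ v ≤ p k ∧ 1 ≤ v := by
      intro v hv
      rw [mem_insert] at hv
      rcases hv with rfl | hv
      · exact ⟨⟨k, k1, k2, rfl⟩, le_rfl, pk k hk⟩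
      · obtain ⟨l, hl, hlv, h3, h4⟩ := hGm v hv
        obtain ⟨l1, l2, -, -⟩ := (jmp l).1 hl
        exact ⟨⟨l, l1, l2, hlv⟩, h3.le, by rw [← hlv]; exact pk l hl⟩
    have hdec : ∀ v ∈ insert (p k) G, ∀ w ∈ insert (p k) G, v < w → h w < h v := by
      intro v hv w hw hvw
      have hwm := hmem w hw
      have hvG : v ∈ G := by
        rw [mem_insert] at hv
        rcases hv with rfl | hv
        · omega
        · exact hv
      obtain ⟨l, hl, hlv, h3, h4⟩ := hGm v hvG
      obtain ⟨l1, l2, l3, -⟩ := (jmp l).1 hl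
      obtain ⟨y, y1, y2, y3, y4, y5, y6⟩ := Num.fact hlt dfs hc l2 l3 (i := w) (by omega)
        (by omega) hwm.1
      rw [hlv] at y6
      omega
    have hmaps : ∀ v ∈ insert (p k) G, h v ∈ Finset.Icc 1 H := by
      intro v hv
      obtain ⟨a1, a2, a3⟩ := hmem v hv
      rw [mem_Icc]
      refine ⟨?_, hc.max v a3 (by omega)⟩
      have b1 := hpos k hk
      rcases Nat.eq_or_lt_of_le a2 with e | hl
      · rw [e]; exact b1
      · have := hdec v hv (p k) (mem_insert_self _ _) hl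
        omega
    have hinj : Set.InjOn h (insert (p k) G : Finset ℕ) := by
      intro v hv w hw e
      rcases lt_trichotomy v w with hl | hl | hl
      · have := hdec v hv w hw hl
        omega
      · exact hl
      · have := hdec w hw v hv hl
        omega
    have hcard := Finset.card_le_card_of_injOn h hmaps hinj
    rw [card_insert_of_notMem hnot, Nat.card_Icc] at hcard
    omega

end Pool.Agent.TH368.GD
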