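import Pool.Agent.TH368.GD.Defs
import Pool.Agent.TH56.CT.Ord

/-!
# Part A: depth first enumerations exist, and have few jumps
-/

set_option autoImplicit false

namespace Pool.Agent.TH368.GD

open Pool.Agent.TH56.CT (Enum Good)
open Pool.Agent.TH56.CT.OrdAux

namespace Ord2

/-- partial depth first enumerations; `e i` is the current vertex after the stage `i` -/
structure Part2 {V : Type} (T : SimpleGraph V) (r : V) (key : V → ℕ) (n : ℕ) (v : ℕ → V)
    (p : ℕ → ℕ) (Js : Finset ℕ) (e : ℕ → ℕ) : Prop where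
  part : Part T r n v p Js e
  mx : ∀ i, 1 ≤ i → i ≤ n → ∀ j < i, ∀ y, T.Adj (v j) y → (∀ t < i, v t ≠ y) → j ≤ p i
  mn : ∀ i, 1 ≤ i → i ≤ n → 2 ≤ dg T (v i) → ∀ y, T.Adj (v (p i)) y → (∀ t < i, v t ≠ y) →
    key (v i) ≤ key y

theorem ext2 {V : Type} {T : SimpleGraph V} {r : V} {key : V → ℕ} {n : ℕ} {v : ℕ → V} {p : ℕ → ℕ}
    {Js : Finset ℕ} {e : ℕ → ℕ} (h : Part2 T r key n v p Js e) (y : V) (q : ℕ) (J : Finset ℕ)
    (en : ℕ) (hq : q ≤ n) (hy : ∀ j ≤ n, v j ≠ y) (hadj : T.Adj y (v q))
    (hc : (J = Js ∧ q = e n ∧ dg T y = 1 ∧ en = e n) ∨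
      (J = Js ∧ q = e n ∧ 2 ≤ dg T y ∧ en = n + 1 ∧
        ∀ z, T.Adj (v (e n)) z → dg T z = 1 → ∃ j ≤ n, v j = z) ∨
      (J = insert (n + 1) Js ∧ 2 ≤ dg T y ∧ en = n + 1 ∧
        ∀ z, T.Adj (v (e n)) z → ∃ j ≤ n, v j = z))
    (hmx : ∀ j ≤ n, ∀ z, T.Adj (v j) z → (∀ t ≤ n, v t ≠ z) → j ≤ q)
    (hmn : 2 ≤ dg T y → ∀ z, T.Adj (v q) z → (∀ t ≤ n, v t ≠ z) → key y ≤ key z) :
    Part2 T r key (n + 1) (Function.update v (n + 1) y) (Function.update p (n + 1) q) J
      (Function.update e (n + 1) en) := by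
  have hv : ∀ i, i ≤ n → Function.update v (n + 1) y i = v i := fun i hi =>
    Function.update_of_ne (by omega) _ _
  have hp : ∀ i, i ≤ n → Function.update p (n + 1) q i = p i := fun i hi =>
    Function.update_of_ne (by omega) _ _
  have hv1 : Function.update v (n + 1) y (n + 1) = y := Function.update_self _ _ _
  have hp1 : Function.update p (n + 1) q (n + 1) = q := Function.update_self _ _ _
  refine ⟨ext h.part y q J en hq hy hadj hc, ?_, ?_⟩
  · intro i h1 h2 j hj z hz hvis
    rcases Nat.lt_or_ge n i with h3 | h3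
    · have : i = n + 1 := by omega
      subst this
      rw [hp1]
      rw [hv j (by omega)] at hz
      refine hmx j (by omega) z hz fun t ht => ?_
      have := hvis t (by omega)
      rwa [hv t ht] at this
    · rw [hp i h3]
      rw [hv j (by omega)] at hz
      refine h.mx i h1 h3 j hj z hz fun t ht => ?_
      have := hvis t ht
      rwa [hv t (by omega)] at this
  · intro i h1 h2 hd z hz hvis
    rcases Nat.lt_or_ge n i with h3 | h3
    · have : i = n + 1 := by omega
      subst this
      rw [hp1, hv q hq] at hz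
      rw [hv1] at hd ⊢
      refine hmn hd z hz fun t ht => ?_
      have := hvis t (by omega)
      rwa [hv t ht] at this
    · have h4 := h.part.lt i h1 h3
      rw [hp i h3, hv (p i) (by omega)] at hz
      rw [hv i h3] at hd ⊢
      refine h.mn i h1 h3 hd z hz fun t ht => ?_
      have := hvis t ht
      rwa [hv t (by omega)] at this

/-- after the current vertex there are only leaves, so every vertex with an unvisited neighbour is
at most the current one -/
theorem le_cur {V : Type} {T : SimpleGraph V} {r : V} {n : ℕ} {v : ℕ → V} {p : ℕ → ℕ}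
    {Js : Finset ℕ} {e : ℕ → ℕ} (h : Part T r n v p Js e) (j : ℕ) (hj : j ≤ n) (z : V)
    (hz : T.Adj (v j) z) (hvis : ∀ t ≤ n, v t ≠ z) : j ≤ e n := by
  by_contra hcon
  obtain ⟨h1, h2⟩ := h.after n le_rfl j (by omega) hj
  have h3 := h.lt j (by omega) hj
  have h4 := leaf_unique h1 (h.adj j (by omega) hj) hz
  exact hvis (p j) (by omega) h4

theorem exists_min_key {V : Type} (key : V → ℕ) (S : Set V) (hS : S.Nonempty) :
    ∃ y ∈ S, ∀ z ∈ S, key y ≤ key z := by
  obtain ⟨y, hy, hmin⟩ := WellFounded.has_min (measure key).wf S hS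
  exact ⟨y, hy, fun z hz => not_lt.1 (hmin z hz)⟩

theorem exists_part2 {V : Type} [Fintype V] {T : SimpleGraph V} (hT : T.IsTree) (r : V)
    (key : V → ℕ) (n : ℕ) (hn : n + 1 ≤ Fintype.card V) :
    ∃ v p Js e, Part2 T r key n v p Js e := by
  classical
  induction n with
  | zero =>
    refine ⟨fun _ => r, fun _ => 0, ∅, fun _ => 0, ⟨rfl, rfl, ?_, ?_, ?_, ?_, ?_⟩, ?_, ?_⟩
    · intro k hk
      simp at hk
    · intro i h1 h2; omega
    · intro i j hi hj _; omega
    · intro i h1 h2; omega
    · intro i h1 h2; omega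
    · intro i h1 h2; omega
    · intro i h1 h2; omega
  | succ n ih =>
    obtain ⟨v, p, Js, e, h⟩ := ih (by omega)
    have hen := h.part.e_le n le_rfl
    have hpos : ∀ x y : V, T.Adj x y → dg T y ≠ 1 → 2 ≤ dg T y := by
      intro x y hxy hne
      have h1 : 0 < dg T y := by
        unfold dg
        rw [Set.ncard_pos (Set.toFinite _)]
        exact ⟨x, hxy.symm⟩
      omega
    by_cases hc1 : ∃ y, T.Adj (v (e n)) y ∧ dg T y = 1 ∧ ∀ j ≤ n, v j ≠ y
    · obtain ⟨y, hy1, hy2, hy3⟩ := hc1
      exact ⟨_, _, _, _, ext2 h y (e n) Js (e n) hen hy3 hy1.symm (Or.inl ⟨rfl, rfl, hy2, rfl⟩)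
        (le_cur h.part) (fun hd => by omega)⟩
    · push Not at hc1
      by_cases hc : ∃ y, T.Adj (v (e n)) y ∧ ∀ j ≤ n, v j ≠ y
      · obtain ⟨y, ⟨hy1, hy3⟩, hmin⟩ := exists_min_key key
          {y : V | T.Adj (v (e n)) y ∧ ∀ j ≤ n, v j ≠ y} hc
        have hd : dg T y ≠ 1 := by
          intro hd
          obtain ⟨j, hj, hj2⟩ := hc1 y hy1 hd
          exact hy3 j hj hj2
        exact ⟨_, _, _, _, ext2 h y (e n) Js (n + 1) hen hy3 hy1.symm
          (Or.inr (Or.inl ⟨rfl, rfl, hpos _ _ hy1 hd, rfl, fun z hz hdz => hc1 z hz hdz⟩))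
          (le_cur h.part) (fun _ z hz hvis => hmin z ⟨hz, hvis⟩)⟩
      · push Not at hc
        -- the placed set
        let S : Set V := {x | ∃ j ≤ n, v j = x}
        have hS : ∃ z, z ∉ S := by
          by_contra hcon
          push Not at hcon
          have hsurj : Function.Surjective (fun i : Fin (n + 1) => v i) := by
            intro x
            obtain ⟨j, hj, hx⟩ := hcon x
            exact ⟨⟨j, by omega⟩, hx⟩
          have := Fintype.card_le_of_surjective _ hsurj
          rw [Fintype.card_fin] at this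
          omega
        obtain ⟨z, hz⟩ := hS
        have h0 : v 0 ∈ S := ⟨0, Nat.zero_le _, rfl⟩
        obtain ⟨W⟩ := hT.1.preconnected (v 0) z
        obtain ⟨d, -, hd1, hd2⟩ := W.exists_boundary_dart S h0 hz
        obtain ⟨q0, hq0, hqv0⟩ := hd1
        have hda : T.Adj (v q0) d.snd := by rw [hqv0]; exact d.adj
        -- the largest index with an unvisited neighbour
        let Q : Finset ℕ := (Finset.range (n + 1)).filter
          (fun q => ∃ z, T.Adj (v q) z ∧ ∀ t ≤ n, v t ≠ z)
        have hQ : Q.Nonempty := ⟨q0, Finset.mem_filter.2 ⟨Finset.mem_range.2 (by omega), d.snd, hda,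
          fun t ht hvt => hd2 ⟨t, ht, hvt⟩⟩⟩
        obtain ⟨q, hqdef⟩ : ∃ q, q = Q.max' hQ := ⟨_, rfl⟩
        have hqmem : q ∈ Q := by rw [hqdef]; exact Finset.max'_mem _ _
        have hqmax : ∀ j ∈ Q, j ≤ q := by
          intro j hj
          rw [hqdef]
          exact Finset.le_max' _ _ hj
        obtain ⟨hq1, hq2⟩ := Finset.mem_filter.1 hqmem
        have hq : q ≤ n := by
          have := Finset.mem_range.1 hq1
          omega
        obtain ⟨y, ⟨hy1, hy3⟩, hmin⟩ := exists_min_key key
          {y : V | T.Adj (v q) y ∧ ∀ j ≤ n, v j ≠ y} hq2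
        have hqe : q ≠ e n := by
          intro hqe
          rw [hqe] at hy1
          obtain ⟨j, hj, hj2⟩ := hc _ hy1
          exact hy3 j hj hj2
        have hd : dg T y ≠ 1 := by
          intro hd
          obtain ⟨j, hj, hj2⟩ := h.part.leaves n le_rfl q hq hqe _ hy1 hd
          exact hy3 j hj hj2
        exact ⟨_, _, _, _, ext2 h y q (insert (n + 1) Js) (n + 1) hq hy3 hy1.symm
          (Or.inr (Or.inr ⟨rfl, hpos _ _ hy1 hd, rfl, fun x hx => hc x hx⟩))
          (fun j hj z hz hvis => hqmax j (Finset.mem_filter.2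
            ⟨Finset.mem_range.2 (by omega), z, hz, hvis⟩))
          (fun _ z hz hvis => hmin z ⟨hz, hvis⟩)⟩

/-- if the current vertex is no longer `q` then `q` has a child of degree at least two -/
theorem left_child {V : Type} {T : SimpleGraph V} {r : V} {n : ℕ} {v : ℕ → V} {p : ℕ → ℕ}
    {Js : Finset ℕ} {e : ℕ → ℕ} (h : Part T r n v p Js e) (q k : ℕ) (hk : k ≤ n) (hqk : q < k)
    (heq : e q = q) (hadj : T.Adj (v q) (v k)) : ∀ i, q ≤ i → i < k →
    e i = q ∨ ∃ a, q < a ∧ a ≤ i ∧ p a = q ∧ 2 ≤ dg T (v a) := by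
  intro i hqi
  induction i, hqi using Nat.le_induction with
  | base => intro _; exact Or.inl heq
  | succ i hqi ih =>
    intro hik
    rcases ih (by omega) with h1 | ⟨a, h1, h2, h3, h4⟩
    · rcases h.cas (i + 1) (by omega) (by omega) with ⟨-, -, -, h5⟩ | ⟨-, h4, h5, -⟩ | ⟨-, -, -, h5⟩
      · left
        rw [h5, Nat.add_sub_cancel, h1]
      · right
        rw [Nat.add_sub_cancel, h1] at h4
        exact ⟨i + 1, by omega, le_rfl, h4, h5⟩
      · exfalso
        rw [Nat.add_sub_cancel, h1] at h5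
        obtain ⟨j, hj, hjv⟩ := h5 _ hadj
        have := h.inj j k (by omega) hk hjv
        omega
    · exact Or.inr ⟨a, h1, by omega, h3, h4⟩

end Ord2

open Ord2 in
theorem dfs_holds : DfsStm := by
  classical
  intro V _ T r key hT hr
  have hcard : T.edgeSet.ncard + 1 = Fintype.card V := by
    have h1 := hT.card_edgeFinset
    have h2 : T.edgeSet.ncard = T.edgeFinset.card := by
      rw [Set.ncard_eq_toFinset_card']
      rfl
    rw [h2]; exact h1
  obtain ⟨m, hmdef⟩ : ∃ m, m = T.edgeSet.ncard := ⟨_, rfl⟩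
  rw [← hmdef] at hcard ⊢
  obtain ⟨v, p, Js, e, h2⟩ := exists_part2 hT r key m (by omega)
  have h := h2.part
  have hsurj : ∀ x : V, ∃ i ≤ m, v i = x := by
    have hinj : Function.Injective (fun i : Fin (m + 1) => v i) := by
      intro i j hij
      have := h.inj i j (by omega) (by omega) hij
      exact Fin.ext this
    have hbij : Function.Bijective (fun i : Fin (m + 1) => v i) :=
      (Fintype.bijective_iff_injective_and_card _).mpr ⟨hinj, by rw [Fintype.card_fin]; exact hcard⟩
    intro x
    obtain ⟨i, hi⟩ := hbij.2 x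
    exact ⟨i, by omega, hi⟩
  have hadj : ∀ x y : V, T.Adj x y → ∃ i, 1 ≤ i ∧ i ≤ m ∧
      ((v i = x ∧ v (p i) = y) ∨ (v i = y ∧ v (p i) = x)) := by
    let g : ℕ → Sym2 V := fun i => s(v i, v (p i))
    have hginj : Set.InjOn g (Finset.Icc 1 m : Finset ℕ) := by
      intro i hi j hj hij
      simp only [Finset.coe_Icc, Set.mem_Icc] at hi hj
      have hpi := h.lt i hi.1 hi.2
      have hpj := h.lt j hj.1 hj.2
      rcases Sym2.eq_iff.mp hij with ⟨h1, -⟩ | ⟨h1, h2⟩
      · exact h.inj i j hi.2 hj.2 h1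
      · have e1 := h.inj i (p j) hi.2 (by omega) h1
        have e2 := h.inj (p i) j (by omega) hj.2 h2
        omega
    have hsub : (Finset.Icc 1 m).image g ⊆ T.edgeFinset := by
      intro x he
      obtain ⟨i, hi, rfl⟩ := Finset.mem_image.mp he
      rw [Finset.mem_Icc] at hi
      rw [SimpleGraph.mem_edgeFinset]
      exact h.adj i hi.1 hi.2
    have hc : T.edgeFinset.card ≤ ((Finset.Icc 1 m).image g).card := by
      rw [Finset.card_image_of_injOn hginj, Nat.card_Icc]
      have h1 := hT.card_edgeFinset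
      omega
    have heq := Finset.eq_of_subset_of_card_le hsub hc
    intro x y hxy
    have : s(x, y) ∈ T.edgeFinset := by
      rw [SimpleGraph.mem_edgeFinset]; exact hxy
    rw [← heq] at this
    obtain ⟨i, hi, he⟩ := Finset.mem_image.mp this
    rw [Finset.mem_Icc] at hi
    refine ⟨i, hi.1, hi.2, ?_⟩
    rcases Sym2.eq_iff.mp he with ⟨h1, h2⟩ | ⟨h1, h2⟩
    · exact Or.inl ⟨h1, h2⟩
    · exact Or.inr ⟨h1, h2⟩
  -- vertices with children have degree at least two
  have hNL : ∀ i, 1 ≤ i → i ≤ m → (NL m p i ↔ 2 ≤ dg T (v i)) := by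
    intro i hi1 hi2
    have hpi := h.lt i hi1 hi2
    constructor
    · rintro ⟨j, hj1, hj2, hj3⟩
      have hpj := h.lt j hj1 hj2
      have hne : v j ≠ v (p i) := by
        intro he
        have := h.inj j (p i) hj2 (by omega) he
        omega
      have a1 : v j ∈ T.neighborSet (v i) := by
        have := (h.adj j hj1 hj2).symm
        rw [hj3] at this
        exact this
      have a2 : v (p i) ∈ T.neighborSet (v i) := h.adj i hi1 hi2
      have a3 : ({v j, v (p i)} : Set V) ⊆ T.neighborSet (v i) := by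
        intro x hx
        rcases hx with hx | hx
        · rw [hx]; exact a1
        · rw [Set.mem_singleton_iff.1 hx]; exact a2
      calc 2 = ({v j, v (p i)} : Set V).ncard := (Set.ncard_pair hne).symm
        _ ≤ (T.neighborSet (v i)).ncard := Set.ncard_le_ncard a3 (Set.toFinite _)
    · intro hd
      have hd' : 1 < (T.neighborSet (v i)).ncard := hd
      obtain ⟨y, hy, hne⟩ := Set.exists_ne_of_one_lt_ncard hd' (v (p i))
      obtain ⟨t, ht1, ht2, ht3⟩ := hadj _ _ hy
      have hpt := h.lt t ht1 ht2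
      rcases ht3 with ⟨h3, h4⟩ | ⟨h3, h4⟩
      · have := h.inj t i ht2 (by omega) h3
        rw [this] at h4
        exact absurd h4.symm hne
      · exact ⟨t, ht1, ht2, h.inj (p t) i (by omega) (by omega) h4⟩
  -- the members of `D`
  have hDmem : ∀ i ≤ m, 1 ≤ e i → (∀ y, T.Adj (v (e i)) y → ∃ j ≤ i, v j = y) →
      v (e i) ∈ DL T := by
    intro i hi h1 hall
    have hei := h.e_le i hi
    have hdeg : 2 ≤ dg T (v (e i)) := by
      rcases h.cur i hi with h2 | h2
      · omega
      · exact h2
    refine ⟨hdeg, ?_⟩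
    have hsub : {y : V | T.Adj (v (e i)) y ∧ 2 ≤ (T.neighborSet y).ncard} ⊆ {v (p (e i))} := by
      rintro y ⟨hy1, hy2⟩
      obtain ⟨j, hj, hjy⟩ := hall y hy1
      obtain ⟨t, ht1, ht2, ht3⟩ := hadj _ _ hy1
      have hpt := h.lt t ht1 ht2
      rcases ht3 with ⟨h3, h4⟩ | ⟨h3, h4⟩
      · have := h.inj t (e i) ht2 (by omega) h3
        rw [this] at h4
        exact h4.symm
      · have e1 := h.inj t j ht2 (by omega) (h3.trans hjy.symm)
        have e2 := h.inj (p t) (e i) (by omega) (by omega) h4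
        subst e1
        have h5 := h.after i hi t (by omega) hj
        have h6 : dg T y = 1 := by rw [← h3]; exact h5.1
        have h7 : 2 ≤ dg T y := hy2
        omega
    calc {y : V | T.Adj (v (e i)) y ∧ 2 ≤ (T.neighborSet y).ncard}.ncard
        ≤ ({v (p (e i))} : Set V).ncard := Set.ncard_le_ncard hsub (Set.toFinite _)
      _ = 1 := Set.ncard_singleton _
  have hjmp : ∀ k ∈ Js, 2 ≤ dg T (v k) ∧ ∀ y, T.Adj (v (e (k - 1))) y → ∃ j < k, v j = y := by
    intro k hk
    obtain ⟨hk1, hk2⟩ := h.sub k hk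
    rcases h.cas k hk1 hk2 with ⟨h1, -⟩ | ⟨h1, -⟩ | ⟨-, h2, -, h3⟩
    · exact absurd hk h1
    · exact absurd hk h1
    · exact ⟨h2, h3⟩
  have hroot : ∀ k ∈ Js, 1 ≤ e (k - 1) := by
    intro k hk
    by_contra hcon
    have h0 : e (k - 1) = 0 := by omega
    obtain ⟨hk1, hk2⟩ := h.sub k hk
    have hpk := h.lt k hk1 hk2
    have hak := h.adj k hk1 hk2
    by_cases hp0 : p k = 0
    · rw [hp0] at hak
      have h1 := (hjmp k hk).2 (v k) (by rw [h0]; exact hak.symm)
      obtain ⟨j, hj, hjv⟩ := h1
      have := h.inj j k (by omega) hk2 hjv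
      omega
    · obtain ⟨h1, h2⟩ := h.after (k - 1) (by omega) (p k) (by omega) (by omega)
      have hpp := h.lt (p k) (by omega) (by omega)
      have h3 := leaf_unique h1 (h.adj (p k) (by omega) (by omega)) hak.symm
      have := h.inj _ _ (by omega) hk2 h3
      omega
  -- the jumps
  have hjiff : ∀ k, k ∈ Js ↔ 1 ≤ k ∧ k ≤ m ∧ NL m p k ∧
      ∃ a, 1 ≤ a ∧ a < k ∧ p a = p k ∧ NL m p a := by
    intro k
    constructor
    · intro hk
      obtain ⟨hk1, hk2⟩ := h.sub k hk
      obtain ⟨hd, hall⟩ := hjmp k hk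
      have hpk := h.lt k hk1 hk2
      have hak := h.adj k hk1 hk2
      refine ⟨hk1, hk2, (hNL k hk1 hk2).2 hd, ?_⟩
      have hne : e (k - 1) ≠ p k := by
        intro he
        obtain ⟨j, hj, hjv⟩ := hall (v k) (by rw [he]; exact hak.symm)
        have := h.inj j k (by omega) hk2 hjv
        omega
      have hcur : e (p k) = p k := by
        rcases Nat.eq_zero_or_pos (p k) with h0 | h0
        · rw [h0]; exact h.e0
        · have hdp : 2 ≤ dg T (v (p k)) := (hNL (p k) h0 (by omega)).1 ⟨k, hk1, hk2, rfl⟩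
          rcases h.cas (p k) h0 (by omega) with ⟨-, -, h3, -⟩ | ⟨-, -, -, h4, -⟩ | ⟨-, -, h4, -⟩
          · omega
          · exact h4
          · exact h4
      rcases left_child h (p k) k hk2 hpk hcur hak.symm (k - 1) (by omega) (by omega) with
        h3 | ⟨a, h3, h4, h5, h6⟩
      · exact absurd h3 hne
      · exact ⟨a, by omega, by omega, h5, (hNL a (by omega) (by omega)).2 h6⟩
    · rintro ⟨hk1, hk2, hnl, a, ha1, ha2, ha3, ha4⟩
      by_contra hkJ
      have hd := (hNL k hk1 hk2).1 hnl
      have hda := (hNL a ha1 (by omega)).1 ha4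
      have hpa := h.lt a ha1 (by omega)
      rcases h.cas k hk1 hk2 with ⟨-, -, h3, -⟩ | ⟨-, h3, -⟩ | ⟨h3, -⟩
      · omega
      · have h4 := h.after (k - 1) (by omega) a (by omega) (by omega)
        omega
      · exact hkJ h3
  have hDr : {y : V | T.Adj r y ∧ 2 ≤ (T.neighborSet y).ncard}.ncard ≤ 1 := hr.2
  refine ⟨v, p, Js, ⟨⟨h.lt, h.sub, ?_⟩, h.zero, h.inj, hsurj, ?_, ?_, hjiff, ?_⟩, ?_, ?_⟩
  · intro i hi1 hi2 hiJ
    have hpe : p i = e (i - 1) := by
      rcases h.cas i hi1 hi2 with ⟨-, h1, -⟩ | ⟨-, h1, -⟩ | ⟨h1, -⟩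
      · exact h1
      · exact h1
      · exact absurd h1 hiJ
    rw [hpe]
    rcases Nat.lt_or_ge i 2 with h1 | h1
    · left
      have : i = 1 := by omega
      subst this
      rw [Nat.sub_self, h.e0]
    · rcases h.cas (i - 1) (by omega) (by omega) with ⟨h2, h3, -, h4⟩ | ⟨-, -, -, h4, -⟩ | ⟨-, -, h4, -⟩
      · right
        exact ⟨h1, h2, by rw [h4, h3]⟩
      · left; omega
      · left; omega
  · intro x y
    constructor
    · exact hadj x y
    · rintro ⟨i, hi1, hi2, ⟨h3, h4⟩ | ⟨h3, h4⟩⟩
      · rw [← h3, ← h4]; exact h.adj i hi1 hi2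
      · rw [← h3, ← h4]; exact (h.adj i hi1 hi2).symm
  · intro i j hi hij hj hpj
    refine h2.mx i hi (by omega) (p j) hpj (v j) (h.adj j (by omega) hj).symm ?_
    intro t ht hvt
    have := h.inj t j (by omega) hj hvt
    omega
  · intro a b ha hab hb hpab hna hnb
    refine h2.mn a ha (by omega) ((hNL a ha (by omega)).1 hna) (v b) ?_ ?_
    · rw [hpab]
      exact (h.adj b (by omega) hb).symm
    · intro t ht hvt
      have := h.inj t b (by omega) hb hvt
      omega
  · intro k hk
    by_contra hcon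
    have hp0 : p k = 0 := by omega
    obtain ⟨hk1, hk2, hnk, a, ha1, ha2, ha3, ha4⟩ := (hjiff k).1 hk
    have b1 : v k ∈ {y : V | T.Adj r y ∧ 2 ≤ (T.neighborSet y).ncard} := by
      refine ⟨?_, (hNL k hk1 hk2).1 hnk⟩
      have := (h.adj k hk1 hk2).symm
      rw [hp0, h.zero] at this
      exact this
    have b2 : v a ∈ {y : V | T.Adj r y ∧ 2 ≤ (T.neighborSet y).ncard} := by
      refine ⟨?_, (hNL a ha1 (by omega)).1 ha4⟩
      have := (h.adj a ha1 (by omega)).symm
      rw [ha3, hp0, h.zero] at this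
      exact this
    have b3 := (Set.ncard_le_one (Set.toFinite _)).1 hDr _ b2 _ b1
    have := h.inj a k (by omega) hk2 b3
    omega
  · rcases Finset.eq_empty_or_nonempty Js with hJ | ⟨k0, hk0⟩
    · left
      rw [hJ, Finset.card_empty]
    · right
      have hmemk : ∀ k ∈ Js, v (e (k - 1)) ∈ DL T := by
        intro k hk
        obtain ⟨hk1, hk2⟩ := h.sub k hk
        refine hDmem (k - 1) (by omega) (hroot k hk) fun y hy => ?_
        obtain ⟨j, hj, hjy⟩ := (hjmp k hk).2 y hy
        exact ⟨j, by omega, hjy⟩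
      have hem : ∀ k ∈ Js, k ≤ e m := fun k hk => h.e_mono k hk m (h.sub k hk).2 le_rfl
      let I : Finset ℕ := insert 0 (insert (e m) (Js.image (fun k => e (k - 1))))
      have hI : I.card = Js.card + 2 := by
        have h1 : (Js.image (fun k => e (k - 1))).card = Js.card := by
          apply Finset.card_image_of_injOn
          have hlt : ∀ k ∈ Js, ∀ l ∈ Js, k < l → e (k - 1) < e (l - 1) := by
            intro k hk l hl hkl
            have h2 := h.e_mono k hk (l - 1) (by omega) (by have := h.sub l hl; omega)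
            have h3 := h.e_le (k - 1) (by have := h.sub k hk; omega)
            have := h.sub k hk
            omega
          intro k hk l hl hkl
          simp only at hkl
          rcases Nat.lt_trichotomy k l with h4 | h4 | h4
          · have := hlt k hk l hl h4
            omega
          · exact h4
          · have := hlt l hl k hk h4
            omega
        have h2 : e m ∉ Js.image (fun k => e (k - 1)) := by
          intro hcon
          obtain ⟨k, hk, he⟩ := Finset.mem_image.mp hcon
          have h3 := hem k hk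
          have h4 := h.sub k hk
          have h5 := h.e_le (k - 1) (by omega)
          omega
        have h3 : 0 ∉ insert (e m) (Js.image (fun k => e (k - 1))) := by
          intro hcon
          rcases Finset.mem_insert.mp hcon with h4 | h4
          · have := hem k0 hk0
            have := h.sub k0 hk0
            omega
          · obtain ⟨k, hk, he⟩ := Finset.mem_image.mp h4
            have := hroot k hk
            omega
        rw [Finset.card_insert_of_notMem h3, Finset.card_insert_of_notMem h2, h1]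
      have hIm : ∀ i ∈ I, i ≤ m ∧ v i ∈ DL T := by
        intro i hi
        rcases Finset.mem_insert.mp hi with rfl | hi
        · exact ⟨Nat.zero_le _, by rw [h.zero]; exact hr⟩
        · rcases Finset.mem_insert.mp hi with rfl | hi
          · refine ⟨h.e_le m le_rfl, hDmem m le_rfl ?_ fun y _ => hsurj y⟩
            have := hem k0 hk0
            have := h.sub k0 hk0
            omega
          · obtain ⟨k, hk, rfl⟩ := Finset.mem_image.mp hi
            have h4 := h.sub k hk
            have h5 := h.e_le (k - 1) (by omega)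
            exact ⟨by omega, hmemk k hk⟩
      have hinj : Set.InjOn v (I : Set ℕ) := fun i hi j hj hij =>
        h.inj i j (hIm i hi).1 (hIm j hj).1 hij
      have hle : ((I.image v : Finset V) : Set V).ncard ≤ (DL T).ncard := by
        apply Set.ncard_le_ncard _ (Set.toFinite _)
        intro x hx
        obtain ⟨i, hi, rfl⟩ := Finset.mem_image.mp (Finset.mem_coe.mp hx)
        exact (hIm i hi).2
      rw [Set.ncard_coe_finset, Finset.card_image_of_injOn hinj, hI] at hle
      exact hle

end Pool.Agent.TH368.GD
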