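import Pool.Agent.TH368.GD.Defs2
import Pool.Agent.TH368.GD.Log

/-!
# Graceful supertrees: the certificate when the branching vertices lie on a path
-/

set_option autoImplicit false

namespace Pool.Agent.TH368.GD

open Pool.Agent.TH56.CT (Enum Good)
open Pool.Agent.H115R2 (Root exists_root)

namespace PathC

open LogK

section walks

variable {V : Type} {T : SimpleGraph V} {r : V} {par : V → V}

theorem antisymm (hr : Root T r par) {u w : V} (h1 : Bel r par u w) (h2 : Bel r par w u) :
    u = w := by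
  cases h1 with
  | refl => rfl
  | step _ hw h3 =>
    exfalso
    have h4 := h3.dist hr
    have h5 := h2.dist hr
    have h6 := hr.dist w hw
    omega

/-- a walk into the set of the vertices below `u` goes through `u` -/
theorem cross_in (hr : Root T r par) {u : V} {a c : V} (q : T.Walk a c) :
    ¬ Bel r par u a → Bel r par u c → u ∈ q.support := by
  induction q with
  | nil =>
    intro h1 h2
    exact absurd h2 h1
  | @cons a b c hadj q ih =>
    intro h1 h2
    rw [SimpleGraph.Walk.support_cons]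
    by_cases hb : Bel r par u b
    · rcases hr.cov _ _ hadj with ⟨h3, h4⟩ | ⟨h3, h4⟩
      · exact absurd (Bel.step _ h3 (by rw [h4]; exact hb)) h1
      · cases hb with
        | refl => exact List.mem_cons_of_mem _ (SimpleGraph.Walk.start_mem_support _)
        | step _ h5 h6 =>
          rw [h4] at h6
          exact absurd h6 h1
    · exact List.mem_cons_of_mem _ (ih hb h2)

/-- a walk out of the set of the vertices below `u` goes through the parent of `u` -/
theorem cross_out (hr : Root T r par) {u : V} {a c : V} (q : T.Walk a c) :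
    Bel r par u a → ¬ Bel r par u c → par u ∈ q.support := by
  induction q with
  | nil =>
    intro h1 h2
    exact absurd h1 h2
  | @cons a b c hadj q ih =>
    intro h1 h2
    rw [SimpleGraph.Walk.support_cons]
    by_cases hb : Bel r par u b
    · exact List.mem_cons_of_mem _ (ih hb h2)
    · rcases hr.cov _ _ hadj with ⟨h3, h4⟩ | ⟨h3, h4⟩
      · cases h1 with
        | refl =>
          rw [h4]
          exact List.mem_cons_of_mem _ (SimpleGraph.Walk.start_mem_support _)
        | step _ h5 h6 =>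
          rw [h4] at h6
          exact absurd h6 hb
      · exact absurd (Bel.step _ h3 (by rw [h4]; exact h1)) hb

theorem anc_walk (hr : Root T r par) : ∀ (n : ℕ) (y : V), T.dist r y ≤ n →
    ∃ q : T.Walk r y, ∀ z ∈ q.support, Bel r par z y := by
  intro n
  induction n with
  | zero =>
    intro y hy
    by_cases h : y = r
    · subst h
      refine ⟨SimpleGraph.Walk.nil, ?_⟩
      intro z hz
      rw [SimpleGraph.Walk.support_nil, List.mem_singleton] at hz
      rw [hz]
      exact Bel.refl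
    · have := hr.dist y h
      omega
  | succ n ih =>
    intro y hy
    by_cases h : y = r
    · subst h
      refine ⟨SimpleGraph.Walk.nil, ?_⟩
      intro z hz
      rw [SimpleGraph.Walk.support_nil, List.mem_singleton] at hz
      rw [hz]
      exact Bel.refl
    · have h1 := hr.dist y h
      obtain ⟨q, hq⟩ := ih (par y) (by omega)
      refine ⟨q.concat (hr.adj y h), ?_⟩
      intro z hz
      rw [SimpleGraph.Walk.support_concat, List.mem_append, List.mem_singleton] at hz
      rcases hz with hz | hz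
      · exact Bel.step _ h (hq z hz)
      · rw [hz]
        exact Bel.refl

theorem bel_of_walks (hr : Root T r par) {u y : V} (h : ∀ q : T.Walk r y, u ∈ q.support) :
    Bel r par u y := by
  obtain ⟨q, hq⟩ := anc_walk hr _ y le_rfl
  exact hq u (h q)

theorem bel_of_path (hT : T.IsTree) (hr : Root T r par) {u y : V} (q : T.Walk r y)
    (hq : q.IsPath) (hu : u ∈ q.support) : Bel r par u y := by
  classical
  obtain ⟨q', hq'⟩ := anc_walk hr _ y le_rfl
  have h1 : (⟨q, hq⟩ : T.Path r y) = q'.toPath := (hT.isAcyclic.subsingleton_path _ _).elim _ _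
  apply hq'
  apply SimpleGraph.Walk.support_toPath_subset_support
  rw [← h1]
  exact hu

end walks

/-- there is a root for which the branching vertices form a chain -/
theorem exists_chain {V : Type} [Fintype V] (T : SimpleGraph V) (hT : T.IsTree)
    (hD : (DL T).Nonempty)
    (hp : ∃ (x y : V) (q : T.Walk x y), q.IsPath ∧ ∀ z ∈ Br T, z ∈ q.support) :
    ∃ r ∈ DL T, ∃ par : V → V, Root T r par ∧
      ∀ b ∈ Br T, ∀ b' ∈ Br T, Bel r par b b' ∨ Bel r par b' b := by
  classical
  rcases (Br T).eq_empty_or_nonempty with he | hne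
  · obtain ⟨r, hr⟩ := hD
    obtain ⟨par, hpar⟩ := exists_root T hT r
    refine ⟨r, hr, par, hpar, ?_⟩
    intro b hb
    rw [he] at hb
    exact absurd hb (Set.notMem_empty b)
  obtain ⟨x, y, q, hq, hz⟩ := hp
  obtain ⟨par, hx⟩ := exists_root T hT x
  have hanc : ∀ z ∈ Br T, Bel x par z y := fun z h => bel_of_path hT hx q hq (hz z h)
  obtain ⟨b1, hb1, hmin⟩ := Set.exists_min_image (Br T) (fun b => T.dist x b) (Set.toFinite _) hne
  have hb1c : ∀ b ∈ Br T, Bel x par b1 b := by
    intro b hb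
    rcases (hanc b1 hb1).chain (hanc b hb) with h | h
    · exact h
    · have h1 := hmin b hb
      cases h with
      | refl => exact Bel.refl
      | step _ h2 h3 =>
        have h4 := h3.dist hx
        have h5 := hx.dist b1 h2
        omega
  -- a child of `b1` off the path
  obtain ⟨w, hw1, hw2, hw3, hw4⟩ : ∃ w, w ≠ x ∧ par w = b1 ∧ 2 ≤ (T.neighborSet w).ncard ∧
      ¬ Bel x par w y := by
    by_contra hcon
    push Not at hcon
    have h3 : 2 < {y : V | T.Adj b1 y ∧ 2 ≤ (T.neighborSet y).ncard}.ncard := hb1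
    obtain ⟨a, b, c, ha, hb, hc, hab, hac, hbc⟩ := (Set.two_lt_ncard_iff (Set.toFinite _)).1 h3
    have aux : ∀ z ∈ {y : V | T.Adj b1 y ∧ 2 ≤ (T.neighborSet y).ncard},
        z = par b1 ∨ (z ≠ x ∧ par z = b1 ∧ Bel x par z y) := by
      rintro z ⟨hz1, hz2⟩
      rcases hx.cov _ _ hz1 with ⟨h4, h5⟩ | ⟨h4, h5⟩
      · exact Or.inl h5.symm
      · exact Or.inr ⟨h4, h5, hcon z h4 h5 hz2⟩
    have two : ∀ z z' : V, z ≠ z' → (z ≠ x ∧ par z = b1 ∧ Bel x par z y) →
        (z' ≠ x ∧ par z' = b1 ∧ Bel x par z' y) → False := by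
      rintro z z' hzz ⟨h4, h5, h6⟩ ⟨h7, h8, h9⟩
      exact Bel.disj hx h4 h7 hzz (h5.trans h8.symm) h6 h9
    rcases aux a ha with h4 | h4 <;> rcases aux b hb with h5 | h5 <;>
      rcases aux c hc with h6 | h6
    · exact hab (h4.trans h5.symm)
    · exact hab (h4.trans h5.symm)
    · exact hac (h4.trans h6.symm)
    · exact two b c hbc h5 h6
    · exact hbc (h5.trans h6.symm)
    · exact two a c hac h4 h6
    · exact two a b hab h4 h5
    · exact two a b hab h4 h5
  -- the end of the branch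
  obtain ⟨r, ⟨hr1, hr2⟩, hmax⟩ := Set.exists_max_image
    {u : V | 2 ≤ (T.neighborSet u).ncard ∧ Bel x par w u} (fun u => T.dist x u) (Set.toFinite _)
    ⟨w, hw3, Bel.refl⟩
  have hrD : r ∈ DL T := by
    refine ⟨hr1, ?_⟩
    have aux : ∀ z ∈ {y : V | T.Adj r y ∧ 2 ≤ (T.neighborSet y).ncard}, z = par r := by
      rintro z ⟨hz1, hz2⟩
      rcases hx.cov _ _ hz1 with ⟨h4, h5⟩ | ⟨h4, h5⟩
      · exact h5.symm
      · exfalso
        have h6 := hmax z ⟨hz2, Bel.step z h4 (by rw [h5]; exact hr2)⟩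
        have h7 := hx.dist z h4
        rw [h5] at h7
        omega
    refine (Set.ncard_le_one (Set.toFinite _)).2 ?_
    intro a ha b hb
    rw [aux a ha, aux b hb]
  obtain ⟨par', hr'⟩ := exists_root T hT r
  have main : ∀ b ∈ Br T, ∀ b' ∈ Br T, Bel x par b b' → Bel r par' b b' := by
    intro b hb b' hb' hbb
    apply bel_of_walks hr'
    intro q'
    by_cases hbb1 : b = b1
    · subst hbb1
      have := cross_out hx q' hr2 (fun h => hw4 (h.trans (hanc b' hb')))
      rw [hw2] at this
      exact this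
    · refine cross_in hx q' ?_ hbb
      intro h
      rcases h.chain hr2 with h1 | h1
      · cases h1 with
        | refl => exact hw4 (hanc _ hb)
        | step _ h2 h3 =>
          rw [hw2] at h3
          exact hbb1 (antisymm hx h3 (hb1c b hb))
      · exact hw4 (h1.trans (hanc b hb))
  refine ⟨r, hrD, par', hr', ?_⟩
  intro b hb b' hb'
  rcases (hanc b hb).chain (hanc b' hb') with h | h
  · exact Or.inl (main b hb b' hb' h)
  · exact Or.inr (main b' hb' b hb h)

section key

variable {V : Type} {T : SimpleGraph V} {r : V} {par : V → V}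

open Classical in
/-- the key: is there a branching vertex below `u`? -/
noncomputable def ky (T : SimpleGraph V) (r : V) (par : V → V) (u : V) : ℕ :=
  if ∃ b ∈ Br T, Bel r par u b then 1 else 0

theorem ky_le (u : V) : ky T r par u ≤ 1 := by
  unfold ky
  split_ifs <;> omega

theorem ky_pos {u : V} : 1 ≤ ky T r par u ↔ ∃ b ∈ Br T, Bel r par u b := by
  unfold ky
  split_ifs with h
  · exact ⟨fun _ => h, fun _ => le_rfl⟩
  · exact ⟨fun h1 => absurd h1 (by omega), fun h1 => absurd h1 h⟩

end key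

section main

variable {V : Type} [Fintype V] {T : SimpleGraph V} {r : V} {par : V → V} {key : V → ℕ} {m : ℕ}
  {v : ℕ → V} {p : ℕ → ℕ} {Js : Finset ℕ}

/-- the parent of two siblings with children branches -/
theorem br_of_sib (hrD : r ∈ DL T) (D : Dfs T r key m v p Js) {a b : ℕ} (ha : 1 ≤ a)
    (hab : a < b) (hb : b ≤ m) (hp : p a = p b) (hNa : NL m p a) (hNb : NL m p b) :
    v (p a) ∈ Br T := by
  have hlt := D.enum.lt a ha (by omega)
  have hva : T.Adj (v (p a)) (v a) := (adj_p D ha (by omega)).symm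
  have hvb : T.Adj (v (p a)) (v b) := by
    rw [hp]
    exact (adj_p D (by omega) hb).symm
  have hda := (deg D ha (by omega)).2 hNa
  have hdb := (deg D (by omega) hb).2 hNb
  rcases Nat.eq_zero_or_pos (p a) with h | h
  · exfalso
    rw [h, D.zero] at hva hvb
    have h7 := (Set.ncard_le_one (Set.toFinite _)).1 hrD.2 (v a) ⟨hva, hda⟩ (v b) ⟨hvb, hdb⟩
    have := D.inj _ _ (by omega) hb h7
    omega
  · have hlt2 := D.enum.lt (p a) h (by omega)
    refine (Set.two_lt_ncard_iff (Set.toFinite _)).2 ⟨v a, v b, v (p (p a)), ⟨hva, hda⟩,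
      ⟨hvb, hdb⟩, ⟨adj_p D h (by omega), degp hrD D h (by omega)⟩, ?_, ?_, ?_⟩
    · intro h1
      have := D.inj _ _ (by omega) hb h1
      omega
    · intro h1
      have := D.inj _ _ (by omega) (by omega) h1
      omega
    · intro h1
      have := D.inj _ _ hb (by omega) h1
      omega

/-- a branching vertex has two children with children -/
theorem sib_of_br (D : Dfs T r key m v p Js) {y : ℕ} (h1 : 1 ≤ y) (h2 : y ≤ m)
    (hy : v y ∈ Br T) : ∃ x1 x2, 1 ≤ x1 ∧ x1 < x2 ∧ x2 ≤ m ∧ p x1 = y ∧ p x2 = y ∧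
      NL m p x1 ∧ NL m p x2 := by
  have h3 : 2 < {z : V | T.Adj (v y) z ∧ 2 ≤ (T.neighborSet z).ncard}.ncard := hy
  obtain ⟨a, b, c, ha, hb, hc, hab, hac, hbc⟩ := (Set.two_lt_ncard_iff (Set.toFinite _)).1 h3
  have aux : ∀ z ∈ {z : V | T.Adj (v y) z ∧ 2 ≤ (T.neighborSet z).ncard},
      z = v (p y) ∨ ∃ i, 1 ≤ i ∧ i ≤ m ∧ p i = y ∧ v i = z ∧ NL m p i := by
    rintro z ⟨hz1, hz2⟩
    obtain ⟨i, hi1, hi2, h6⟩ := (D.adj _ _).1 hz1
    have h7 := D.enum.lt i hi1 hi2
    rcases h6 with ⟨h8, h9⟩ | ⟨h8, h9⟩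
    · left
      rw [← h9, D.inj i y hi2 h2 h8]
    · right
      rw [← h8] at hz2
      exact ⟨i, hi1, hi2, D.inj _ _ (by omega) h2 h9, h8, (deg D hi1 hi2).1 hz2⟩
  have two : ∀ z z' : V, z ≠ z' → (∃ i, 1 ≤ i ∧ i ≤ m ∧ p i = y ∧ v i = z ∧ NL m p i) →
      (∃ i, 1 ≤ i ∧ i ≤ m ∧ p i = y ∧ v i = z' ∧ NL m p i) →
      ∃ x1 x2, 1 ≤ x1 ∧ x1 < x2 ∧ x2 ≤ m ∧ p x1 = y ∧ p x2 = y ∧ NL m p x1 ∧ NL m p x2 := by
    rintro z z' hne ⟨i, hi1, hi2, hi3, hi4, hi5⟩ ⟨j, hj1, hj2, hj3, hj4, hj5⟩
    rcases Nat.lt_trichotomy i j with h | h | h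
    · exact ⟨i, j, hi1, h, hj2, hi3, hj3, hi5, hj5⟩
    · exact absurd (by rw [← hi4, ← hj4, h]) hne
    · exact ⟨j, i, hj1, h, hi2, hj3, hi3, hj5, hi5⟩
  rcases aux a ha with h4 | h4 <;> rcases aux b hb with h5 | h5 <;>
    rcases aux c hc with h6 | h6
  · exact absurd (h4.trans h5.symm) hab
  · exact absurd (h4.trans h5.symm) hab
  · exact absurd (h4.trans h6.symm) hac
  · exact two b c hbc h5 h6
  · exact absurd (h5.trans h6.symm) hbc
  · exact two a c hac h4 h6
  · exact two a b hab h4 h5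
  · exact two a b hab h4 h5

theorem cert (hr : Root T r par) (hrD : r ∈ DL T)
    (hch : ∀ b ∈ Br T, ∀ b' ∈ Br T, Bel r par b b' ∨ Bel r par b' b)
    (D : Dfs T r (ky T r par) m v p Js) :
    Cert m p Js (fun a => ky T r par (v a)) 1 where
  sib := by
    intro a b ha hab hb hp hNa hNb
    show ky T r par (v a) < ky T r par (v (p a))
    have h1 : 1 ≤ ky T r par (v (p a)) :=
      ky_pos.2 ⟨_, br_of_sib hrD D ha hab hb hp hNa hNb, Bel.refl⟩
    by_contra hcon
    have h2 : 1 ≤ ky T r par (v a) := by omega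
    have h3 : 1 ≤ ky T r par (v b) := le_trans h2 (D.srt a b ha hab hb hp hNa hNb)
    obtain ⟨b1, hb1, hb1'⟩ := ky_pos.1 h2
    obtain ⟨b2, hb2, hb2'⟩ := ky_pos.1 h3
    have hne : v a ≠ v b := fun h => by
      have := D.inj _ _ (by omega) hb h
      omega
    have hpp : par (v a) = par (v b) := by
      rw [par_v hr D a ha (by omega), par_v hr D b (by omega) hb, hp]
    have hva := v_ne D ha (by omega)
    have hvb := v_ne D (i := b) (by omega) hb
    rcases hch b1 hb1 b2 hb2 with h | h
    · exact Bel.disj hr hva hvb hne hpp (hb1'.trans h) hb2'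
    · exact Bel.disj hr hva hvb hne hpp hb1' (hb2'.trans h)
  par := by
    intro a ha1 ha2 _
    show ky T r par (v a) ≤ ky T r par (v (p a))
    rcases Nat.eq_zero_or_pos (ky T r par (v a)) with h | h
    · omega
    · obtain ⟨b, hb, hb'⟩ := ky_pos.1 h
      have h1 : 1 ≤ ky T r par (v (p a)) := by
        refine ky_pos.2 ⟨b, hb, Bel.trans ?_ hb'⟩
        rw [← par_v hr D a ha1 ha2]
        exact Bel.step _ (v_ne D ha1 ha2) Bel.refl
      have h2 := ky_le (T := T) (r := r) (par := par) (v a)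
      omega
  pos := by
    intro a ha1 ha2 h
    obtain ⟨z, hz, hz'⟩ := ky_pos.1 h
    obtain ⟨y, hy, rfl⟩ := D.surj z
    have h3 := anc_of_bel hr D ha2 hz' y hy rfl
    have h5 := h3.le D.enum
    obtain ⟨x1, x2, hx1, hx12, hx2, hp1, hp2, hN1, hN2⟩ := sib_of_br D (by omega) hy hz
    have h6 := D.enum.lt x2 (by omega) hx2
    refine ⟨x2, (D.jmp x2).2 ⟨by omega, hx2, hN2, x1, hx1, hx12, by rw [hp1, hp2], hN1⟩,
      by omega, ?_⟩
    intro x h7 h8
    refine inter D.enum D.dfs (by omega) h7 x2 h8 (Anc.step x2 (by omega) hx2 ?_)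
    rw [hp2]
    exact h3
  max := by
    intro a _ _
    exact ky_le _

end main

end PathC

theorem path_holds : PathStm := by
  intro V _ T hT hD hp
  obtain ⟨r, hrD, par, hr, hch⟩ := PathC.exists_chain T hT hD hp
  exact ⟨r, hrD, PathC.ky T r par, fun v p Js D => PathC.cert hr hrD hch D⟩

end Pool.Agent.TH368.GD
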