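import Pool.Agent.TH56.CT.Wrd
import Pool.Agent.TH368.GD.Defs2

/-!
# The steps for lobsters

For a jump `l` let `F l` be the first child of `p l` which has children. The vertex `i` is placed at
the step `i + #{l | F l < i}`.
-/

set_option autoImplicit false

namespace Pool.Agent.TH368.GD

open Finset
open Pool.Agent.TH56.CT (Enum Good cn sg cn_succ cn_zero cn_congr cn_mono cn_add cn_lt cn_const
  cn_const' exists_class)

namespace WLob

/-- the hypotheses, together with the first children which have children -/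
structure Hyp (m : ℕ) (p : ℕ → ℕ) (Js : Finset ℕ) (F : ℕ → ℕ) : Prop where
  enum : Enum m p Js
  dfs : ∀ i j, 1 ≤ i → i < j → j ≤ m → p j < i → p j ≤ p i
  nlj : ∀ k ∈ Js, NL m p k
  lob : Lob m p
  one : ∀ l ∈ Js, 1 ≤ F l
  lt : ∀ l ∈ Js, F l < l
  par : ∀ l ∈ Js, p (F l) = p l
  nl : ∀ l ∈ Js, NL m p (F l)
  min : ∀ l ∈ Js, ∀ a, 1 ≤ a → p a = p l → NL m p a → F l ≤ a

section A

variable {m : ℕ} {p : ℕ → ℕ} {Js : Finset ℕ} {F : ℕ → ℕ}

theorem Hyp.basic (h : Hyp m p Js F) {l : ℕ} (hl : l ∈ Js) :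
    p l < F l ∧ F l < l ∧ l ≤ m ∧ 1 ≤ F l := by
  have h1 := h.enum.sub l hl
  have h2 := h.lt l hl
  have h3 := h.one l hl
  have h4 := h.par l hl
  have h5 := h.enum.lt (F l) h3 (by omega)
  omega

/-- the vertices between the parent and the first child with children -/
theorem Hyp.A (h : Hyp m p Js F) {l : ℕ} (hl : l ∈ Js) :
    ∀ i, p l < i → i ≤ F l → p i = p l := by
  intro i
  induction i using Nat.strong_induction_on with
  | _ i ih =>
    intro h1 h2
    obtain ⟨b1, b2, b3, b4⟩ := h.basic hl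
    rcases h2.lt_or_eq with h3 | h3
    · have h4 := h.dfs i (F l) (by omega) h3 (by omega) (by rw [h.par l hl]; exact h1)
      rw [h.par l hl] at h4
      by_contra hne
      have h5 := h.enum.lt i (by omega) (by omega)
      have h6 := ih (p i) h5 (by omega) (by omega)
      have h7 := h.min l hl (p i) (by omega) h6 ⟨i, by omega, by omega, rfl⟩
      omega
    · rw [h3]
      exact h.par l hl

/-- the vertex after the first child with children -/
theorem Hyp.B (h : Hyp m p Js F) {l : ℕ} (hl : l ∈ Js) : p (F l + 1) = F l := by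
  obtain ⟨b1, b2, b3, b4⟩ := h.basic hl
  obtain ⟨j, h1, h2, h3⟩ := h.nl l hl
  have h4 := h.enum.lt j h1 h2
  rcases (show F l + 1 ≤ j by omega).lt_or_eq with h5 | h5
  · have h6 := h.dfs (F l + 1) j (by omega) h5 h2 (by omega)
    have h7 := h.enum.lt (F l + 1) (by omega) (by omega)
    omega
  · rw [h5, h3]

theorem Hyp.up (h : Hyp m p Js F) {l : ℕ} (hl : l ∈ Js) {i : ℕ} (h1 : p l < i) (h2 : i ≤ l) :
    p l ≤ p i := by
  obtain ⟨b1, b2, b3, b4⟩ := h.basic hl
  rcases h2.lt_or_eq with h3 | h3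
  · exact h.dfs i l (by omega) h3 b3 h1
  · rw [h3]

/-- the vertices between the parent and the jump -/
theorem Hyp.C (h : Hyp m p Js F) {l : ℕ} (hl : l ∈ Js) :
    ∀ i, p l < i → i ≤ l → p i = p l ∨ (p l < p i ∧ p (p i) = p l) := by
  intro i
  induction i using Nat.strong_induction_on with
  | _ i ih =>
    intro h1 h2
    obtain ⟨b1, b2, b3, b4⟩ := h.basic hl
    have h3 := h.up hl h1 h2
    rcases h3.lt_or_eq with h4 | h4
    · right
      refine ⟨h4, ?_⟩
      have h5 := h.enum.lt i (by omega) (by omega)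
      rcases ih (p i) h5 h4 (by omega) with h6 | ⟨h6, h7⟩
      · exact h6
      · exfalso
        have h8 := h.enum.lt (p i) (by omega) (by omega)
        have hil : i ≤ m := by omega
        exact h.lob (p (p i)) l (by omega) (by omega) b3 h7 ⟨p i, by omega, by omega, rfl⟩
          (h.nlj l hl) (p i) (by omega) (by omega) rfl ⟨i, by omega, hil, rfl⟩
    · exact Or.inl h4.symm

/-- the further children are jumps -/
theorem Hyp.D (h : Hyp m p Js F) {l : ℕ} (hl : l ∈ Js) :
    ∀ i, F l < i → i ≤ m → p i = p l → i ∈ Js := by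
  intro i
  induction i using Nat.strong_induction_on with
  | _ i ih =>
    intro h1 h2 h3
    obtain ⟨b1, b2, b3, b4⟩ := h.basic hl
    by_contra hno
    rcases h.enum.reg i (by omega) h2 hno with h4 | ⟨h4, h5, h6⟩
    · omega
    · rcases (show F l ≤ i - 1 by omega).lt_or_eq with h7 | h7
      · exact h5 (ih (i - 1) (by omega) h7 (by omega) (by omega))
      · have h8 := h.B hl
        have h9 : F l + 1 = i := by omega
        rw [h9] at h8
        omega

/-- the first children of different groups -/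
theorem Hyp.eqF (h : Hyp m p Js F) {l k : ℕ} (hl : l ∈ Js) (hk : k ∈ Js) (hp : p k = p l) :
    F k = F l := by
  have h1 := h.min l hl (F k) (h.one k hk) (by rw [h.par k hk, hp]) (h.nl k hk)
  have h2 := h.min k hk (F l) (h.one l hl) (by rw [h.par l hl, hp]) (h.nl l hl)
  omega

/-- no other group begins between -/
theorem Hyp.E (h : Hyp m p Js F) {l k : ℕ} (hl : l ∈ Js) (hk : k ∈ Js) (h1 : F l < F k)
    (h2 : F k < l) : False := by
  obtain ⟨b1, b2, b3, b4⟩ := h.basic hl
  obtain ⟨d1, d2, d3, d4⟩ := h.basic hk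
  rcases h.C hl (F k) (by omega) (by omega) with h3 | ⟨h3, h4⟩
  · rw [h.par k hk] at h3
    have := h.eqF hl hk h3
    omega
  · have h5 := h.enum.lt (F k) (by omega) (by omega)
    exact h.lob (p (F k)) l (by omega) (by omega) b3 h4 ⟨F k, by omega, by omega, rfl⟩
      (h.nlj l hl) (F k) (by omega) (by omega) rfl (h.nl k hk)

end A

/-- the step of the vertex `i` -/
def S (Js : Finset ℕ) (F : ℕ → ℕ) (i : ℕ) : ℕ := i + (Js.filter (fun l => F l < i)).card

theorem S_succ (Js : Finset ℕ) (F : ℕ → ℕ) (i : ℕ) :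
    S Js F (i + 1) = S Js F i + 1 + (Js.filter (fun l => F l = i)).card := by
  unfold S
  have h : Js.filter (fun l => F l < i + 1) =
      Js.filter (fun l => F l < i) ∪ Js.filter (fun l => F l = i) := by
    ext l
    simp only [mem_union, mem_filter]
    constructor
    · rintro ⟨h1, h2⟩
      rcases Nat.lt_succ_iff_lt_or_eq.1 h2 with h3 | h3
      · exact Or.inl ⟨h1, h3⟩
      · exact Or.inr ⟨h1, h3⟩
    · rintro (⟨h1, h2⟩ | ⟨h1, h2⟩)
      · exact ⟨h1, by omega⟩
      · exact ⟨h1, by omega⟩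
  rw [h, card_union_of_disjoint]
  · omega
  · rw [disjoint_left]
    intro x hx hy
    rw [mem_filter] at hx hy
    omega

theorem S_zero (Js : Finset ℕ) (F : ℕ → ℕ) : S Js F 0 = 0 := by
  unfold S
  simp

theorem S_mono (Js : Finset ℕ) (F : ℕ → ℕ) : StrictMono (S Js F) :=
  strictMono_nat_of_lt_succ (fun i => by rw [S_succ]; omega)

theorem ex (Js : Finset ℕ) (F : ℕ → ℕ) (t : ℕ) : ∃ i, t ≤ S Js F i :=
  ⟨t, by unfold S; omega⟩

/-- the vertex at the step `t`, or the first one after it -/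
def idx (Js : Finset ℕ) (F : ℕ → ℕ) (t : ℕ) : ℕ := Nat.find (ex Js F t)

theorem idx_spec (Js : Finset ℕ) (F : ℕ → ℕ) (t : ℕ) : t ≤ S Js F (idx Js F t) :=
  Nat.find_spec (ex Js F t)

theorem idx_le {Js : Finset ℕ} {F : ℕ → ℕ} {t i : ℕ} (h : t ≤ S Js F i) : idx Js F t ≤ i :=
  Nat.find_min' (ex Js F t) h

theorem lt_idx {Js : Finset ℕ} {F : ℕ → ℕ} {t i : ℕ} (h : S Js F i < t) : i < idx Js F t := by
  by_contra hno
  have h1 := (S_mono Js F).monotone (not_lt.1 hno)
  have h2 := idx_spec Js F t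
  omega

theorem idx_between {Js : Finset ℕ} {F : ℕ → ℕ} {t i : ℕ} (h1 : S Js F i < t)
    (h2 : t ≤ S Js F (i + 1)) : idx Js F t = i + 1 := by
  have h3 := lt_idx h1
  have h4 := idx_le h2
  omega

theorem idx_S (Js : Finset ℕ) (F : ℕ → ℕ) (i : ℕ) : idx Js F (S Js F i) = i := by
  apply le_antisymm (idx_le le_rfl)
  by_contra hno
  have h1 := (S_mono Js F) (not_le.1 hno)
  have h2 := idx_spec Js F (S Js F i)
  omega

/-- the number of children of `u` in `[f, i)` -/
def J (p : ℕ → ℕ) (f u i : ℕ) : ℕ := ((range i).filter (fun x => f ≤ x ∧ p x = u)).card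

theorem J_succ (p : ℕ → ℕ) (f u i : ℕ) :
    J p f u (i + 1) = J p f u i + if f ≤ i ∧ p i = u then 1 else 0 := by
  unfold J
  rw [range_add_one, filter_insert]
  split_ifs with h
  · rw [card_insert_of_notMem (by simp)]
  · rfl

theorem J_mono (p : ℕ → ℕ) (f u : ℕ) {i j : ℕ} (h : i ≤ j) : J p f u i ≤ J p f u j := by
  unfold J
  exact card_le_card (filter_subset_filter _ (range_subset_range.2 h))

theorem J_self (p : ℕ → ℕ) (f u : ℕ) : J p f u f = 0 := by
  unfold J
  rw [card_eq_zero, filter_eq_empty_iff]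
  intro x hx
  rw [mem_range] at hx
  omega

section B

variable {m : ℕ} {p : ℕ → ℕ} {Js : Finset ℕ} {F : ℕ → ℕ} {κ : ℕ → Bool}

/-- the step after a vertex between -/
theorem Hyp.step (h : Hyp m p Js F) {l : ℕ} (hl : l ∈ Js) {i : ℕ} (h1 : F l < i) (h2 : i < l) :
    S Js F (i + 1) = S Js F i + 1 := by
  rw [S_succ]
  have h3 : Js.filter (fun k => F k = i) = ∅ := by
    rw [filter_eq_empty_iff]
    intro k hk hki
    exact h.E hl hk (by omega) (by omega)
  rw [h3, card_empty]

/-- the number of steps of class `κ (F l)` -/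
theorem Hyp.cnt (h : Hyp m p Js F) (hκ : ∀ i, 1 ≤ i → i ≤ m → κ i = !κ (p i)) {l : ℕ}
    (hl : l ∈ Js) : ∀ i, F l < i → i ≤ l →
    cn (fun t => κ (idx Js F t)) (κ (F l)) (S Js F i) =
      cn (fun t => κ (idx Js F t)) (κ (F l)) (S Js F (F l)) + J p (F l) (p l) i := by
  obtain ⟨b1, b2, b3, b4⟩ := h.basic hl
  have hB := h.B hl
  have hκf : κ (F l) = !κ (p l) := by rw [hκ (F l) b4 (by omega), h.par l hl]
  have hκf1 : κ (F l + 1) = !κ (F l) := by rw [hκ (F l + 1) (by omega) (by omega), hB]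
  intro i h1
  induction i, h1 using Nat.le_induction with
  | base =>
    intro h2
    have h3 := S_mono Js F (show F l < F l + 1 by omega)
    obtain ⟨x, hx⟩ := Nat.exists_eq_add_of_le
      (show S Js F (F l) + 1 ≤ S Js F (F l + 1) by omega)
    have h4 := cn_const' (c := fun t => κ (idx Js F t)) (b := !κ (F l)) (N := S Js F (F l) + 1) x
      (by
        intro t ht1 ht2
        have h5 : idx Js F t = F l + 1 := idx_between (by omega) (by omega)
        show κ (idx Js F t) = _
        rw [h5, hκf1])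
    rw [Bool.not_not, ← hx] at h4
    show cn (fun t => κ (idx Js F t)) (κ (F l)) (S Js F (F l + 1)) =
      cn (fun t => κ (idx Js F t)) (κ (F l)) (S Js F (F l)) + J p (F l) (p l) (F l + 1)
    rw [h4, cn_succ, if_pos (by show κ (idx Js F (S Js F (F l))) = _; rw [idx_S]), J_succ, J_self,
      if_pos ⟨le_rfl, h.par l hl⟩]
  | succ i hi ih =>
    intro h2
    have hi' : F l < i := hi
    rw [h.step hl hi' (by omega), cn_succ, ih (by omega), J_succ, Nat.add_assoc]
    congr 2
    have h3 : κ (idx Js F (S Js F i)) = κ i := by rw [idx_S]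
    have h4 := hκ i (by omega) (by omega)
    rcases h.C hl i (by omega) (by omega) with h5 | ⟨h5, h6⟩
    · rw [if_pos (by show κ (idx Js F (S Js F i)) = _; rw [h3, h4, h5, hκf]),
        if_pos ⟨by omega, h5⟩]
    · have h7 := h.enum.lt i (by omega) (by omega)
      have h8 := hκ (p i) (by omega) (by omega)
      rw [if_neg, if_neg (by omega)]
      show ¬ κ (idx Js F (S Js F i)) = _
      rw [h3, h4, h8, h6, hκf]
      cases κ (p l) <;> simp

/-- the steps between the parent and the first child with children -/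
theorem Hyp.par_cnt (h : Hyp m p Js F) (hκ : ∀ i, 1 ≤ i → i ≤ m → κ i = !κ (p i)) {l : ℕ}
    (hl : l ∈ Js) : cn (fun t => κ (idx Js F t)) (κ (p l)) (S Js F (F l)) =
      cn (fun t => κ (idx Js F t)) (κ (p l)) (S Js F (p l)) + 1 := by
  obtain ⟨b1, b2, b3, b4⟩ := h.basic hl
  have h3 := S_mono Js F b1
  obtain ⟨x, hx⟩ := Nat.exists_eq_add_of_le (show S Js F (p l) + 1 ≤ S Js F (F l) by omega)
  have h4 := cn_const' (c := fun t => κ (idx Js F t)) (b := !κ (p l)) (N := S Js F (p l) + 1) x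
    (by
      intro t ht1 ht2
      have h5 := lt_idx (Js := Js) (F := F) (i := p l) (t := t) (by omega)
      have h6 := idx_le (Js := Js) (F := F) (i := F l) (t := t) (by omega)
      show κ (idx Js F t) = _
      rw [hκ (idx Js F t) (by omega) (by omega), h.A hl _ h5 h6])
  rw [Bool.not_not, ← hx] at h4
  rw [h4, cn_succ, if_pos (by show κ (idx Js F (S Js F (p l))) = _; rw [idx_S])]

theorem Hyp.sg (h : Hyp m p Js F) (hκ : ∀ i, 1 ≤ i → i ≤ m → κ i = !κ (p i)) {l : ℕ}
    (hl : l ∈ Js) : Pool.Agent.TH56.CT.sg (fun t => κ (idx Js F t)) (S Js F) p l =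
      S Js F (F l) + J p (F l) (p l) l := by
  obtain ⟨b1, b2, b3, b4⟩ := h.basic hl
  unfold Pool.Agent.TH56.CT.sg
  have e1 : κ (idx Js F (S Js F l)) = κ (F l) := by
    rw [idx_S, hκ l (by omega) b3, hκ (F l) b4 (by omega), h.par l hl]
  have e2 : κ (idx Js F (S Js F (p l))) = κ (p l) := by rw [idx_S]
  show cn _ (κ (idx Js F (S Js F l))) _ + cn _ (κ (idx Js F (S Js F (p l)))) _ + 1 = _
  rw [e1, e2, h.cnt hκ hl l b2 le_rfl]
  have h1 := h.par_cnt hκ hl
  have h2 := cn_add (fun t => κ (idx Js F t)) (κ (F l)) (S Js F (F l))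
  have h3 : (!κ (F l)) = κ (p l) := by
    rw [hκ (F l) b4 (by omega), h.par l hl, Bool.not_not]
  rw [h3] at h2
  omega

theorem Hyp.J_pos (h : Hyp m p Js F) {l : ℕ} (hl : l ∈ Js) : 1 ≤ J p (F l) (p l) l := by
  obtain ⟨b1, b2, b3, b4⟩ := h.basic hl
  have h1 := J_mono p (F l) (p l) (show F l + 1 ≤ l by omega)
  rw [J_succ, J_self, if_pos ⟨le_rfl, h.par l hl⟩] at h1
  omega

theorem Hyp.J_le (h : Hyp m p Js F) {l : ℕ} (hl : l ∈ Js) :
    J p (F l) (p l) l ≤ (Js.filter (fun k => F k = F l)).card := by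
  obtain ⟨b1, b2, b3, b4⟩ := h.basic hl
  have h1 := J_succ p (F l) (p l) l
  rw [if_pos ⟨by omega, rfl⟩] at h1
  have h2 : J p (F l) (p l) (l + 1) ≤ (insert (F l) (Js.filter (fun k => F k = F l))).card := by
    unfold J
    apply card_le_card
    intro x hx
    rw [mem_filter, mem_range] at hx
    obtain ⟨h3, h4, h5⟩ := hx
    rw [mem_insert]
    rcases h4.lt_or_eq with h6 | h6
    · right
      have h7 := h.D hl x h6 (by omega) h5
      rw [mem_filter]
      exact ⟨h7, h.eqF hl h7 h5⟩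
    · exact Or.inl h6.symm
  have h3 := card_insert_le (F l) (Js.filter (fun k => F k = F l))
  omega

theorem Hyp.between (h : Hyp m p Js F) (hκ : ∀ i, 1 ≤ i → i ≤ m → κ i = !κ (p i)) {l : ℕ}
    (hl : l ∈ Js) :
    S Js F (F l) < Pool.Agent.TH56.CT.sg (fun t => κ (idx Js F t)) (S Js F) p l ∧
    Pool.Agent.TH56.CT.sg (fun t => κ (idx Js F t)) (S Js F) p l < S Js F (F l + 1) := by
  rw [h.sg hκ hl, S_succ]
  have h1 := h.J_pos hl
  have h2 := h.J_le hl
  omega

theorem Hyp.good (h : Hyp m p Js F) (hm : 1 ≤ m) (hκ0 : κ 0 = false)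
    (hκ : ∀ i, 1 ≤ i → i ≤ m → κ i = !κ (p i)) :
    Good m p Js (S Js F m) (fun t => κ (idx Js F t)) (S Js F) := by
  refine ⟨?_, ?_, S_zero Js F, rfl, fun i j hij _ => S_mono Js F hij, ?_, ?_, ?_, ?_⟩
  · show κ (idx Js F 0) = false
    have h1 : idx Js F 0 = 0 := by
      have := idx_le (Js := Js) (F := F) (t := 0) (i := 0) (Nat.zero_le _)
      omega
    rw [h1, hκ0]
  · show κ (idx Js F 1) = true
    have h0 := S_mono Js F (show 0 < 0 + 1 by omega)
    have h1 : idx Js F 1 = 0 + 1 := idx_between (by rw [S_zero]; omega) (by omega)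
    have h2 := h.enum.lt 1 le_rfl hm
    have h3 : p 1 = 0 := by omega
    rw [h1, hκ (0 + 1) (by omega) (by omega)]
    show (!κ (p 1)) = true
    rw [h3, hκ0]
    rfl
  · intro i h1 h2
    show κ (idx Js F (S Js F i)) ≠ κ (idx Js F (S Js F (p i)))
    rw [idx_S, idx_S, hκ i h1 h2]
    cases κ (p i) <;> simp
  · have key : ∀ i, 1 ≤ i → i ≤ m → i ∉ Js → ∀ t, S Js F (p i) < t → t ≤ S Js F i →
        κ (idx Js F t) = κ i := by
      intro i
      induction i using Nat.strong_induction_on with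
      | _ i ih =>
        intro h1 h2 h3 t h4 h5
        rcases h.enum.reg i h1 h2 h3 with h6 | ⟨h6, h7, h8⟩
        · have h9 : idx Js F t = p i + 1 := idx_between h4 (by rw [h6]; exact h5)
          rw [h9, h6]
        · rcases Nat.lt_or_ge (S Js F (i - 1)) t with h9 | h9
          · have h10 : idx Js F t = (i - 1) + 1 := idx_between h9 (by
              rw [Nat.sub_add_cancel h1]; exact h5)
            rw [h10, Nat.sub_add_cancel h1]
          · have h10 := ih (i - 1) (by omega) (by omega) (by omega) h7 t (by rw [← h8]; exact h4) h9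
            rw [h10, hκ i h1 h2, hκ (i - 1) (by omega) (by omega), h8]
    intro i h1 h2 h3 t h4 h5
    show κ (idx Js F t) = κ (idx Js F (S Js F i))
    rw [idx_S]
    exact key i h1 h2 h3 t h4 h5.le
  · intro k hk l hl hkl
    have h1 := h.between hκ hk
    have h2 := h.between hκ hl
    have h3 : F k = F l := by
      rcases Nat.lt_trichotomy (F k) (F l) with h4 | h4 | h4
      · have h5 := (S_mono Js F).monotone (show F k + 1 ≤ F l by omega)
        omega
      · exact h4
      · have h5 := (S_mono Js F).monotone (show F l + 1 ≤ F k by omega)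
        omega
    have h4 : p k = p l := by rw [← h.par k hk, ← h.par l hl, h3]
    rw [h.sg hκ hk, h.sg hκ hl, h3, h4] at hkl
    obtain ⟨b1, b2, b3, b4⟩ := h.basic hl
    obtain ⟨d1, d2, d3, d4⟩ := h.basic hk
    rcases Nat.lt_trichotomy k l with h5 | h5 | h5
    · have h6 := J_mono p (F l) (p l) (show k + 1 ≤ l by omega)
      rw [J_succ, if_pos ⟨by omega, h4⟩] at h6
      omega
    · exact h5
    · have h6 := J_mono p (F l) (p l) (show l + 1 ≤ k by omega)
      rw [J_succ, if_pos ⟨by omega, rfl⟩] at h6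
      omega
  · intro k hk
    right
    have h1 := h.between hκ hk
    refine ⟨?_, ?_⟩
    · intro i _ hi
      rw [← hi] at h1
      have h2 := (S_mono Js F).lt_iff_lt.1 h1.1
      have h3 := (S_mono Js F).lt_iff_lt.1 h1.2
      omega
    · show κ (idx Js F _) = κ (idx Js F _)
      rw [idx_between (i := F k) (by omega) (by omega),
        idx_between (i := F k) (by omega) (by omega)]

end B

end WLob

/-- the steps for lobsters -/
theorem wrdLob_holds : WrdLobStm := by
  intro m p Js hm hE hdfs hjmp hlob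
  classical
  obtain ⟨κ, hκ0, hκ⟩ := exists_class hE.lt
  have hex : ∀ l, ∃ f, l ∈ Js → (1 ≤ f ∧ f < l ∧ p f = p l ∧ NL m p f ∧
      ∀ a, 1 ≤ a → p a = p l → NL m p a → f ≤ a) := by
    intro l
    by_cases hl : l ∈ Js
    · have h1 : ∃ a, 1 ≤ a ∧ p a = p l ∧ NL m p a := by
        obtain ⟨_, _, _, a, h1, _, h3, h4⟩ := (hjmp l).1 hl
        exact ⟨a, h1, h3, h4⟩
      obtain ⟨_, _, _, a, h2, h3, h4, h5⟩ := (hjmp l).1 hl
      obtain ⟨h6, h7, h8⟩ := Nat.find_spec h1
      have h9 := Nat.find_min' h1 ⟨h2, h4, h5⟩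
      refine ⟨Nat.find h1, fun _ => ⟨h6, by omega, h7, h8, ?_⟩⟩
      intro b hb1 hb2 hb3
      exact Nat.find_min' h1 ⟨hb1, hb2, hb3⟩
    · exact ⟨0, fun h => absurd h hl⟩
  choose F hF using hex
  have h : WLob.Hyp m p Js F := ⟨hE, hdfs, fun k hk => ((hjmp k).1 hk).2.2.1, hlob,
    fun l hl => (hF l hl).1, fun l hl => (hF l hl).2.1, fun l hl => (hF l hl).2.2.1,
    fun l hl => (hF l hl).2.2.2.1, fun l hl => (hF l hl).2.2.2.2⟩
  refine ⟨WLob.S Js F m, fun t => κ (WLob.idx Js F t), WLob.S Js F, h.good hm hκ0 hκ, ?_⟩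
  unfold WLob.S
  have := card_filter_le Js (fun l => F l < m)
  omega

end Pool.Agent.TH368.GD
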