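import Pool.Agent.TH56.CT.Sup
import Pool.Agent.TH56.CT.Ord
import Pool.Agent.TH56.CT.Fin
import Pool.Agent.TH368.GD.Wrd2
import Pool.Agent.TH368.GD.Ord2
import Pool.Agent.TH368.GD.Log
import Pool.Agent.TH368.GD.Num
import Pool.Agent.TH368.GD.WLob
import Pool.Agent.TH368.GD.Lob
import Pool.Agent.TH368.GD.PathC

/-!
# Graceful supertrees, depth first version: assembly of the parts
-/

set_option autoImplicit false

namespace Pool.Agent.TH368.GD

open Pool.Agent.TH56.CT (Enum Good Graceful)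

/-- `T` is contained in a graceful tree with `M` edges -/
def Sup {V : Type} (T : SimpleGraph V) (M : ℕ) : Prop :=
  ∃ T' : SimpleGraph (Fin (M + 1)), T'.IsTree ∧ Graceful T' ∧ T.IsContained T' ∧
    T'.edgeSet.ncard = M

theorem sup_of_enum {V : Type} [Fintype V] {T : SimpleGraph V}
    (h1 : 1 ≤ T.edgeSet.ncard) {v : ℕ → V} {p : ℕ → ℕ} {Js : Finset ℕ}
    (hE : Enum T.edgeSet.ncard p Js)
    (hinj : ∀ i j, i ≤ T.edgeSet.ncard → j ≤ T.edgeSet.ncard → v i = v j → i = j)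
    (hsurj : ∀ x : V, ∃ i ≤ T.edgeSet.ncard, v i = x)
    (hadj : ∀ x y : V, T.Adj x y → ∃ i, 1 ≤ i ∧ i ≤ T.edgeSet.ncard ∧
      ((v i = x ∧ v (p i) = y) ∨ (v i = y ∧ v (p i) = x)))
    {M : ℕ} {c : ℕ → Bool} {s : ℕ → ℕ}
    (hG : Good T.edgeSet.ncard p Js M c s) : Sup T M := by
  classical
  obtain ⟨T', t1, t2, t3, t4⟩ := Pool.Agent.TH56.CT.sup _ p Js M c s h1 hE hG
  set m : ℕ := T.edgeSet.ncard with hm
  refine ⟨T', t1, t3, ?_, t2⟩
  choose idx hidx1 hidx2 using hsurj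
  have hs : ∀ i ≤ m, s i < M + 1 := by
    intro i hi
    rcases hi.lt_or_eq with h0 | h0
    · have h2 := hG.mono i m h0 le_rfl
      rw [hG.last] at h2
      omega
    · rw [h0, hG.last]
      exact Nat.lt_succ_self _
  have hsinj : ∀ i j, i ≤ m → j ≤ m → s i = s j → i = j := by
    intro i j hi hj hij
    rcases Nat.lt_trichotomy i j with h | h | h
    · have := hG.mono i j h hj
      omega
    · exact h
    · have := hG.mono j i h hi
      omega
  have hvidx : ∀ i ≤ m, idx (v i) = i := fun i hi => hinj _ _ (hidx1 _) hi (hidx2 _)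
  refine ⟨⟨⟨fun x => ⟨s (idx x), hs _ (hidx1 x)⟩, ?_⟩, ?_⟩⟩
  · intro x y hxy
    obtain ⟨i, hi1, hi2, hi3⟩ := hadj x y hxy
    have hpi : p i ≤ m := (hE.lt i hi1 hi2).le.trans hi2
    rcases hi3 with ⟨ha, hb⟩ | ⟨ha, hb⟩
    · refine t4 i hi1 hi2 _ _ ?_ ?_
      · show s (idx x) = s i
        rw [← ha, hvidx i hi2]
      · show s (idx y) = s (p i)
        rw [← hb, hvidx _ hpi]
    · refine (t4 i hi1 hi2 _ _ ?_ ?_).symm
      · show s (idx y) = s i
        rw [← ha, hvidx i hi2]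
      · show s (idx x) = s (p i)
        rw [← hb, hvidx _ hpi]
  · intro x y hxy
    have h2 : s (idx x) = s (idx y) := congrArg (fun z : Fin _ => (z : ℕ)) hxy
    have h3 := hsinj _ _ (hidx1 x) (hidx1 y) h2
    rw [← hidx2 x, ← hidx2 y, h3]

theorem sup_of_good {V : Type} [Fintype V] {T : SimpleGraph V} {r : V} {key : V → ℕ}
    (h1 : 1 ≤ T.edgeSet.ncard) {v : ℕ → V} {p : ℕ → ℕ} {Js : Finset ℕ}
    (hD : Dfs T r key T.edgeSet.ncard v p Js) {M : ℕ} {c : ℕ → Bool} {s : ℕ → ℕ}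
    (hG : Good T.edgeSet.ncard p Js M c s) : Sup T M :=
  sup_of_enum h1 hD.enum hD.inj hD.surj (fun x y h => (hD.adj x y).1 h) hG

/-- a vertex of `DL T` gives an edge -/
theorem one_le_of_mem {V : Type} [Fintype V] {T : SimpleGraph V} {r : V} (hr : r ∈ DL T) :
    1 ≤ T.edgeSet.ncard := by
  have h1 : 2 ≤ (T.neighborSet r).ncard := hr.1
  have h2 : (T.neighborSet r).Nonempty := by
    rw [← Set.ncard_pos (Set.toFinite _)]
    omega
  obtain ⟨y, hy⟩ := h2
  have h3 : T.edgeSet.Nonempty := ⟨s(r, y), hy⟩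
  exact (Set.ncard_pos (Set.toFinite _)).2 h3

/-- the general bound from a certificate -/
theorem sup_of_cert {V : Type} [Fintype V] {T : SimpleGraph V} (hT : T.IsTree) {r : V}
    (hr : r ∈ DL T) {key : V → ℕ} {H : ℕ}
    (hkey : ∀ (v : ℕ → V) (p : ℕ → ℕ) (Js : Finset ℕ), Dfs T r key T.edgeSet.ncard v p Js →
      Cert T.edgeSet.ncard p Js (fun a => key (v a)) H) :
    ∃ M, Sup T M ∧ M ≤ T.edgeSet.ncard + 2 * ((DL T).ncard - 2) * H := by
  have h1 := one_le_of_mem hr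
  obtain ⟨v, p, Js, hD, hp, hJ⟩ := dfs_holds V T r key hT hr
  have hC := hkey v p Js hD
  obtain ⟨g, hE2, hg⟩ := num_holds _ p Js _ H hD.enum hD.dfs hD.jmp hp hD.srt hC
  obtain ⟨M, c, s, hG, hM⟩ := wrd2 _ p Js g h1 hE2
  refine ⟨M, sup_of_good h1 hD hG, hM.trans ?_⟩
  apply Nat.add_le_add_left
  rcases Finset.eq_empty_or_nonempty Js with h2 | h2
  · rw [h2]
    simp
  · have h3 := hg h2
    have h4 : Js.card + 2 ≤ (DL T).ncard := by
      rcases hJ with h5 | h5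
      · exact absurd h5 (Finset.card_pos.2 h2).ne'
      · exact h5
    calc 2 * (g + 1) * Js.card = 2 * Js.card * (g + 1) := by ring
      _ ≤ 2 * ((DL T).ncard - 2) * H :=
        Nat.mul_le_mul (Nat.mul_le_mul_left _ (by omega)) h3

/-- **Every tree with `m ≥ 1` edges is contained in a graceful tree with at most
`m + 2 (L - 2) log₂ (L - 1)` edges**, `L` the number of leaves of the derived tree. -/
theorem log_main {V : Type} [Fintype V] {T : SimpleGraph V} (hT : T.IsTree)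
    (h1 : 1 ≤ T.edgeSet.ncard) : ∃ M, Sup T M ∧
    M ≤ T.edgeSet.ncard + 2 * ((DL T).ncard - 2) * Nat.log 2 ((DL T).ncard - 1) := by
  rcases Nat.lt_or_ge 2 (DL T).ncard with h2 | h2
  · have h3 : (DL T).Nonempty := by
      rw [← Set.ncard_pos (Set.toFinite _)]
      omega
    obtain ⟨r, hr⟩ := h3
    obtain ⟨key, hkey⟩ := log_holds V T r hT hr
    exact sup_of_cert hT hr hkey
  · obtain ⟨J, hJ, M, T', t1, t2, t3, t4, t5⟩ := Pool.Agent.TH56.CT.fin_main
      Pool.Agent.TH56.CT.wrd Pool.Agent.TH56.CT.sup Pool.Agent.TH56.CT.ord hT h1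
    refine ⟨M, ⟨T', t1, t2, t3, t4⟩, t5.trans ?_⟩
    apply Nat.add_le_add_left
    rcases hJ with hJ | hJ
    · rw [hJ]
      simp
    · have h5 : J + 2 ≤ (DL T).ncard := hJ
      have h6 : J = 0 := by omega
      rw [h6]
      simp

/-- if the vertices with three neighbours which are not leaves lie on a path -/
theorem path_main {V : Type} [Fintype V] {T : SimpleGraph V} (hT : T.IsTree)
    (h1 : 1 ≤ T.edgeSet.ncard)
    (hP : ∃ (x y : V) (q : T.Walk x y), q.IsPath ∧ ∀ z ∈ Br T, z ∈ q.support) :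
    ∃ M, Sup T M ∧ M ≤ T.edgeSet.ncard + 2 * ((DL T).ncard - 2) := by
  by_cases hne : (DL T).Nonempty
  · obtain ⟨r, hr, key, hkey⟩ := path_holds V T hT hne hP
    obtain ⟨M, h2, h3⟩ := sup_of_cert hT hr hkey
    exact ⟨M, h2, by rw [Nat.mul_one] at h3; exact h3⟩
  · obtain ⟨M, h2, h3⟩ := log_main hT h1
    refine ⟨M, h2, h3.trans ?_⟩
    rw [Set.not_nonempty_iff_eq_empty] at hne
    rw [hne, Set.ncard_empty]
    simp

/-- lobsters -/
theorem lob_main {V : Type} [Fintype V] {T : SimpleGraph V} (hT : T.IsTree)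
    (h1 : 1 ≤ T.edgeSet.ncard)
    (hP : ∃ (x y : V) (q : T.Walk x y), q.IsPath ∧ ∀ z, ∃ u ∈ q.support, T.dist u z ≤ 2) :
    ∃ M, Sup T M ∧ M ≤ T.edgeSet.ncard + ((DL T).ncard - 2) := by
  by_cases hne : (DL T).Nonempty
  · obtain ⟨r, hr, key, hkey⟩ := lob_holds V T hT hne hP
    obtain ⟨v, p, Js, hD, hp, hJ⟩ := dfs_holds V T r key hT hr
    obtain ⟨M, c, s, hG, hM⟩ := wrdLob_holds _ p Js h1 hD.enum hD.dfs hD.jmp (hkey v p Js hD)
    exact ⟨M, sup_of_good h1 hD hG, by omega⟩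
  · obtain ⟨M, h2, h3⟩ := log_main hT h1
    refine ⟨M, h2, h3.trans ?_⟩
    rw [Set.not_nonempty_iff_eq_empty] at hne
    rw [hne, Set.ncard_empty]
    simp

end Pool.Agent.TH368.GD
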