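import Pool.Agent.TH56.CL.Dfs
import Pool.Agent.TH56.CL.Root
import Pool.Agent.TH368.GD.Cost2
import Pool.Agent.TH368.GD.Fin2

/-!
# Graceful supertrees, depth first version: the linear bound
-/

set_option autoImplicit false

namespace Pool.Agent.TH368.GD

open Finset
open Pool.Agent.TH56.CT (Enum Good Graceful)
open Pool.Agent.TH56.CL (Ord Jmp lvl Lvl enu dfs root)

/-- a depth-first order of the vertices of a tree with the weights of helper56 -/
theorem exists_ord {V : Type} [Fintype V] {T : SimpleGraph V} (hTree : T.IsTree)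
    (hm1 : 1 ≤ T.edgeSet.ncard) : ∃ (v : ℕ → V) (p w : ℕ → ℕ), Ord T.edgeSet.ncard p w ∧
    (∀ i j, i ≤ T.edgeSet.ncard → j ≤ T.edgeSet.ncard → v i = v j → i = j) ∧
    (∀ x : V, ∃ i ≤ T.edgeSet.ncard, v i = x) ∧
    (∀ x y : V, T.Adj x y → ∃ i, 1 ≤ i ∧ i ≤ T.edgeSet.ncard ∧
      ((v i = x ∧ v (p i) = y) ∨ (v i = y ∧ v (p i) = x))) ∧
    (w 0 = 1 ∨ w 0 + 1 ≤ (DL T).ncard) := by
  classical
  obtain ⟨r, par, w, hpr, hreach, hadj, hadj', hw0, hw1, hL⟩ := root V T hTree hm1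
  have hcard : Fintype.card V = T.edgeSet.ncard + 1 := by
    have h1 := hTree.card_edgeFinset
    have h2 : T.edgeSet.ncard = T.edgeFinset.card := by
      rw [← SimpleGraph.coe_edgeFinset, Set.ncard_coe_finset]
    omega
  obtain ⟨e, p, he0, hinj, hsurj, hpe, hlam, hsrt⟩ := dfs V r par w hpr hreach
  rw [hcard] at hinj hsurj hpe hlam hsrt
  set m := T.edgeSet.ncard with hmdef
  have hpos : ∀ x : V, x ≠ r → ∃ i, 1 ≤ i ∧ i ≤ m ∧ e i = x := by
    intro x hx
    obtain ⟨i, hi, hix⟩ := hsurj x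
    refine ⟨i, ?_, by omega, hix⟩
    rcases Nat.eq_zero_or_pos i with h0 | h0
    · exfalso
      apply hx
      rw [← hix, h0, he0]
    · exact h0
  have hne : ∀ k, 1 ≤ k → k ≤ m → e k ≠ r := by
    intro k hk1 hkm h
    rw [← he0] at h
    have := hinj k 0 (by omega) (by omega) h
    omega
  have hch : ∀ x ≤ m, ∀ k, 1 ≤ k → k ≤ m → (par (e k) = e x ↔ p k = x) := by
    intro x hx k hk1 hkm
    obtain ⟨h1, h2⟩ := hpe k hk1 (by omega)
    rw [← h2]
    constructor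
    · intro h
      exact hinj _ _ (by omega) (by omega) h
    · intro h
      rw [h]
  have hOrd : Ord m p (fun i => w (e i)) := by
    refine ⟨?_, ?_, ?_, ?_, ?_⟩
    · intro i h1 h2
      exact (hpe i h1 (by omega)).1
    · intro k h1 h2 l h3 h4
      exact hlam k h1 (by omega) l h3 h4
    · intro l k h1 h2 h3 h4
      exact hsrt l k h1 h2 (by omega) h4
    · intro x hx h
      apply hw0
      intro v hv hvx
      obtain ⟨k, hk1, hkm, rfl⟩ := hpos v hv
      exact h k hk1 hkm ((hch x hx k hk1 hkm).1 hvx)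
    · rintro x hx ⟨k, hk1, hkm, hkx⟩
      have h1 := hw1 (e x) ⟨e k, hne k hk1 hkm, (hch x hx k hk1 hkm).2 hkx⟩
      change w (e x) = _
      rw [h1]
      congr 1
      have h2 : univ.filter (fun v => v ≠ r ∧ par v = e x) =
          ((Icc 1 m).filter (fun k => p k = x)).image e := by
        ext v
        simp only [mem_filter, mem_univ, true_and, mem_image, mem_Icc]
        constructor
        · rintro ⟨hv, hvx⟩
          obtain ⟨j, hj1, hjm, rfl⟩ := hpos v hv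
          exact ⟨j, ⟨⟨hj1, hjm⟩, (hch x hx j hj1 hjm).1 hvx⟩, rfl⟩
        · rintro ⟨j, ⟨⟨hj1, hjm⟩, hjx⟩, rfl⟩
          exact ⟨hne j hj1 hjm, (hch x hx j hj1 hjm).2 hjx⟩
      rw [h2, sum_image]
      intro i hi j hj hij
      simp only [coe_filter, mem_Icc, Set.mem_ofPred_eq] at hi hj
      exact hinj i j (by omega) (by omega) hij
  refine ⟨e, p, fun i => w (e i), hOrd, ?_, ?_, ?_, ?_⟩
  · intro i j hi hj h
    exact hinj i j (by omega) (by omega) h
  · intro x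
    obtain ⟨i, hi, hix⟩ := hsurj x
    exact ⟨i, by omega, hix⟩
  · intro x y hxy
    rcases hadj' x y hxy with ⟨h1, h2⟩ | ⟨h1, h2⟩
    · obtain ⟨i, hi1, him, rfl⟩ := hpos x h1
      refine ⟨i, hi1, him, Or.inl ⟨rfl, ?_⟩⟩
      rw [(hpe i hi1 (by omega)).2, h2]
    · obtain ⟨i, hi1, him, rfl⟩ := hpos y h1
      refine ⟨i, hi1, him, Or.inr ⟨rfl, ?_⟩⟩
      rw [(hpe i hi1 (by omega)).2, h2]
  · show w (e 0) = 1 ∨ w (e 0) + 1 ≤ _
    rw [he0]
    exact hL

/-- **Every tree with `m ≥ 1` edges is contained in a graceful tree with at most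
`m + 12 (L - 2)` edges**, `L` the number of leaves of the derived tree. -/
theorem lin_main {V : Type} [Fintype V] {T : SimpleGraph V} (hT : T.IsTree)
    (h1 : 1 ≤ T.edgeSet.ncard) : ∃ M, Sup T M ∧
    M ≤ T.edgeSet.ncard + 12 * ((DL T).ncard - 2) := by
  obtain ⟨v, p, w, hO, hinj, hsurj, hadj, hw⟩ := exists_ord hT h1
  obtain ⟨M, c, s, hG, hM⟩ := W3.wrd3 h1 (C2.lv3 hO)
  refine ⟨M, sup_of_enum h1 (enu _ _ _ hO).1 hinj hsurj hadj hG, hM.trans ?_⟩
  have h2 := C2.cost_lin hO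
  have h3 : ∑ k ∈ Jmp T.edgeSet.ncard p w, ((4 * 2 ^ (lvl p w k / 2) - 1) + 1) =
      ∑ k ∈ Jmp T.edgeSet.ncard p w, 4 * 2 ^ (lvl p w k / 2) := by
    refine sum_congr rfl fun k _ => ?_
    have : 1 ≤ 2 ^ (lvl p w k / 2) := Nat.one_le_pow _ _ (by norm_num)
    omega
  rw [h3]
  omega

/-- both bounds -/
theorem both_main {V : Type} [Fintype V] {T : SimpleGraph V} (hT : T.IsTree)
    (h1 : 1 ≤ T.edgeSet.ncard) : ∃ M, Sup T M ∧
    M ≤ T.edgeSet.ncard + 2 * ((DL T).ncard - 2) * min (Nat.log 2 ((DL T).ncard - 1)) 6 := by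
  rcases Nat.lt_or_ge 6 (Nat.log 2 ((DL T).ncard - 1)) with h | h
  · obtain ⟨M, h2, h3⟩ := lin_main hT h1
    refine ⟨M, h2, h3.trans ?_⟩
    rw [min_eq_right h.le]
    omega
  · obtain ⟨M, h2, h3⟩ := log_main hT h1
    refine ⟨M, h2, ?_⟩
    rw [min_eq_left h]
    exact h3

end Pool.Agent.TH368.GD
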